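import Pool.Agent.MP_ee8c61_ag.M3.Mod

/-!
Forms of degree `n - 1` as vector fields, twisted volume forms as flat divergence operators,
exact fields, filtrations, places and restriction.
-/

namespace Pool.Agent.MP_ee8c61_ag.M3RESID

open M3 Finset

noncomputable section

abbrev VF (L : Type) [Field L] [Algebra ℂ L] : Type := Derivation ℂ L L

variable {L k : Type} [Field L] [Algebra ℂ L] [Field k] [Algebra ℂ k] {n : ℕ}

theorem sum_ap {ι : Type} (s : Finset ι) (v : ι → VF L) (g : L) :
    (∑ i ∈ s, v i) g = ∑ i ∈ s, v i g := by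
  classical
  induction s using Finset.induction_on with
  | empty => simp
  | insert a s ha ih => rw [sum_insert ha, sum_insert ha, Derivation.add_apply, ih]

/-- A flat divergence operator: a twisted volume form up to a constant. -/
structure Dv (L : Type) [Field L] [Algebra ℂ L] where
  δ : VF L →+ L
  smul : ∀ (g : L) (v : VF L), δ (g • v) = g * δ v + v g
  lie : ∀ v u : VF L, δ ⁅v, u⁆ = v (δ u) - u (δ v)

namespace Dv

variable (d : Dv L)

/-- The field of the differential of the form attached to `X ∧ Y`. -/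
def B (X Y : VF L) : VF L := ⁅X, Y⁆ + d.δ X • Y - d.δ Y • X

/-- The exact fields. -/
def Ex : AddSubgroup (VF L) := AddSubgroup.closure {v | ∃ X Y, v = d.B X Y}

/-- The volume form multiplied by `g ^ c`. -/
def tw (g : L) (c : ℂ) : Dv L where
  δ := d.δ + AddMonoidHom.mk' (fun v => c • (v g / g)) fun v u => by
    simp only [Derivation.add_apply, add_div, smul_add]
  smul h v := by
    simp only [AddMonoidHom.add_apply, AddMonoidHom.mk'_apply, d.smul, Derivation.smul_apply,
      smul_eq_mul, mul_add, mul_smul_comm, mul_div_assoc]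
    ring
  lie v u := by
    by_cases h : g = 0
    · simp [h, d.lie]
    simp only [AddMonoidHom.add_apply, AddMonoidHom.mk'_apply, d.lie, map_add,
      Derivation.commutator_apply, Algebra.smul_def]
    simp only [Derivation.leibniz, Derivation.map_algebraMap, Derivation.leibniz_div, smul_eq_mul]
    field_simp
    ring

end Dv

/-- Coordinates with a dual frame that spans all vector fields. -/
structure Co (L : Type) [Field L] [Algebra ℂ L] (n : ℕ) where
  z : Fin n → L
  D : Fin n → VF L
  ne : ∀ i, z i ≠ 0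
  dual : ∀ i j, D i (z j) = if i = j then 1 else 0
  span : ∀ v : VF L, (∀ i, v (z i) = 0) → v = 0

namespace Co

variable (C : Co L n)

theorem exp (v : VF L) : v = ∑ i, v (C.z i) • C.D i := by
  refine sub_eq_zero.1 (C.span _ fun j => ?_)
  simp [sum_ap, C.dual]

theorem exp_apply (v : VF L) (g : L) : v g = ∑ i, v (C.z i) * C.D i g := by
  conv_lhs => rw [C.exp v]
  simp [sum_ap]

theorem comm (i j : Fin n) (g : L) : C.D i (C.D j g) = C.D j (C.D i g) := by
  have h : ⁅C.D i, C.D j⁆ = 0 := C.span _ fun l => by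
    rw [Derivation.commutator_apply, C.dual, C.dual]
    split_ifs <;> simp
  have := congrArg (fun v : VF L => v g) h
  simpa [Derivation.commutator_apply, sub_eq_zero] using this

/-- The divergence of the volume form `∏ d z i`. -/
def dv : Dv L where
  δ := AddMonoidHom.mk' (fun v => ∑ i, C.D i (v (C.z i))) fun v u => by
    simp [sum_add_distrib]
  smul g v := by
    simp only [AddMonoidHom.mk'_apply, Derivation.smul_apply, smul_eq_mul, Derivation.leibniz,
      sum_add_distrib, mul_sum]
    rw [C.exp_apply v g]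
  lie v u := by
    have h : ∀ v u : VF L, ∑ i, C.D i (v (u (C.z i))) = v (∑ i, C.D i (u (C.z i))) +
        ∑ i, ∑ j, C.D i (v (C.z j)) * C.D j (u (C.z i)) := fun v u => by
      rw [map_sum, ← sum_add_distrib]
      refine sum_congr rfl fun i _ => ?_
      rw [C.exp_apply v (u _), C.exp_apply v (C.D i _), map_sum, ← sum_add_distrib]
      refine sum_congr rfl fun j _ => ?_
      rw [Derivation.leibniz, C.comm i j, smul_eq_mul, smul_eq_mul]
      ring
    simp only [AddMonoidHom.mk'_apply, Derivation.commutator_apply, map_sub, sum_sub_distrib, h]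
    rw [sum_comm (f := fun i j => C.D i (u (C.z j)) * C.D j (v (C.z i)))]
    simp only [mul_comm (C.D _ (u _))]
    ring

/-- The Euler field of a coordinate. -/
def th (i : Fin n) : VF L := C.z i • C.D i

def mon (c : Fin n → ℤ) : L := ∏ i, C.z i ^ c i

/-- The ring `O` is stable under the frame and contains the coordinates. -/
structure St (O : Subalgebra ℂ L) : Prop where
  z : ∀ i, C.z i ∈ O
  D : ∀ i, ∀ g ∈ O, C.D i g ∈ O

/-- The volume form of `d` is a unit of `O` times `∏ z i ^ a i dlog z i`. -/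
def Ad (O : Subalgebra ℂ L) (d : Dv L) (a : Fin n → ℂ) : Prop :=
  ∀ i, (d.δ (C.th i) - algebraMap ℂ L (a i)) / C.z i ∈ O

/-- Logarithmic fields times the monomial `c`. -/
def F (O : Subalgebra ℂ L) (c : Fin n → ℤ) : AddSubgroup (VF L) where
  carrier := {v | ∀ i, v (C.z i) / (C.z i * C.mon c) ∈ O}
  zero_mem' := fun i => by simp
  add_mem' := fun {v u} hv hu i => by
    rw [Derivation.add_apply, add_div]
    exact add_mem (hv i) (hu i)
  neg_mem' := fun {v} hv i => by
    rw [Derivation.neg_apply, neg_div]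
    exact neg_mem (hv i)

/-- The ideal of the coordinates in `O`. -/
def Mx (O : Subalgebra ℂ L) (g : L) : Prop :=
  ∃ h : Fin n → L, (∀ i, h i ∈ O) ∧ g = ∑ i, C.z i * h i

/-- Modulo exact fields `v` is `mon c * ∑ h i • th i` with `h i` in `O` of value `t i`. -/
def Lead (O : Subalgebra ℂ L) (d : Dv L) (c : Fin n → ℤ) (v : VF L) (t : Fin n → ℂ) : Prop :=
  ∃ u ∈ d.Ex, v - u ∈ C.F O c ∧
    ∀ i, C.Mx O ((v - u) (C.z i) / (C.z i * C.mon c) - algebraMap ℂ L (t i))

end Co

/-- Fields that shift the valuation by at least `c`. -/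
def LV (o : DV L) (c : ℤ) : AddSubgroup (VF L) where
  carrier := {v | ∀ m, ∀ g ∈ o.F m, v g ∈ o.F (m + c)}
  zero_mem' := fun m g _ => by simp
  add_mem' := fun {v u} hv hu m g hg => add_mem (hv m g hg) (hu m g hg)
  neg_mem' := fun {v} hv m g hg => neg_mem (hv m g hg)

/-- A discrete valuation of `L` with its residue map onto `k`. -/
structure Pl (L k : Type) [Field L] [Algebra ℂ L] [Field k] [Algebra ℂ k] where
  o : DV L
  π : L → k
  add : ∀ g ∈ o.F 0, ∀ h ∈ o.F 0, π (g + h) = π g + π h
  mul : ∀ g ∈ o.F 0, ∀ h ∈ o.F 0, π (g * h) = π g * π h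
  cst : ∀ c : ℂ, algebraMap ℂ L c ∈ o.F 0 ∧ π (algebraMap ℂ L c) = algebraMap ℂ k c
  ker : ∀ g ∈ o.F 0, π g = 0 ↔ g ∈ o.F 1
  surj : ∀ y, ∃ g ∈ o.F 0, π g = y

/-- The coordinates are adapted to the valuation: `z i` is a uniformizer, the others are units,
the frame keeps the valuation ring. -/
structure Co.At (C : Co L n) (o : DV L) (i : Fin n) : Prop where
  cst : ∀ c : ℂ, algebraMap ℂ L c ∈ o.F 0
  v : ∀ j, o.v (C.z j) = if j = i then 1 else 0
  D : ∀ j, ∀ g ∈ o.F 0, C.D j g ∈ o.F 0

/-- The valuation `o` is the order along the coordinate `z i` of the ring `O`. -/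
structure Co.Dat (C : Co L n) (O : Subalgebra ℂ L) (o : DV L) (i : Fin n) : Prop where
  adp : C.At o i
  le : ∀ g ∈ O, g ∈ o.F 0
  div : ∀ g ∈ O, g ∈ o.F 1 → g / C.z i ∈ O

/-- The volume form of `d` has exponent `a` at `o`. -/
structure Exp (d : Dv L) (o : DV L) (a : ℂ) : Prop where
  reg : ∀ v ∈ LV o 0, d.δ v ∈ o.F 0
  fin : ∀ v : VF L, ∃ c, v ∈ LV o c
  eul : ∃ θ : VF L, (∀ m, ∀ g ∈ o.F m, θ g - (m : L) * g ∈ o.F (m + 1)) ∧
    d.δ θ - algebraMap ℂ L a ∈ o.F 1

namespace Pl

variable (P : Pl L k)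

/-- `w` is the restriction of the logarithmic field `v`. -/
def Rs (v : VF L) (w : VF k) : Prop := v ∈ LV P.o 0 ∧ ∀ g ∈ P.o.F 0, P.π (v g) = w (P.π g)

/-- `e` is the residue of the volume form `d`. -/
def RsD (d : Dv L) (e : Dv k) : Prop := ∀ v w, P.Rs v w → P.π (d.δ v) = e.δ w

/-- `w` is a residue of the class of `v` modulo exact fields. -/
def Res (d : Dv L) (v : VF L) (w : VF k) : Prop := ∃ u ∈ d.Ex, P.Rs (v - u) w

/-- `w` is a residue of the class of `v` at a place with integral exponent `a` and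
uniformizer `x`. -/
def Rx (d : Dv L) (x : L) (a : ℤ) (v : VF L) (w : VF k) : Prop :=
  ∃ u ∈ d.Ex, P.Rs (x ^ a • (v - u)) w

/-- The coordinates `C'` on `k` are the residues of the coordinates other than `z i`. -/
def RsC (C : Co L (n + 1)) (i : Fin (n + 1)) (C' : Co k n) : Prop :=
  ∀ j, C'.z j = P.π (C.z (i.succAbove j))

/-- The image of a subring of the valuation ring. -/
def RsO (O : Subalgebra ℂ L) (O' : Subalgebra ℂ k) : Prop := ∀ y, y ∈ O' ↔ ∃ g ∈ O, P.π g = y

end Pl

end

end Pool.Agent.MP_ee8c61_ag.M3RESID
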