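import Pool.Agent.MP_ee8c61_ag.M3RESID.Val

/-!
Restriction of fields and divergences to the residue field of a place.
-/

namespace Pool.Agent.MP_ee8c61_ag.M3RESID

open M3 Finset

variable {L k : Type} [Field L] [Algebra ℂ L] [Field k] [Algebra ℂ k] {n : ℕ}

namespace Pl

variable (P : Pl L k)

theorem π_F1 {g : L} (hg : g ∈ P.o.F 1) : P.π g = 0 :=
  (P.ker g (P.o.F_anti (by omega) hg)).2 hg

theorem π_zero : P.π 0 = 0 := P.π_F1 (zero_mem _)

theorem π_cst (c : ℂ) : P.π (algebraMap ℂ L c) = algebraMap ℂ k c := (P.cst c).2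

theorem π_one : P.π 1 = 1 := by simpa using P.π_cst 1

theorem π_int (m : ℤ) : P.π m = m := by simpa using P.π_cst m

variable {P}

theorem π_neg {g : L} (hg : g ∈ P.o.F 0) : P.π (-g) = -P.π g := by
  have := P.add g hg (-g) (neg_mem hg)
  rw [add_neg_cancel, π_zero] at this
  linear_combination -this

theorem π_sub {g h : L} (hg : g ∈ P.o.F 0) (hh : h ∈ P.o.F 0) : P.π (g - h) = P.π g - P.π h := by
  rw [sub_eq_add_neg, P.add g hg _ (neg_mem hh), π_neg hh, sub_eq_add_neg]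

theorem π_congr {g h : L} (hg : g ∈ P.o.F 0) (hh : h - g ∈ P.o.F 1) : P.π h = P.π g := by
  rw [← sub_add_cancel h g, P.add _ (P.o.F_anti (by omega) hh) g hg, P.π_F1 hh, zero_add]

theorem π_eq {g h : L} (hg : g ∈ P.o.F 0) (hh : h ∈ P.o.F 0) (e : P.π h = P.π g) :
    h - g ∈ P.o.F 1 := (P.ker _ (sub_mem hh hg)).1 (by rw [π_sub hh hg, e, sub_self])

theorem π_sum {ι : Type} (s : Finset ι) {g : ι → L} (hg : ∀ i ∈ s, g i ∈ P.o.F 0) :
    P.π (∑ i ∈ s, g i) = ∑ i ∈ s, P.π (g i) := by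
  classical
  induction s using Finset.induction_on with
  | empty => simpa using P.π_zero
  | insert a s ha ih =>
    have h := fun i hi => hg i (mem_insert_of_mem hi)
    rw [sum_insert ha, sum_insert ha, P.add _ (hg a (mem_insert_self a s)) _ (sum_mem h), ih h]

theorem π_ne {g : L} (h0 : g ≠ 0) (hg : P.o.v g = 0) : P.π g ≠ 0 := fun h => by
  rcases (P.ker g (Or.inr hg.ge)).1 h with h | h
  · exact h0 h
  · omega

theorem π_div {g u : L} (hg : g ∈ P.o.F 0) (h0 : u ≠ 0) (hu : P.o.v u = 0) :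
    P.π (g / u) = P.π g / P.π u := by
  have h1 : g / u ∈ P.o.F 0 := by simpa [hu] using F_div hg u
  rw [eq_div_iff (π_ne h0 hu), ← P.mul _ h1 _ (Or.inr hu.ge), div_mul_cancel₀ _ h0]

theorem π_zpow {u : L} (h0 : u ≠ 0) (hu : P.o.v u = 0) (m : ℤ) : P.π (u ^ m) = P.π u ^ m := by
  have hn : ∀ m : ℕ, P.π (u ^ m) = P.π u ^ m := fun m => by
    induction m with
    | zero => simpa using P.π_one
    | succ m ih =>
      rw [pow_succ, pow_succ, P.mul _ (Or.inr (by rw [v_pow _ h0, hu, mul_zero])) _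
        (Or.inr hu.ge), ih]
  obtain ⟨m, rfl | rfl⟩ := Int.eq_nat_or_neg m
  · simpa using hn m
  · rw [zpow_neg, zpow_neg, zpow_natCast, zpow_natCast, ← one_div, ← one_div,
      π_div one_F (pow_ne_zero _ h0) (by rw [v_pow _ h0, hu, mul_zero]), P.π_one, hn]

/-- Every logarithmic field has a restriction. -/
theorem exists_Rs {v : VF L} (hv : v ∈ LV P.o 0) : ∃ w, P.Rs v w := by
  choose l hl hπ using P.surj
  have h0 : ∀ g ∈ P.o.F 0, v g ∈ P.o.F 0 := fun g hg => by simpa using hv 0 g hg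
  have key : ∀ g ∈ P.o.F 0, P.π (v (l (P.π g))) = P.π (v g) := fun g hg =>
    π_congr (h0 g hg) (by
      rw [← map_sub]
      simpa using hv 1 _ (π_eq hg (hl _) (hπ _)))
  have hmul : ∀ x y, P.π (v (l (x * y))) = x * P.π (v (l y)) + y * P.π (v (l x)) := fun x y => by
    have := key _ (F_mul0 (hl x) (hl y))
    rw [P.mul _ (hl x) _ (hl y), hπ, hπ] at this
    rw [this, Derivation.leibniz, smul_eq_mul, smul_eq_mul,
      P.add _ (F_mul0 (hl x) (h0 _ (hl y))) _ (F_mul0 (hl y) (h0 _ (hl x))),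
      P.mul _ (hl x) _ (h0 _ (hl y)), P.mul _ (hl y) _ (h0 _ (hl x)), hπ, hπ]
  refine ⟨Derivation.mk'
    { toFun := fun y => P.π (v (l y))
      map_add' := fun x y => ?_
      map_smul' := fun c y => ?_ } fun x y => hmul x y, hv, fun g hg => (key g hg).symm⟩
  · have := key _ (add_mem (hl x) (hl y))
    rw [P.add _ (hl x) _ (hl y), hπ, hπ] at this
    rw [this, map_add, P.add _ (h0 _ (hl x)) _ (h0 _ (hl y))]
  · have := key _ (cst_F P.o c)
    rw [P.π_cst, Derivation.map_algebraMap, P.π_zero] at this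
    rw [RingHom.id_apply, Algebra.smul_def, Algebra.smul_def, hmul, this, mul_zero, add_zero]

theorem Rs.ap {v : VF L} {w : VF k} (h : P.Rs v w) {g : L} (hg : g ∈ P.o.F 0) :
    v g ∈ P.o.F 0 := by simpa using h.1 0 g hg

theorem Rs.uniq {v : VF L} {w w' : VF k} (h : P.Rs v w) (h' : P.Rs v w') : w = w' := by
  ext y
  obtain ⟨g, hg, rfl⟩ := P.surj y
  rw [← h.2 g hg, h'.2 g hg]

theorem Rs.add {v v' : VF L} {w w' : VF k} (h : P.Rs v w) (h' : P.Rs v' w') :
    P.Rs (v + v') (w + w') :=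
  ⟨add_mem h.1 h'.1, fun g hg => by
    rw [Derivation.add_apply, Derivation.add_apply, P.add _ (h.ap hg) _ (h'.ap hg), h.2 g hg,
      h'.2 g hg]⟩

theorem Rs.sub {v v' : VF L} {w w' : VF k} (h : P.Rs v w) (h' : P.Rs v' w') :
    P.Rs (v - v') (w - w') :=
  ⟨sub_mem h.1 h'.1, fun g hg => by
    rw [Derivation.sub_apply, Derivation.sub_apply, π_sub (h.ap hg) (h'.ap hg), h.2 g hg,
      h'.2 g hg]⟩

theorem Rs.smul {v : VF L} {w : VF k} (h : P.Rs v w) {c : L} (hc : c ∈ P.o.F 0) :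
    P.Rs (c • v) (P.π c • w) :=
  ⟨LV_smul0 hc h.1, fun g hg => by
    rw [Derivation.smul_apply, Derivation.smul_apply, smul_eq_mul, smul_eq_mul,
      P.mul _ hc _ (h.ap hg), h.2 g hg]⟩

theorem Rs.lie {v v' : VF L} {w w' : VF k} (h : P.Rs v w) (h' : P.Rs v' w') :
    P.Rs ⁅v, v'⁆ ⁅w, w'⁆ :=
  ⟨by simpa using LV_lie h.1 h'.1, fun g hg => by
    rw [Derivation.commutator_apply, Derivation.commutator_apply,
      π_sub (h.ap (h'.ap hg)) (h'.ap (h.ap hg)), h.2 _ (h'.ap hg), h'.2 _ (h.ap hg), h.2 g hg,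
      h'.2 g hg]⟩

theorem Rs_zero_iff {v : VF L} : P.Rs v 0 ↔ v ∈ LV P.o 0 ∧ ∀ g ∈ P.o.F 0, v g ∈ P.o.F 1 :=
  ⟨fun h => ⟨h.1, fun g hg => (P.ker _ (h.ap hg)).1 (h.2 g hg)⟩,
    fun h => ⟨h.1, fun g hg => P.π_F1 (h.2 g hg)⟩⟩

theorem Rs_LV1 {v : VF L} (hv : v ∈ LV P.o 1) : P.Rs v 0 :=
  Rs_zero_iff.2 ⟨LV_anti (by omega) hv, fun g hg => by simpa using hv 0 g hg⟩

theorem Rs_eul {θ : VF L} (h : Eul P.o θ) : P.Rs θ 0 :=
  Rs_zero_iff.2 ⟨h.mem, fun _ hg => h.zero hg⟩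

theorem Rs.zero : P.Rs 0 0 := Rs_LV1 (zero_mem _)

theorem Rs.sum {ι : Type} (s : Finset ι) {v : ι → VF L} {w : ι → VF k}
    (h : ∀ i ∈ s, P.Rs (v i) (w i)) : P.Rs (∑ i ∈ s, v i) (∑ i ∈ s, w i) := by
  classical
  induction s using Finset.induction_on with
  | empty => simpa using Rs.zero
  | insert a s ha ih =>
    rw [sum_insert ha, sum_insert ha]
    exact (h a (mem_insert_self a s)).add (ih fun i hi => h i (mem_insert_of_mem hi))

theorem Rs.dlog {v : VF L} {w : VF k} (h : P.Rs v w) {u : L} (h0 : u ≠ 0) (hu : P.o.v u = 0) :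
    P.π (v u / u) = w (P.π u) / P.π u := by
  rw [π_div (h.ap (Or.inr hu.ge)) h0 hu, h.2 u (Or.inr hu.ge)]

variable {d : Dv L} {e : Dv k}

/-- A field with zero restriction has a divergence that vanishes on the place. -/
theorem δ_Rs_zero (hd : Exp d P.o 0) {x : L} (hx : P.o.v x = 1) {v : VF L} (hv : P.Rs v 0) :
    d.δ v ∈ P.o.F 1 := by
  obtain ⟨θ, h1, h2⟩ := hd.eul
  have hθ : Eul P.o θ := h1
  rw [map_zero, sub_zero] at h2
  have hx0 : x ≠ 0 := fun h => by simp [h, P.o.zero] at hx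
  have hc := LV_dlog hv.1 x
  have h3 : v - (v x / x) • θ ∈ LV P.o 1 := LV_of hx
    (fun g hg => sub_mem ((Rs_zero_iff.1 hv).2 g hg) (F_mul0 hc (hθ.zero hg))) (by
      refine F_of_eq (neg_mem (F_mul0 hc (hθ 1 x (Or.inr hx.ge)))) ?_
      rw [Derivation.sub_apply, Derivation.smul_apply, smul_eq_mul]
      field_simp
      push_cast
      ring)
  have h4 := hd.δ_LV hx h3
  rw [map_sub, d.smul] at h4
  exact F_of_eq (add_mem h4 (add_mem (F_mul0 hc h2) (hθ.zero hc))) (by ring)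

/-- The residue of a volume form of exponent zero. -/
theorem exists_RsD (hd : Exp d P.o 0) {x : L} (hx : P.o.v x = 1) (hl : ∀ w, ∃ v, P.Rs v w) :
    ∃ e, P.RsD d e := by
  choose l hl using hl
  have key : ∀ v w, P.Rs v w → P.π (d.δ v) = P.π (d.δ (l w)) := fun v w h =>
    π_congr (hd.reg _ (hl w).1) (by
      rw [← map_sub]
      exact δ_Rs_zero hd hx (by simpa using h.sub (hl w)))
  have r := fun w => hd.reg _ (hl w).1
  refine ⟨⟨AddMonoidHom.mk' (fun w => P.π (d.δ (l w))) fun w w' => ?_, fun g w => ?_,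
    fun w w' => ?_⟩, key⟩
  · rw [← key _ _ ((hl w).add (hl w')), map_add, P.add _ (r w) _ (r w')]
  · obtain ⟨g, hg, rfl⟩ := P.surj g
    simp only [AddMonoidHom.mk'_apply]
    rw [← key _ _ ((hl w).smul hg), d.smul, P.add _ (F_mul0 hg (r w)) _ ((hl w).ap hg),
      P.mul _ hg _ (r w), (hl w).2 g hg]
  · simp only [AddMonoidHom.mk'_apply]
    rw [← key _ _ ((hl w).lie (hl w')), d.lie, π_sub ((hl w).ap (r w')) ((hl w').ap (r w)),
      (hl w).2 _ (r w'), (hl w').2 _ (r w)]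

theorem RsD.uniq {e' : Dv k} (h : P.RsD d e) (h' : P.RsD d e') (hl : ∀ w, ∃ v, P.Rs v w) :
    e = e' := Dv.ext' fun w => by
  obtain ⟨v, hv⟩ := hl w
  rw [← h v w hv, h' v w hv]

theorem RsD.tw (h : P.RsD d e) (hd : ∀ v ∈ LV P.o 0, d.δ v ∈ P.o.F 0) {u : L} (h0 : u ≠ 0)
    (hu : P.o.v u = 0) (c : ℂ) : P.RsD (d.tw u c) (e.tw (P.π u) c) := fun v w hv => by
  rw [Dv.tw_δ, Dv.tw_δ, P.add _ (hd v hv.1) _ (F_mul0 (cst_F _ c) (LV_dlog hv.1 u)),
    P.mul _ (cst_F _ c) _ (LV_dlog hv.1 u), P.π_cst, hv.dlog h0 hu, h v w hv]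

theorem Rs.B (he : P.RsD d e) (hd : ∀ v ∈ LV P.o 0, d.δ v ∈ P.o.F 0) {X Y : VF L} {X' Y' : VF k}
    (hX : P.Rs X X') (hY : P.Rs Y Y') : P.Rs (d.B X Y) (e.B X' Y') := by
  rw [Dv.B, Dv.B, ← he X X' hX, ← he Y Y' hY]
  exact ((hX.lie hY).add (hY.smul (hd X hX.1))).sub (hX.smul (hd Y hY.1))

/-- Exact fields lift to exact fields. -/
theorem Ex_lift (he : P.RsD d e) (hd : ∀ v ∈ LV P.o 0, d.δ v ∈ P.o.F 0)
    (hl : ∀ w, ∃ v, P.Rs v w) {w : VF k} (hw : w ∈ e.Ex) : ∃ u ∈ d.Ex, P.Rs u w := by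
  refine e.Ex_ind (p := fun w => ∃ u ∈ d.Ex, P.Rs u w) (fun X Y => ?_)
    ⟨0, zero_mem _, Rs.zero⟩ ?_ hw
  · obtain ⟨X', hX⟩ := hl X
    obtain ⟨Y', hY⟩ := hl Y
    exact ⟨_, d.B_mem X' Y', Rs.B he hd hX hY⟩
  · rintro _ _ ⟨u, hu, h⟩ ⟨u', hu', h'⟩
    exact ⟨u + u', add_mem hu hu', h.add h'⟩

theorem Res.δ (he : P.RsD d e) {v : VF L} {w : VF k} (h : P.Res d v w) :
    e.δ w = P.π (d.δ v) := by
  obtain ⟨u, hu, h⟩ := h
  rw [← he _ _ h, map_sub, d.δ_Ex hu, sub_zero]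

theorem Res.congr {v v' : VF L} {w : VF k} (h : P.Res d v w) (hv : v - v' ∈ d.Ex) :
    P.Res d v' w := by
  obtain ⟨u, hu, h⟩ := h
  refine ⟨u - (v - v'), sub_mem hu hv, ?_⟩
  rwa [show v' - (u - (v - v')) = v - u by abel]

theorem Res.congr' (he : P.RsD d e) (hd : ∀ v ∈ LV P.o 0, d.δ v ∈ P.o.F 0)
    (hl : ∀ w, ∃ v, P.Rs v w) {v : VF L} {w w' : VF k} (h : P.Res d v w) (hw : w - w' ∈ e.Ex) :
    P.Res d v w' := by
  obtain ⟨u, hu, h⟩ := h
  obtain ⟨u', hu', h'⟩ := Ex_lift he hd hl hw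
  refine ⟨u + u', add_mem hu hu', ?_⟩
  have := h.sub h'
  rwa [sub_sub_cancel, sub_sub] at this

/-- A field whose divergence is regular has a residue. -/
theorem exists_Res (hd : Exp d P.o 0) {v : VF L} (hv : d.δ v ∈ P.o.F 0) : ∃ w, P.Res d v w := by
  obtain ⟨u, hu, h⟩ := hd.red0 hv fun j hj => Co.ne_of_lt (by simp) hj
  obtain ⟨w, hw⟩ := exists_Rs h
  exact ⟨w, u, hu, hw⟩

/-- A regular divergence restricts to a divergence. -/
theorem flag (hd : Exp d P.o 0) (he : P.RsD d e) {v : VF L} (hv : d.δ v ∈ P.o.F 0) :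
    ∃ w, P.π (d.δ v) = e.δ w := by
  obtain ⟨w, hw⟩ := exists_Res hd hv
  exact ⟨w, (hw.δ he).symm⟩

variable {C : Co L (n + 1)} {i : Fin (n + 1)} {C' : Co k n}

/-- The residues of the coordinates are coordinates. -/
theorem exists_RsC (h : C.At P.o i)
    (hs : ∀ w : VF k, (∀ j, w (P.π (C.z (i.succAbove j))) = 0) → w = 0) :
    ∃ C' : Co k n, P.RsC C i C' := by
  choose D hD using fun j => exists_Rs (P := P) (h.D_LV (i.succAbove_ne j))
  refine ⟨⟨fun j => P.π (C.z (i.succAbove j)), D, fun j => π_ne (C.ne _)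
    (h.vz' (i.succAbove_ne j)), fun j l => ?_, hs⟩, fun _ => rfl⟩
  rw [← (hD j).2 _ (h.z_F _), C.dual]
  by_cases hj : j = l
  · simp [hj, P.π_one]
  · simp [hj, P.π_zero]

theorem RsC.D (hC : P.RsC C i C') (h : C.At P.o i) (j : Fin n) :
    P.Rs (C.D (i.succAbove j)) (C'.D j) := by
  obtain ⟨w, hw⟩ := exists_Rs (P := P) (h.D_LV (i.succAbove_ne j))
  have : w = C'.D j := sub_eq_zero.1 (C'.span _ fun l => by
    rw [Derivation.sub_apply, C'.dual, hC l, ← hw.2 _ (h.z_F _), C.dual]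
    by_cases hj : j = l
    · simp [hj, P.π_one]
    · simp [hj, P.π_zero])
  exact this ▸ hw

theorem RsC.th (hC : P.RsC C i C') (h : C.At P.o i) (j : Fin n) :
    P.Rs (C.th (i.succAbove j)) (C'.th j) := by
  rw [Co.th, Co.th, hC j]
  exact (hC.D h j).smul (h.z_F _)

theorem RsC.lift (hC : P.RsC C i C') (h : C.At P.o i) (w : VF k) : ∃ v, P.Rs v w := by
  choose l hl hπ using P.surj
  refine ⟨∑ j, l (w (C'.z j)) • C.D (i.succAbove j), ?_⟩
  conv_rhs => rw [C'.exp w]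
  exact Rs.sum _ fun j _ => by simpa only [hπ] using (hC.D h j).smul (hl (w (C'.z j)))

theorem RsC.mon (hC : P.RsC C i C') (h : C.At P.o i) {c : Fin (n + 1) → ℤ} (hc : c i = 0) :
    P.π (C.mon c) = C'.mon fun j => c (i.succAbove j) := by
  have key : ∀ s : Finset (Fin n), (∏ j ∈ s, C.z (i.succAbove j) ^ c (i.succAbove j)) ∈ P.o.F 0 ∧
      P.π (∏ j ∈ s, C.z (i.succAbove j) ^ c (i.succAbove j)) =
        ∏ j ∈ s, C'.z j ^ c (i.succAbove j) := fun s => by
    induction s using Finset.induction_on with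
    | empty => exact ⟨by simpa using one_F, by simpa using P.π_one⟩
    | insert a s ha ih =>
      have hv := h.vz' (i.succAbove_ne a)
      have h1 : C.z (i.succAbove a) ^ c (i.succAbove a) ∈ P.o.F 0 :=
        Or.inr (by rw [v_zpow _ (C.ne _), hv, mul_zero])
      rw [prod_insert ha, prod_insert ha]
      exact ⟨F_mul0 h1 ih.1, by rw [P.mul _ h1 _ ih.1, ih.2, π_zpow (C.ne _) hv, hC a]⟩
  rw [Co.mon, Fin.prod_univ_succAbove _ i, hc, zpow_zero, one_mul]
  exact (key univ).2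

/-- The restriction of an exact logarithmic field is exact. -/
theorem Rs.ex (hC : P.RsC C i C') (h : C.At P.o i) (hd : Exp d P.o 0) (he : P.RsD d e)
    {u : VF L} {w : VF k} (hu : u ∈ d.Ex) (hw : P.Rs u w) : w ∈ e.Ex := by
  have hθ := h.eul
  have ha := hd.of_eul h.vz hθ
  have hc : ∀ j : ℤ, j < 0 → (j : ℂ) + 0 ≠ 0 := fun j hj => Co.ne_of_lt (by simp) hj
  obtain ⟨E, hE⟩ : ∃ E : Fin (n + 1) → VF L, E = fun j => if j = i then C.th i else C.D j :=
    ⟨_, rfl⟩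
  have hEi : E i = C.th i := by simp [hE]
  have hEj : ∀ j, E (i.succAbove j) = C.D (i.succAbove j) := fun j => by
    simp [hE, i.succAbove_ne j]
  have hcm : ∀ a b g, E a (E b g) = E b (E a g) := fun a b g => by
    by_cases h1 : a = i <;> by_cases h2 : b = i
    · rw [h1, h2]
    · simp only [hE, h1, h2, if_true, if_false]
      exact C.th_D_comm (Ne.symm h2) g
    · simp only [hE, h1, h2, if_true, if_false]
      exact (C.th_D_comm (Ne.symm h1) g).symm
    · simp only [hE, h1, h2, if_false]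
      exact C.comm a b g
  obtain ⟨H, hH, rfl⟩ := d.Ex_frame E hcm (fun v =>
    ⟨fun j => if j = i then v (C.z i) / C.z i else v (C.z j), by
      conv_lhs => rw [C.exp v]
      refine sum_congr rfl fun j _ => ?_
      by_cases hj : j = i
      · simp only [hE, hj, if_true, Co.th, smul_smul, div_mul_cancel₀ _ (C.ne i)]
      · simp only [hE, hj, if_false]⟩) hu
  choose g hg using fun a b : Fin n => nab_surj hθ ha hc (H (i.succAbove a) (i.succAbove b))
  obtain ⟨τ, hτ⟩ : ∃ τ, τ = algebraMap ℂ L 2⁻¹ := ⟨_, rfl⟩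
  have h2 : τ * 2 = 1 := by
    rw [hτ, ← map_ofNat (algebraMap ℂ L) 2, ← map_mul, inv_mul_cancel₀ two_ne_zero, map_one]
  obtain ⟨g', hg'⟩ : ∃ g' : Fin n → Fin n → L, g' = fun a b => τ * (g a b - g b a) := ⟨_, rfl⟩
  obtain ⟨H', hH'⟩ : ∃ H' : Fin n → Fin n → L, H' = fun a b =>
    H (i.succAbove a) (i.succAbove b) - d.δ (g' a b • C.th i) := ⟨_, rfl⟩
  have e1 : ∀ a b, H' a b = τ * ((H (i.succAbove a) (i.succAbove b) - d.δ (g a b • C.th i)) -
      (H (i.succAbove b) (i.succAbove a) - d.δ (g b a • C.th i))) := fun a b => by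
    simp only [hH', hg']
    rw [mul_smul, hτ, d.δ_cst, ← hτ, sub_smul, map_sub, hH (i.succAbove b)]
    linear_combination -H (i.succAbove a) (i.succAbove b) * h2
  have m1 : ∀ a b, H' a b ∈ P.o.F 0 := fun a b => by
    rw [e1, hτ]
    exact F_mul0 (cst_F _ _) (sub_mem (hg a b) (hg b a))
  have a1 : ∀ a b, H' a b = -H' b a := fun a b => by
    rw [e1, e1]
    ring
  have r1 : ∀ a b, P.Rs (H' a b • C.D (i.succAbove a)) (P.π (H' a b) • C'.D a) := fun a b =>
    (hC.D h a).smul (m1 a b)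
  have key : ∀ b, w (C'.z b) = ∑ a, e.δ (P.π (H' a b) • C'.D a) := fun b => by
    have e2 : (∑ j, (∑ a, d.δ (H a j • E a)) • E j) (C.z (i.succAbove b)) =
        d.δ ((H i (i.succAbove b) + ∑ a, d.δ (g' a b • C.D (i.succAbove a))) • C.th i) +
        ∑ a, d.δ (H' a b • C.D (i.succAbove a)) := by
      rw [sum_ap, Fin.sum_univ_succAbove _ i, Derivation.smul_apply, hEi, C.th_z,
        if_neg (i.succAbove_ne b).symm, smul_zero, zero_add, sum_eq_single b]
      · rw [hEj, Derivation.smul_apply, C.dual, if_pos rfl, smul_eq_mul, mul_one,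
          Fin.sum_univ_succAbove _ i, hEi, add_smul, map_add, add_assoc, sum_smul, map_sum,
          ← sum_add_distrib]
        congr 1
        refine sum_congr rfl fun a _ => ?_
        rw [hEj, ← d.nab_comm _ _ _ (C.th_D_comm (i.succAbove_ne a).symm), ← map_add, ← add_smul,
          hH', add_sub_cancel]
      · intro j _ hj
        rw [hEj, Derivation.smul_apply, C.dual, if_neg (by simpa using hj), smul_zero]
      · simp
    have m2 : ∑ a, d.δ (H' a b • C.D (i.succAbove a)) ∈ P.o.F 0 :=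
      sum_mem fun a _ => hd.reg _ (r1 a b).1
    have m3 := hw.ap (h.z_F (i.succAbove b))
    have m4 := sub_mem m3 m2
    rw [e2, add_sub_cancel_right] at m4
    have m5 := nab_gr hθ ha (nab_inj hθ ha hc m4)
    rw [hC b, ← hw.2 _ (h.z_F _), e2, π_congr m2 (by simpa using m5),
      π_sum _ fun a _ => hd.reg _ (r1 a b).1]
    exact sum_congr rfl fun a _ => he _ _ (r1 a b)
  rw [C'.exp w]
  simp only [key]
  exact e.frame_mem C'.D C'.comm _ fun a b => by rw [a1, π_neg (m1 b a)]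

/-- The residue is unique modulo exact fields. -/
theorem Res.uniq (hC : P.RsC C i C') (h : C.At P.o i) (hd : Exp d P.o 0) (he : P.RsD d e)
    {v : VF L} {w w' : VF k} (hw : P.Res d v w) (hw' : P.Res d v w') : w - w' ∈ e.Ex := by
  obtain ⟨u, hu, h1⟩ := hw
  obtain ⟨u', hu', h2⟩ := hw'
  refine Rs.ex hC h hd he (sub_mem hu' hu) ?_
  simpa only [sub_sub_sub_cancel_left] using h1.sub h2

end Pl

/-- On a curve there are no exact fields. -/
theorem Ex_one (C : Co k 1) (e : Dv k) {w : VF k} (hw : w ∈ e.Ex) : w = 0 := by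
  obtain ⟨H, hH, rfl⟩ := e.Ex_frame C.D C.comm (fun v => ⟨_, C.exp v⟩) hw
  have : CharZero k := charZero_of_injective_algebraMap (algebraMap ℂ k).injective
  have : H 0 0 = 0 := by simpa using (eq_neg_iff_add_eq_zero.1 (hH 0 0))
  simp [this]

end Pool.Agent.MP_ee8c61_ag.M3RESID
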