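import Pool.Agent.MP_ee8c61_ag.M3RESID.Defs

/-!
Algebra of exact fields, twists, frames and the change of coordinates.
-/

namespace Pool.Agent.MP_ee8c61_ag.M3RESID

open M3 Finset

variable {L : Type} [Field L] [Algebra ℂ L] {n : ℕ}

namespace Dv

variable (d : Dv L)

theorem B_apply (X Y : VF L) (g : L) :
    d.B X Y g = X (Y g) - Y (X g) + d.δ X * Y g - d.δ Y * X g := by
  simp [B, Derivation.commutator_apply]

theorem B_smul (h : L) (X Y : VF L) : d.B (h • X) Y = d.B X (h • Y) := by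
  ext g
  simp only [B_apply, d.smul, Derivation.smul_apply, smul_eq_mul, Derivation.leibniz]
  ring

theorem B_anti (X Y : VF L) : d.B X Y = -d.B Y X := by
  ext g
  simp only [B_apply, Derivation.neg_apply]
  ring

theorem B_add (X X' Y : VF L) : d.B (X + X') Y = d.B X Y + d.B X' Y := by
  ext g
  simp only [B_apply, Derivation.add_apply, map_add]
  ring

theorem B_add' (X Y Y' : VF L) : d.B X (Y + Y') = d.B X Y + d.B X Y' := by
  ext g
  simp only [B_apply, Derivation.add_apply, map_add]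
  ring

theorem B_zero (Y : VF L) : d.B 0 Y = 0 := by
  ext g
  simp [B_apply]

theorem B_zero' (Y : VF L) : d.B Y 0 = 0 := by
  ext g
  simp [B_apply]

theorem B_sum {ι : Type} (s : Finset ι) (X : ι → VF L) (Y : VF L) :
    d.B (∑ i ∈ s, X i) Y = ∑ i ∈ s, d.B (X i) Y := by
  classical
  induction s using Finset.induction_on with
  | empty => simp [B_zero]
  | insert a s ha ih => rw [sum_insert ha, sum_insert ha, B_add, ih]

theorem B_sum' {ι : Type} (s : Finset ι) (X : VF L) (Y : ι → VF L) :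
    d.B X (∑ i ∈ s, Y i) = ∑ i ∈ s, d.B X (Y i) := by
  classical
  induction s using Finset.induction_on with
  | empty => simp [B_zero']
  | insert a s ha ih => rw [sum_insert ha, sum_insert ha, B_add', ih]

theorem δ_cst (c : ℂ) (v : VF L) : d.δ (algebraMap ℂ L c • v) = algebraMap ℂ L c * d.δ v := by
  rw [d.smul, Derivation.map_algebraMap, add_zero]

theorem B_cst (c : ℂ) (X Y : VF L) :
    d.B (algebraMap ℂ L c • X) Y = algebraMap ℂ L c • d.B X Y := by
  ext g
  simp only [B_apply, d.δ_cst, Derivation.smul_apply, smul_eq_mul, Derivation.leibniz,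
    Derivation.map_algebraMap]
  ring

theorem δ_B (X Y : VF L) : d.δ (d.B X Y) = 0 := by
  simp only [B, map_sub, map_add, d.lie, d.smul]
  ring

theorem B_mem (X Y : VF L) : d.B X Y ∈ d.Ex := AddSubgroup.subset_closure ⟨X, Y, rfl⟩

theorem Ex_ind {p : VF L → Prop} (hB : ∀ X Y, p (d.B X Y)) (h0 : p 0)
    (ha : ∀ u v, p u → p v → p (u + v)) {u : VF L} (hu : u ∈ d.Ex) : p u := by
  have : p u ∧ p (-u) := by
    induction hu using AddSubgroup.closure_induction with
    | mem x hx =>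
      obtain ⟨X, Y, rfl⟩ := hx
      exact ⟨hB X Y, by rw [← d.B_anti]; exact hB Y X⟩
    | zero => exact ⟨h0, by rwa [neg_zero]⟩
    | add x y _ _ hx hy => exact ⟨ha _ _ hx.1 hy.1, by rw [neg_add]; exact ha _ _ hx.2 hy.2⟩
    | neg x _ hx => exact ⟨hx.2, by rw [neg_neg]; exact hx.1⟩
  exact this.1

theorem δ_Ex {u : VF L} (hu : u ∈ d.Ex) : d.δ u = 0 :=
  d.Ex_ind (p := fun u => d.δ u = 0) d.δ_B (map_zero _)
    (fun u v hu hv => by rw [map_add, hu, hv, add_zero]) hu

theorem cst_mem (c : ℂ) {u : VF L} (hu : u ∈ d.Ex) : algebraMap ℂ L c • u ∈ d.Ex :=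
  d.Ex_ind (p := fun u => algebraMap ℂ L c • u ∈ d.Ex)
    (fun X Y => by rw [← B_cst]; exact d.B_mem _ _) (by rw [smul_zero]; exact zero_mem _)
    (fun u v hu hv => by rw [smul_add]; exact add_mem hu hv) hu

theorem tw_δ (g : L) (c : ℂ) (v : VF L) :
    (d.tw g c).δ v = d.δ v + algebraMap ℂ L c * (v g / g) := by
  change d.δ v + c • (v g / g) = _
  rw [Algebra.smul_def]

theorem ext' {d d' : Dv L} (h : ∀ v, d.δ v = d'.δ v) : d = d' := by
  obtain ⟨δ, _, _⟩ := d
  obtain ⟨δ', _, _⟩ := d'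
  have : δ = δ' := AddMonoidHom.ext h
  subst this
  rfl

theorem zpow_der (v : VF L) (x : L) (hx : x ≠ 0) (a : ℤ) :
    v (x ^ a) = (a : L) * x ^ a * (v x / x) := by
  rw [Derivation.leibniz_zpow, zpow_sub₀ hx]
  simp only [zsmul_eq_mul, smul_eq_mul, zpow_one]
  ring

/-- Dividing the volume form by `x ^ a` multiplies the fields by `x ^ a`. -/
theorem tw_δ_smul (x : L) (hx : x ≠ 0) (a : ℤ) (v : VF L) :
    (d.tw x (-a)).δ (x ^ a • v) = x ^ a * d.δ v := by
  rw [tw_δ, d.smul, zpow_der v x hx, Derivation.smul_apply]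
  simp only [map_neg, map_intCast, smul_eq_mul]
  ring

theorem tw_B (x : L) (hx : x ≠ 0) (a : ℤ) (X Y : VF L) :
    (d.tw x (-a)).B (x ^ a • X) Y = x ^ a • d.B X Y := by
  ext g
  rw [B_apply, tw_δ_smul d x hx, tw_δ]
  simp only [B_apply, Derivation.smul_apply, smul_eq_mul, Derivation.leibniz, zpow_der Y x hx,
    map_neg, map_intCast]
  ring

theorem tw_mem (x : L) (hx : x ≠ 0) (a : ℤ) {u : VF L} (hu : u ∈ d.Ex) :
    x ^ a • u ∈ (d.tw x (-a)).Ex :=
  d.Ex_ind (p := fun u => x ^ a • u ∈ (d.tw x (-a)).Ex)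
    (fun X Y => by rw [← tw_B d x hx]; exact B_mem _ _ _) (by rw [smul_zero]; exact zero_mem _)
    (fun u v hu hv => by rw [smul_add]; exact add_mem hu hv) hu

theorem tw_tw (x : L) (c c' : ℂ) : (d.tw x c).tw x c' = d.tw x (c + c') :=
  ext' fun v => by
    simp only [tw_δ, map_add]
    ring

theorem tw_zero (x : L) : d.tw x 0 = d := ext' fun v => by simp [tw_δ]

/-- The companion of an exact field for the derivative of `d.tw f s` in `s`. -/
theorem δ_sec (f : L) (hf : f ≠ 0) (X Y : VF L) :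
    d.δ ((X f / f) • Y - (Y f / f) • X) + d.B X Y f / f = 0 := by
  simp only [map_sub, d.smul, B_apply, Derivation.leibniz_div, smul_eq_mul]
  field_simp
  ring

/-- The operator `h ↦ δ (h • X)`. -/
theorem B_frame (X Y : VF L) (h : L) (hc : ∀ g, X (Y g) = Y (X g)) :
    d.B (h • X) Y = d.δ (h • X) • Y - d.δ (h • Y) • X := by
  ext g
  simp only [B_apply, d.smul, Derivation.smul_apply, smul_eq_mul, Derivation.leibniz,
    Derivation.sub_apply, hc]
  ring

theorem nab_comm (X Y : VF L) (h : L) (hc : ∀ g, X (Y g) = Y (X g)) :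
    d.δ (d.δ (h • X) • Y) = d.δ (d.δ (h • Y) • X) := by
  have := d.δ_B (h • X) Y
  rwa [d.B_frame X Y h hc, map_sub, sub_eq_zero] at this

/-- Exact fields in a commuting frame. -/
theorem Ex_frame (e : Fin n → VF L) (hc : ∀ i j g, e i (e j g) = e j (e i g))
    (hs : ∀ v : VF L, ∃ c : Fin n → L, v = ∑ i, c i • e i) {u : VF L} (hu : u ∈ d.Ex) :
    ∃ H : Fin n → Fin n → L, (∀ i j, H i j = -H j i) ∧
      u = ∑ j, (∑ i, d.δ (H i j • e i)) • e j := by
  refine d.Ex_ind (p := fun u => ∃ H : Fin n → Fin n → L, (∀ i j, H i j = -H j i) ∧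
      u = ∑ j, (∑ i, d.δ (H i j • e i)) • e j) (fun X Y => ?_) ⟨0, by simp, by simp⟩ ?_ hu
  · obtain ⟨p, rfl⟩ := hs X
    obtain ⟨q, rfl⟩ := hs Y
    refine ⟨fun i j => p i * q j - p j * q i, fun i j => by ring, ?_⟩
    have h : ∀ i j, d.B (p i • e i) (q j • e j) =
        d.δ ((p i * q j) • e i) • e j - d.δ ((p i * q j) • e j) • e i := fun i j => by
      rw [← B_smul, smul_smul, d.B_frame _ _ _ (hc _ _), mul_comm]
    simp only [B_sum, B_sum', h, sub_smul, map_sub, sum_sub_distrib, sum_smul]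
    congr 1
    exact sum_comm
  · rintro _ _ ⟨H, hH, rfl⟩ ⟨H', hH', rfl⟩
    refine ⟨H + H', fun i j => by rw [Pi.add_apply, Pi.add_apply, Pi.add_apply, Pi.add_apply,
      hH, hH', neg_add], ?_⟩
    simp only [Pi.add_apply, add_smul, map_add, sum_add_distrib]

theorem frame_mem (e : Fin n → VF L) (hc : ∀ i j g, e i (e j g) = e j (e i g))
    (H : Fin n → Fin n → L) (hH : ∀ i j, H i j = -H j i) :
    ∑ j, (∑ i, d.δ (H i j • e i)) • e j ∈ d.Ex := by
  have h : ∑ j, (∑ i, d.δ (H i j • e i)) • e j =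
      algebraMap ℂ L 2⁻¹ • ∑ j, ∑ i, d.B (H i j • e i) (e j) := by
    have h2 : algebraMap ℂ L 2⁻¹ * 2 = 1 := by
      rw [← map_ofNat (algebraMap ℂ L) 2, ← map_mul, inv_mul_cancel₀ two_ne_zero, map_one]
    simp only [d.B_frame _ _ _ (hc _ _), sum_sub_distrib]
    rw [sum_comm (f := fun j i => d.δ (H i j • e j) • e i)]
    have : ∀ i j, d.δ (H i j • e j) • e i = -(d.δ (H j i • e j) • e i) := fun i j => by
      rw [hH i j, neg_smul, map_neg, neg_smul]
    simp only [this, sum_neg_distrib, sub_neg_eq_add, sum_smul, ← two_smul L, smul_smul, h2,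
      one_smul]
  rw [h]
  exact d.cst_mem _ (sum_mem fun j _ => sum_mem fun i _ => d.B_mem _ _)

end Dv

namespace Co

variable (C : Co L n)

theorem dv_δ (v : VF L) : C.dv.δ v = ∑ i, C.D i (v (C.z i)) := rfl

theorem th_apply (i : Fin n) (g : L) : C.th i g = C.z i * C.D i g := rfl

theorem th_z (i j : Fin n) : C.th i (C.z j) = if i = j then C.z j else 0 := by
  rw [th_apply, C.dual]
  split_ifs with h <;> simp [h]

theorem mon_ne (c : Fin n → ℤ) : C.mon c ≠ 0 :=
  prod_ne_zero_iff.2 fun i _ => zpow_ne_zero _ (C.ne i)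

theorem mon_add (c c' : Fin n → ℤ) : C.mon (c + c') = C.mon c * C.mon c' := by
  simp only [mon, Pi.add_apply, zpow_add₀ (C.ne _), prod_mul_distrib]

theorem mon_zero : C.mon 0 = 1 := by simp [mon]

theorem mon_single (i : Fin n) (m : ℤ) : C.mon (Pi.single i m) = C.z i ^ m := by
  rw [mon, prod_eq_single i]
  · simp
  · intro j _ h
    simp [h]
  · simp

theorem der_mon (v : VF L) (c : Fin n → ℤ) :
    v (C.mon c) = C.mon c * ∑ i, (c i : L) * (v (C.z i) / C.z i) := by
  have h : ∀ s : Finset (Fin n), v (∏ i ∈ s, C.z i ^ c i) =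
      (∏ i ∈ s, C.z i ^ c i) * ∑ i ∈ s, (c i : L) * (v (C.z i) / C.z i) := fun s => by
    induction s using Finset.induction_on with
    | empty => simp
    | insert a s ha ih =>
      rw [prod_insert ha, sum_insert ha, Derivation.leibniz, ih, Dv.zpow_der v _ (C.ne a)]
      simp only [smul_eq_mul]
      ring
  exact h univ

theorem th_mon (i : Fin n) (c : Fin n → ℤ) : C.th i (C.mon c) = (c i : L) * C.mon c := by
  rw [der_mon, sum_eq_single i]
  · rw [th_z, if_pos rfl, div_self (C.ne i)]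
    ring
  · intro j _ h
    rw [th_z, if_neg h.symm]
    simp
  · simp

theorem mon_mem {O : Subalgebra ℂ L} (hz : ∀ i, C.z i ∈ O) {c : Fin n → ℤ} (hc : 0 ≤ c) :
    C.mon c ∈ O :=
  prod_mem fun i _ => by
    obtain ⟨m, hm⟩ := Int.eq_ofNat_of_zero_le (hc i)
    rw [hm, zpow_natCast]
    exact pow_mem (hz i) m

theorem δ_exp (d : Dv L) (v : VF L) :
    d.δ v = ∑ i, (v (C.z i) * d.δ (C.D i) + C.D i (v (C.z i))) := by
  conv_lhs => rw [C.exp v]
  simp only [map_sum, d.smul]

theorem th_comm (i j : Fin n) (g : L) : C.th i (C.th j g) = C.th j (C.th i g) := by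
  simp only [th_apply, Derivation.leibniz, smul_eq_mul, C.dual, C.comm i j]
  by_cases h : i = j
  · subst h
    rfl
  · simp only [h, Ne.symm h, if_false]
    ring

theorem th_D_comm {i j : Fin n} (h : i ≠ j) (g : L) : C.th i (C.D j g) = C.D j (C.th i g) := by
  simp only [th_apply, Derivation.leibniz, smul_eq_mul, C.dual, C.comm i j, h.symm, if_false]
  ring

end Co

end Pool.Agent.MP_ee8c61_ag.M3RESID
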