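import Pool.Agent.MP_ee8c61_ag.M3RESID.Red

/-!
Reduction of the pole order at a discrete valuation, exponents.
-/

namespace Pool.Agent.MP_ee8c61_ag.M3RESID

open M3 Finset

variable {L : Type} [Field L] [Algebra ℂ L] {n : ℕ}

section V

variable (o : DV L)

omit [Algebra ℂ L] in
theorem v_pow {g : L} (hg : g ≠ 0) (m : ℕ) : o.v (g ^ m) = m * o.v g := by
  induction m with
  | zero => simp [o.one]
  | succ m ih =>
    rw [pow_succ, o.mul _ _ (pow_ne_zero _ hg) hg, ih]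
    push_cast
    ring

omit [Algebra ℂ L] in
theorem v_zpow {g : L} (hg : g ≠ 0) (m : ℤ) : o.v (g ^ m) = m * o.v g := by
  obtain ⟨m, rfl | rfl⟩ := Int.eq_nat_or_neg m
  · rw [zpow_natCast, v_pow o hg]
  · rw [zpow_neg, o.inv, zpow_natCast, v_pow o hg, neg_mul]

theorem v_cst (c : ℂ) : o.v (algebraMap ℂ L c) = 0 := by
  by_cases h : c = 0
  · rw [h, map_zero, o.zero]
  obtain ⟨r, hr⟩ := IsAlgClosed.exists_pow_nat_eq c
    (n := (o.v (algebraMap ℂ L c)).natAbs + 1) (Nat.succ_pos _)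
  have hr0 : algebraMap ℂ L r ≠ 0 := by
    rw [Ne, map_eq_zero]
    rintro rfl
    exact h (by rw [← hr, zero_pow (Nat.succ_ne_zero _)])
  have := v_pow o hr0 ((o.v (algebraMap ℂ L c)).natAbs + 1)
  rw [← map_pow, hr] at this
  refine Int.eq_zero_of_dvd_of_natAbs_lt_natAbs ⟨_, this⟩ ?_
  rw [Int.natAbs_natCast]
  exact Nat.lt_succ_self _

theorem cst_F (c : ℂ) : algebraMap ℂ L c ∈ o.F 0 := Or.inr (v_cst o c).ge

variable {o}

omit [Algebra ℂ L] in
theorem F_of_eq {m : ℤ} {g h : L} (hg : g ∈ o.F m) (e : h = g) : h ∈ o.F m := e ▸ hg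

omit [Algebra ℂ L] in
theorem F_mul0 {m : ℤ} {g h : L} (hg : g ∈ o.F 0) (hh : h ∈ o.F m) : g * h ∈ o.F m := by
  simpa using o.F_mul hg hh

omit [Algebra ℂ L] in
theorem F_mul0' {m : ℤ} {g h : L} (hg : g ∈ o.F m) (hh : h ∈ o.F 0) : g * h ∈ o.F m := by
  simpa using o.F_mul hg hh

omit [Algebra ℂ L] in
theorem F_div {m : ℤ} {g : L} (hg : g ∈ o.F m) (x : L) : g / x ∈ o.F (m - o.v x) := by
  rw [div_eq_mul_inv, sub_eq_add_neg, ← o.inv]
  exact o.F_mul hg (o.mem_F_self _)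

omit [Algebra ℂ L] in
theorem one_F : (1 : L) ∈ o.F 0 := Or.inr o.one.ge

theorem int_F (m : ℤ) : (m : L) ∈ o.F 0 := by
  rw [← map_intCast (algebraMap ℂ L)]
  exact cst_F o _

theorem cst_F1 {c : ℂ} (h : algebraMap ℂ L c ∈ o.F 1) : c = 0 := by
  rcases h with h | h
  · exact (map_eq_zero _).1 h
  · rw [v_cst] at h
    omega

theorem mem_LV {c : ℤ} {v : VF L} : v ∈ LV o c ↔ ∀ m, ∀ g ∈ o.F m, v g ∈ o.F (m + c) := Iff.rfl

theorem LV_anti {c c' : ℤ} (h : c ≤ c') : LV o c' ≤ LV o c := fun _ hv m g hg =>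
  o.F_anti (by omega) (hv m g hg)

theorem LV_smul {m c : ℤ} {g : L} {v : VF L} (hg : g ∈ o.F m) (hv : v ∈ LV o c) :
    g • v ∈ LV o (m + c) := fun l h hh => by
  have := o.F_mul hg (hv l h hh)
  rwa [add_left_comm] at this

theorem LV_smul0 {c : ℤ} {g : L} {v : VF L} (hg : g ∈ o.F 0) (hv : v ∈ LV o c) :
    g • v ∈ LV o c := by
  simpa using LV_smul hg hv

theorem LV_dlog {c : ℤ} {v : VF L} (hv : v ∈ LV o c) (f : L) : v f / f ∈ o.F c := by
  simpa using F_div (hv _ f (o.mem_F_self f)) f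

theorem LV_lie {c c' : ℤ} {v u : VF L} (hv : v ∈ LV o c) (hu : u ∈ LV o c') :
    ⁅v, u⁆ ∈ LV o (c + c') := fun m g hg => by
  rw [Derivation.commutator_apply]
  refine sub_mem ?_ ?_
  · have := hv _ _ (hu m g hg)
    rwa [add_assoc, add_comm c'] at this
  · have := hu _ _ (hv m g hg)
    rwa [add_assoc] at this

/-- A criterion on the valuation ring and one uniformizer. -/
theorem LV_of {c : ℤ} {v : VF L} {x : L} (hx : o.v x = 1) (h0 : ∀ g ∈ o.F 0, v g ∈ o.F c)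
    (h1 : v x ∈ o.F (c + 1)) : v ∈ LV o c := fun m g hg => by
  have hx0 : x ≠ 0 := fun h => by simp [h, o.zero] at hx
  have hm : o.v (x ^ m) = m := by rw [v_zpow o hx0, hx, mul_one]
  have hh : g / x ^ m ∈ o.F 0 := by simpa [hm] using F_div hg (x ^ m)
  have hxm : x ^ m ∈ o.F m := Or.inr hm.ge
  rw [← mul_div_cancel₀ g (zpow_ne_zero m hx0), Derivation.leibniz, Dv.zpow_der v x hx0,
    smul_eq_mul, smul_eq_mul]
  refine add_mem (o.F_mul hxm (h0 _ hh)) (F_mul0 hh (o.F_mul (F_mul0 (int_F m) hxm) ?_))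
  simpa [hx] using F_div h1 x

/-- `θ` acts on the graded piece of degree `m` by `m`. -/
def Eul (o : DV L) (θ : VF L) : Prop := ∀ m, ∀ g ∈ o.F m, θ g - (m : L) * g ∈ o.F (m + 1)

theorem Eul.mem {θ : VF L} (h : Eul o θ) : θ ∈ LV o 0 := fun m g hg => by
  rw [add_zero, ← sub_add_cancel (θ g) ((m : L) * g)]
  exact add_mem (o.F_anti (by omega) (h m g hg)) (F_mul0 (int_F m) hg)

theorem Eul.sub {θ θ' : VF L} (h : Eul o θ) (h' : Eul o θ') : θ - θ' ∈ LV o 1 := fun m g hg => by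
  have := sub_mem (h m g hg) (h' m g hg)
  rwa [sub_sub_sub_cancel_right] at this

theorem Eul.zero {θ : VF L} (h : Eul o θ) {g : L} (hg : g ∈ o.F 0) : θ g ∈ o.F 1 := by
  simpa using h 0 g hg

theorem Eul.dlog {θ : VF L} (h : Eul o θ) {f : L} (hf : f ≠ 0) :
    θ f / f - (o.v f : L) ∈ o.F 1 := by
  have := F_div (h _ f (o.mem_F_self f)) f
  rwa [sub_div, mul_div_cancel_right₀ _ hf, add_sub_cancel_left] at this

variable {d : Dv L} {a : ℂ}

theorem Exp.δ_LV (h : Exp d o a) {x : L} (hx : o.v x = 1) {c : ℤ} {v : VF L} (hv : v ∈ LV o c) :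
    d.δ v ∈ o.F c := by
  have hx0 : x ≠ 0 := fun h => by simp [h, o.zero] at hx
  have hm : ∀ m : ℤ, x ^ m ∈ o.F m := fun m => Or.inr (by rw [v_zpow o hx0, hx, mul_one])
  have h0 : x ^ (-c) • v ∈ LV o 0 := by simpa using LV_smul (hm (-c)) hv
  have : v = x ^ c • x ^ (-c) • v := by
    rw [smul_smul, ← zpow_add₀ hx0, add_neg_cancel, zpow_zero, one_smul]
  rw [this, d.smul]
  exact add_mem (F_mul0' (hm c) (h.reg _ h0)) (by simpa using h0 _ _ (hm c))

theorem Exp.of_eul (h : Exp d o a) {x : L} (hx : o.v x = 1) {θ : VF L} (hθ : Eul o θ) :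
    d.δ θ - algebraMap ℂ L a ∈ o.F 1 := by
  obtain ⟨θ', h1, h2⟩ := h.eul
  have := add_mem (h.δ_LV hx (hθ.sub h1)) h2
  rwa [map_sub, sub_add_sub_cancel] at this

theorem Exp.uniq {a' : ℂ} (h : Exp d o a) (h' : Exp d o a') {x : L} (hx : o.v x = 1) : a = a' := by
  obtain ⟨θ, h1, h2⟩ := h.eul
  have := sub_mem (h'.of_eul hx h1) h2
  rw [sub_sub_sub_cancel_left, ← map_sub] at this
  exact sub_eq_zero.1 (cst_F1 this)

theorem Exp.tw (h : Exp d o a) {g : L} (hg : g ≠ 0) (c : ℂ) :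
    Exp (d.tw g c) o (a + c * o.v g) where
  reg v hv := by
    rw [Dv.tw_δ]
    exact add_mem (h.reg v hv) (F_mul0 (cst_F o c) (LV_dlog hv g))
  fin := h.fin
  eul := by
    obtain ⟨θ, h1, h2⟩ := h.eul
    refine ⟨θ, h1, ?_⟩
    have := add_mem h2 (F_mul0 (cst_F o c) (Eul.dlog h1 hg))
    rw [Dv.tw_δ, map_add, map_mul, map_intCast]
    exact F_of_eq this (by ring)

theorem red_stepV {θ : VF L} (hθ : Eul o θ) (ha : d.δ θ - algebraMap ℂ L a ∈ o.F 1) {c : ℤ}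
    {v : VF L} (hv : v ∈ LV o c) (hδ : d.δ v ∈ o.F (c + 1)) :
    algebraMap ℂ L (c + a) • v - d.B θ v ∈ LV o (c + 1) := fun m g hg => by
  have h1 := hθ _ _ (hv m g hg)
  have h2 := hv _ _ (hθ m g hg)
  have h3 := o.F_mul ha (hv m g hg)
  have h4 := o.F_mul hδ (hθ.mem m g hg)
  have e : (algebraMap ℂ L (c + a) • v - d.B θ v) g =
      v (θ g - (m : L) * g) - (θ (v g) - ((m + c : ℤ) : L) * v g) -
        (d.δ θ - algebraMap ℂ L a) * v g + d.δ v * θ g := by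
    simp only [Derivation.sub_apply, Derivation.smul_apply, d.B_apply, map_sub, map_add,
      map_intCast, Derivation.leibniz, Derivation.map_intCast, smul_eq_mul, Int.cast_add]
    ring
  rw [e]
  exact add_mem (sub_mem (sub_mem (o.F_anti (by omega) h2) (o.F_anti (by omega) h1))
    (o.F_anti (by omega) h3)) (o.F_anti (by omega) h4)

/-- Reduction of the pole order at a valuation, with the companion field. -/
theorem Exp.red' (h : Exp d o a) {f : L} (hf : f ≠ 0) {c c' : ℤ} {v : VF L} (hv : v ∈ LV o c)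
    (hδ : d.δ v ∈ o.F c') (hc : ∀ j : ℤ, c ≤ j → j < c' → (j : ℂ) + a ≠ 0) :
    ∃ u ∈ d.Ex, v - u ∈ LV o c' ∧ ∃ u' ∈ LV o c, d.δ u' + u f / f = 0 := by
  obtain ⟨θ, h1, h2⟩ := h.eul
  have key : ∀ (m : ℕ) (e : ℤ), c ≤ e → c' ≤ e + m → ∀ v ∈ LV o e, d.δ v ∈ o.F c' →
      ∃ u ∈ d.Ex, v - u ∈ LV o c' ∧ ∃ u' ∈ LV o c, d.δ u' + u f / f = 0 := by
    have base : ∀ e, c' ≤ e → ∀ v ∈ LV o e,
        ∃ u ∈ d.Ex, v - u ∈ LV o c' ∧ ∃ u' ∈ LV o c, d.δ u' + u f / f = 0 := fun e he v hv =>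
      ⟨0, zero_mem _, by rw [sub_zero]; exact LV_anti he hv, 0, zero_mem _, by simp⟩
    intro m
    induction m with
    | zero => exact fun e _ he v hv _ => base e (by simpa using he) v hv
    | succ m ih =>
      intro e h3 h4 v hv hδ
      by_cases he : c' ≤ e
      · exact base e he v hv
      have hκ := hc e h3 (by omega)
      have st := red_stepV h1 h2 hv (o.F_anti (by omega) hδ)
      obtain ⟨κ, hκe⟩ : ∃ κ, κ = algebraMap ℂ L ((e : ℂ) + a)⁻¹ := ⟨_, rfl⟩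
      have hκO : κ ∈ o.F 0 := hκe ▸ cst_F o _
      have hκ1 : κ * algebraMap ℂ L ((e : ℂ) + a) = 1 := by
        rw [hκe, ← map_mul, inv_mul_cancel₀ hκ, map_one]
      have st' : v - d.B (κ • θ) v ∈ LV o (e + 1) := by
        have := LV_smul0 hκO st
        rwa [smul_sub, smul_smul, hκ1, one_smul, hκe, ← d.B_cst, ← hκe] at this
      obtain ⟨u, hu, h5, u', hu', h6⟩ := ih (e + 1) (by omega) (by push_cast at h4; omega) _ st'
        (by rwa [map_sub, d.δ_B, sub_zero])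
      have hX : κ • θ ∈ LV o 0 := LV_smul0 hκO (Eul.mem h1)
      refine ⟨d.B (κ • θ) v + u, add_mem (d.B_mem _ _) hu, by rwa [← sub_sub],
        (((κ • θ) f / f) • v - (v f / f) • (κ • θ)) + u',
        add_mem (LV_anti h3 (sub_mem (LV_smul0 (LV_dlog hX f) hv) ?_)) hu', ?_⟩
      · simpa using LV_smul (LV_dlog hv f) hX
      · rw [map_add, Derivation.add_apply, add_div]
        linear_combination d.δ_sec f hf (κ • θ) v + h6
  exact key (c' - c).toNat c le_rfl (by omega) v hv hδ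

theorem Exp.red (h : Exp d o a) {c c' : ℤ} {v : VF L} (hv : v ∈ LV o c)
    (hδ : d.δ v ∈ o.F c') (hc : ∀ j : ℤ, c ≤ j → j < c' → (j : ℂ) + a ≠ 0) :
    ∃ u ∈ d.Ex, v - u ∈ LV o c' := by
  obtain ⟨u, hu, h, _⟩ := h.red' one_ne_zero hv hδ hc
  exact ⟨u, hu, h⟩

/-- Every field whose divergence has order at least `c'` is reduced to the lattice `c'` when no
exponent below vanishes. -/
theorem Exp.red0 (h : Exp d o a) {c' : ℤ} {v : VF L} (hδ : d.δ v ∈ o.F c')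
    (hc : ∀ j : ℤ, j < c' → (j : ℂ) + a ≠ 0) : ∃ u ∈ d.Ex, v - u ∈ LV o c' := by
  obtain ⟨c, hv⟩ := h.fin v
  exact h.red hv hδ fun j _ => hc j

/-- The operator `g ↦ δ (g • θ)` on the graded pieces. -/
theorem nab_gr {θ : VF L} (hθ : Eul o θ) (ha : d.δ θ - algebraMap ℂ L a ∈ o.F 1) {m : ℤ} {g : L}
    (hg : g ∈ o.F m) : d.δ (g • θ) - algebraMap ℂ L (m + a) * g ∈ o.F (m + 1) := by
  have := add_mem (o.F_mul hg ha) (hθ m g hg)
  rw [d.smul, map_add, map_intCast]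
  exact F_of_eq this (by ring)

theorem nab_surj {θ : VF L} (hθ : Eul o θ) (ha : d.δ θ - algebraMap ℂ L a ∈ o.F 1) {c : ℤ}
    (hc : ∀ j : ℤ, j < c → (j : ℂ) + a ≠ 0) (h : L) : ∃ g : L, h - d.δ (g • θ) ∈ o.F c := by
  have key : ∀ (m : ℕ), ∀ h ∈ o.F (c - m), ∃ g : L, h - d.δ (g • θ) ∈ o.F c := by
    intro m
    induction m with
    | zero => exact fun h hh => ⟨0, by simpa using hh⟩
    | succ m ih =>
      intro h hh
      have hκ := hc (c - (m + 1 : ℕ)) (by omega)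
      have h1 := nab_gr hθ ha (F_mul0 (cst_F o ((((c - (m + 1 : ℕ) : ℤ) : ℂ) + a)⁻¹)) hh)
      rw [← mul_assoc, ← map_mul, mul_inv_cancel₀ hκ, map_one, one_mul] at h1
      obtain ⟨g, hg⟩ := ih _ (o.F_anti (by omega) (neg_mem h1))
      refine ⟨algebraMap ℂ L ((((c - (m + 1 : ℕ) : ℤ) : ℂ) + a)⁻¹) * h + g, ?_⟩
      rw [add_smul, map_add]
      exact F_of_eq hg (by ring)
  exact key (c - o.v h).toNat h (o.F_anti (by omega) (o.mem_F_self h))

theorem nab_inj {θ : VF L} (hθ : Eul o θ) (ha : d.δ θ - algebraMap ℂ L a ∈ o.F 1) {c : ℤ}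
    (hc : ∀ j : ℤ, j < c → (j : ℂ) + a ≠ 0) {g : L} (h : d.δ (g • θ) ∈ o.F c) : g ∈ o.F c := by
  by_contra hg
  have h0 : g ≠ 0 := fun h => hg (Or.inl h)
  have h1 : o.v g < c := not_le.1 fun h => hg (Or.inr h)
  have h2 := sub_mem (o.F_anti (by omega : o.v g + 1 ≤ c) h) (nab_gr hθ ha (o.mem_F_self g))
  rw [sub_sub_cancel] at h2
  have h3 := F_mul0 (cst_F o (((o.v g : ℤ) : ℂ) + a)⁻¹) h2
  rw [← mul_assoc, ← map_mul, inv_mul_cancel₀ (hc _ h1), map_one, one_mul] at h3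
  rcases h3 with h3 | h3
  · exact h0 h3
  · omega

end V

namespace Co

variable {C : Co L n} {o : DV L} {i : Fin n} {O : Subalgebra ℂ L} {d : Dv L}

theorem At.vz (h : C.At o i) : o.v (C.z i) = 1 := by simp [h.v]

theorem At.vz' (h : C.At o i) {j : Fin n} (hj : j ≠ i) : o.v (C.z j) = 0 := by simp [h.v, hj]

theorem At.z_F (h : C.At o i) (j : Fin n) : C.z j ∈ o.F 0 := Or.inr (by
  rw [h.v]
  split_ifs <;> simp)

theorem At.v_mon (h : C.At o i) (c : Fin n → ℤ) : o.v (C.mon c) = c i := by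
  have key : ∀ s : Finset (Fin n), o.v (∏ j ∈ s, C.z j ^ c j) = if i ∈ s then c i else 0 := by
    intro s
    induction s using Finset.induction_on with
    | empty => simp [o.one]
    | insert j s hj ih =>
      rw [prod_insert hj, o.mul _ _ (zpow_ne_zero _ (C.ne j))
        (prod_ne_zero_iff.2 fun l _ => zpow_ne_zero _ (C.ne l)), ih, v_zpow o (C.ne j), h.v]
      by_cases hji : j = i
      · subst hji
        simp [hj]
      · simp [hji, Ne.symm hji]
  simpa [mon] using key univ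

theorem At.D_LV (h : C.At o i) {j : Fin n} (hj : j ≠ i) : C.D j ∈ LV o 0 :=
  LV_of h.vz (h.D j) (by simp [C.dual, hj])

theorem At.D_LV' (h : C.At o i) (j : Fin n) : C.D j ∈ LV o (-1) :=
  LV_of h.vz (fun g hg => o.F_anti (by omega) (h.D j g hg)) (by
    rw [C.dual]
    split_ifs
    · exact one_F
    · exact zero_mem _)

theorem At.eul (h : C.At o i) : Eul o (C.th i) := fun m g hg => by
  have hx0 := C.ne i
  have hm : o.v (C.z i ^ m) = m := by rw [v_zpow o hx0, h.vz, mul_one]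
  have hh : g / C.z i ^ m ∈ o.F 0 := by simpa [hm] using F_div hg (C.z i ^ m)
  have hxm : C.z i ^ m ∈ o.F m := Or.inr hm.ge
  have e : C.th i g - (m : L) * g = C.z i ^ m * (C.z i * C.D i (g / C.z i ^ m)) := by
    obtain ⟨p, rfl⟩ : ∃ p, g = C.z i ^ m * p := ⟨_, (mul_div_cancel₀ g (zpow_ne_zero m hx0)).symm⟩
    rw [mul_div_cancel_left₀ _ (zpow_ne_zero m hx0), Derivation.leibniz, Dv.zpow_der _ _ hx0,
      C.th_z, if_pos rfl, div_self hx0, th_apply, smul_eq_mul, smul_eq_mul]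
    ring
  rw [e]
  exact o.F_mul hxm (F_mul0' (Or.inr h.vz.ge) (h.D i _ hh))

theorem At.mem_LV (h : C.At o i) {c : ℤ} {v : VF L} :
    v ∈ LV o c ↔ v (C.z i) ∈ o.F (c + 1) ∧ ∀ j ≠ i, v (C.z j) ∈ o.F c := by
  refine ⟨fun hv => ⟨?_, fun j _ => ?_⟩, fun hv => ?_⟩
  · rw [add_comm]
    exact hv 1 _ (Or.inr h.vz.ge)
  · simpa using hv 0 _ (h.z_F j)
  · rw [C.exp v]
    refine sum_mem fun j _ => ?_
    by_cases hj : j = i
    · subst hj
      simpa using LV_smul hv.1 (h.D_LV' j)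
    · simpa using LV_smul (hv.2 j hj) (h.D_LV hj)

theorem At.exp (h : C.At o i) {a : ℂ} (h1 : d.δ (C.th i) - algebraMap ℂ L a ∈ o.F 1)
    (h2 : ∀ j ≠ i, d.δ (C.D j) ∈ o.F 0) : Exp d o a where
  reg v hv := by
    have hv' := h.mem_LV.1 hv
    rw [exp_th (C := C) v 0, C.mon_zero, one_smul, map_sum]
    refine sum_mem fun j _ => ?_
    by_cases hj : j = i
    · subst hj
      have h3 : v (C.z j) / (C.z j * 1) ∈ o.F 0 := by simpa [h.vz] using F_div hv'.1 (C.z j)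
      rw [d.smul]
      refine add_mem (F_mul0 h3 ?_) (by simpa using h.eul.mem 0 _ h3)
      rw [← sub_add_cancel (d.δ _) (algebraMap ℂ L a)]
      exact add_mem (o.F_anti (by omega) h1) (cst_F o a)
    · rw [th, smul_smul, mul_one, div_mul_cancel₀ _ (C.ne j), d.smul]
      exact add_mem (F_mul0 (hv'.2 j hj) (h2 j hj)) (h.D j _ (hv'.2 j hj))
  fin v := by
    obtain ⟨c, hc⟩ := (Set.finite_range fun j => o.v (v (C.z j))).bddBelow
    refine ⟨c - 1, h.mem_LV.2 ⟨Or.inr ?_, fun j _ => Or.inr ?_⟩⟩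
    · have : c ≤ o.v (v (C.z i)) := hc ⟨i, rfl⟩
      omega
    · have : c ≤ o.v (v (C.z j)) := hc ⟨j, rfl⟩
      omega
  eul := ⟨C.th i, h.eul, h1⟩

theorem Dat.mul_z (h : C.Dat O o i) {g : L} (hg : g / C.z i ∈ O) : g ∈ o.F 1 := by
  rw [← div_mul_cancel₀ g (C.ne i)]
  exact F_mul0 (h.le _ hg) (Or.inr h.adp.vz.ge)

/-- The exponent of a chart is the exponent at the valuation of the coordinate. -/
theorem Dat.exp (h : C.Dat O o i) {a : Fin n → ℂ} (ha : C.Ad O d a) : Exp d o (a i) :=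
  h.adp.exp (h.mul_z (ha i)) fun j hj => by
    have e : d.δ (C.D j) = (d.δ (C.th j) - algebraMap ℂ L (a j)) / C.z j +
        (algebraMap ℂ L (a j) - 1) / C.z j := by
      have := C.ne j
      rw [th, d.smul, C.dual, if_pos rfl]
      field_simp
      ring
    rw [e]
    exact add_mem (h.le _ (ha j))
      (by simpa [h.adp.vz' hj] using F_div (sub_mem (cst_F o (a j)) one_F) (C.z j))

theorem Dat.G_LV (h : C.Dat O o i) {s : Finset (Fin n)} (hi : i ∈ s) {c : Fin n → ℤ} {v : VF L}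
    (hv : v ∈ C.G O s c) : v ∈ LV o (c i) := by
  have hm := C.mon_ne c
  have hc : C.mon c ∈ o.F (c i) := Or.inr (h.adp.v_mon c).ge
  refine h.adp.mem_LV.2 ⟨?_, fun j hj => ?_⟩
  · have := hv i
    rw [if_pos hi] at this
    rw [← div_mul_cancel₀ (v _) (mul_ne_zero (C.ne i) hm), add_comm]
    exact F_mul0 (h.le _ this) (o.F_mul (Or.inr h.adp.vz.ge) hc)
  · have h1 : (if j ∈ s then C.z j else 1) ≠ 0 ∧ (if j ∈ s then C.z j else 1) ∈ o.F 0 := by
      split_ifs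
      · exact ⟨C.ne j, h.adp.z_F j⟩
      · exact ⟨one_ne_zero, one_F⟩
    rw [← div_mul_cancel₀ (v _) (mul_ne_zero h1.1 hm)]
    exact F_mul0 (h.le _ (hv j)) (F_mul0 h1.2 hc)

theorem Dat.F_LV (h : C.Dat O o i) {c : Fin n → ℤ} {v : VF L} (hv : v ∈ C.F O c) :
    v ∈ LV o (c i) := h.G_LV (mem_univ i) (by rwa [G_univ])

end Co

end Pool.Agent.MP_ee8c61_ag.M3RESID
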