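import Pool.Agent.MP_ee8c61_ag.M3RESID.Jac
import Pool.Agent.MP_ee8c61_ag.M3.Defs
import Pool.Agent.MP_ee8c61_ag.H59.RDu

/-!
The charts of a model as coordinates, the functional equation for vector fields.
-/

namespace Pool.Agent.MP_ee8c61_ag.M3RESID

open M3 Finset
open M3B1 (pd)

noncomputable section

section Gen

variable {L k : Type} [Field L] [Algebra ℂ L] [Field k] [Algebra ℂ k] {n : ℕ}

/-- The valuation ring as a subalgebra. -/
def oA (o : DV L) : Subalgebra ℂ L where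
  carrier := o.F 0
  mul_mem' := F_mul0
  add_mem' := add_mem
  algebraMap_mem' := cst_F o

theorem mem_oA {o : DV L} {g : L} : g ∈ oA o ↔ g ∈ o.F 0 := Iff.rfl

/-- The local ring of `A` at the centre of `V`. -/
def lcA (A : Subalgebra ℂ L) (V : ValuationSubring L) : Subalgebra ℂ L where
  carrier := {g | Lc A V g}
  mul_mem' := by
    rintro g h ⟨s, hs, h1, h2⟩ ⟨t, ht, h3, h4⟩
    exact ⟨s * t, mul_mem hs ht, ⟨mul_ne_zero h1.1 h3.1, mul_mem h1.2.1 h3.2.1,
      by rw [mul_inv]; exact mul_mem h1.2.2 h3.2.2⟩, mem_of_eq (mul_mem h2 h4) (by ring)⟩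
  add_mem' := by
    rintro g h ⟨s, hs, h1, h2⟩ ⟨t, ht, h3, h4⟩
    exact ⟨s * t, mul_mem hs ht, ⟨mul_ne_zero h1.1 h3.1, mul_mem h1.2.1 h3.2.1,
      by rw [mul_inv]; exact mul_mem h1.2.2 h3.2.2⟩,
      mem_of_eq (add_mem (mul_mem ht h2) (mul_mem hs h4)) (by ring)⟩
  algebraMap_mem' c := ⟨1, one_mem _, ⟨one_ne_zero, one_mem _, by simp⟩, by simp⟩

theorem mem_lcA {A : Subalgebra ℂ L} {V : ValuationSubring L} {g : L} :
    g ∈ lcA A V ↔ Lc A V g := Iff.rfl

theorem lz_lcA (A : Subalgebra ℂ L) (V : ValuationSubring L) : Lz A (lcA A V) :=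
  ⟨fun g hg => ⟨1, one_mem _, ⟨one_ne_zero, one_mem _, by simp⟩, by simpa using hg⟩,
    fun _ ⟨s, hs, h1, h2⟩ => ⟨s, hs, h1.1,
      ⟨s, hs, h1, by rw [mul_inv_cancel₀ h1.1]; exact one_mem _⟩, h2⟩⟩

theorem lcA_le {A : Subalgebra ℂ L} {V : ValuationSubring L} (h : ∀ g ∈ A, g ∈ V) :
    ∀ g ∈ lcA A V, g ∈ V := fun g ⟨s, _, h1, h2⟩ => by
  have := mul_mem h1.2.2 (h _ h2)
  rwa [inv_mul_cancel_left₀ h1.1] at this

open MP_96693b_ag.RS in
theorem lz_loc {A : Subalgebra ℂ L} {P : Loc L} (h : LocOf A P) : Lz A P.O :=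
  ⟨h.le, fun g hg => by
    obtain ⟨p, hp, q, hq, h1, h2⟩ := h.frac g hg
    refine ⟨q, hq, ?_, P.inv_mem q (h.le hq) h1, by rwa [mul_comm, h2]⟩
    rintro rfl
    exact h1 (by simpa using P.ev_alg 0)⟩

/-- The valuation ring of a prime element is a localisation. -/
theorem lz_oA {A : Subalgebra ℂ L} {o : DV L} {x : L} (hx : o.v x = 1)
    (hf : ∀ g, ∃ s ∈ A, s ≠ 0 ∧ s * g ∈ A) (le : ∀ g ∈ A, g ∈ o.F 0)
    (dv : ∀ g ∈ A, g ∈ o.F 1 → g / x ∈ A) : Lz A (oA o) := by
  have hx0 : x ≠ 0 := fun h => by simp [h, o.zero] at hx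
  have key : ∀ (m : ℕ), ∀ g ∈ A, g ∈ o.F m → g / x ^ m ∈ A := fun m => by
    induction m with
    | zero => exact fun g hg _ => by simpa using hg
    | succ m ih =>
      intro g hg h1
      have h2 := ih g hg (o.F_anti (by omega) h1)
      have h3 := F_div h1 (x ^ m)
      rw [v_pow o hx0, hx, mul_one] at h3
      have := dv _ h2 (by simpa using h3)
      rwa [div_div, ← pow_succ] at this
  refine ⟨le, fun g hg => ?_⟩
  obtain ⟨s, hs, h0, h1⟩ := hf g
  obtain ⟨m, hm⟩ := Int.eq_ofNat_of_zero_le ((le s hs).resolve_left h0)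
  have hs' : s ∈ o.F m := Or.inr hm.ge
  refine ⟨s / x ^ m, key m s hs hs', div_ne_zero h0 (pow_ne_zero _ hx0), ?_, ?_⟩
  · refine Or.inr ?_
    rw [o.inv, div_eq_mul_inv, o.mul _ _ h0 (inv_ne_zero (pow_ne_zero _ hx0)), o.inv,
      v_pow o hx0, hx, hm]
    simp
  · rw [div_mul_eq_mul_div]
    exact key m _ h1 (F_mul0' hs' hg)

/-- A coordinate that is a prime element of a stable ring. -/
theorem Co.dat_of {C : Co L n} {A : Subalgebra ℂ L} {o : DV L} {i : Fin n} (hS : C.St A)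
    (hx : o.v (C.z i) = 1) (hf : ∀ g, ∃ s ∈ A, s ≠ 0 ∧ s * g ∈ A) (le : ∀ g ∈ A, g ∈ o.F 0)
    (dv : ∀ g ∈ A, g ∈ o.F 1 → g / C.z i ∈ A) : C.Dat A o i := by
  have hD := (hS.lz (lz_oA hx hf le dv)).D
  refine ⟨⟨cst_F o, fun j => ?_, hD⟩, le, dv⟩
  split_ifs with h
  · rw [h, hx]
  have h0 := (le _ (hS.z j)).resolve_left (C.ne j)
  by_contra h1
  have h2 := dv _ (hS.z j) (Or.inr (by omega))
  have h3 := C.dual j j
  rw [if_pos rfl, ← mul_div_cancel₀ (C.z j) (C.ne i), Derivation.leibniz, C.dual, if_neg h,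
    smul_zero, add_zero, smul_eq_mul] at h3
  have h4 := F_mul0' (Or.inr hx.ge : C.z i ∈ o.F 1) (le _ (hS.D j _ h2))
  rw [h3] at h4
  exact one_ne_zero (cst_F1 (L := L) (o := o) (c := 1) (by simpa using h4))

/-- A finitely generated field is finite over the field of its coordinates. -/
theorem Co.fin (C : Co k n) (h : (⊤ : IntermediateField ℂ k).FG) :
    FiniteDimensional (IntermediateField.adjoin ℂ (Set.range C.z)) k := by
  obtain ⟨F, hF⟩ : ∃ F, F = IntermediateField.adjoin ℂ (Set.range C.z) := ⟨_, rfl⟩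
  have hz : ∀ i, C.z i ∈ F := fun i => hF ▸ IntermediateField.subset_adjoin _ _ ⟨i, rfl⟩
  rw [← hF]
  have := IntermediateField.fg_top_iff.1 h
  have : Algebra.EssFiniteType F k := .of_comp ℂ F k
  have hD : ∀ D : Derivation F k k, D = 0 := fun D => by
    have := C.span (D.restrictScalars ℂ) fun i => D.map_algebraMap ⟨C.z i, hz i⟩
    exact Derivation.ext fun g => DFunLike.congr_fun this g
  have : Subsingleton (Module.Dual k (KaehlerDifferential F k)) :=
    ⟨fun φ ψ => (KaehlerDifferential.linearMapEquivDerivation F k).injective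
      ((hD _).trans (hD _).symm)⟩
  have : Algebra.FormallyUnramified F k := ⟨(Module.subsingleton_dual_iff k).1 this⟩
  exact Algebra.FormallyUnramified.finite_of_free F k

/-- The residue of the logarithmic volume form of a chart. -/
theorem Pl.RsC.dv {P : Pl L k} {C : Co L (n + 1)} {i : Fin (n + 1)} {C' : Co k n}
    (hC : P.RsC C i C') (h : C.At P.o i) : P.RsD (C.dv.tw (C.z i) (-1)) C'.dv := fun v w hv => by
  have h1 := LV_dlog hv.1 (C.z i)
  have h2 := fun j => hv.ap (h.z_F (i.succAbove j))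
  have e : (C.dv.tw (C.z i) (-1)).δ v - ∑ j, C.D (i.succAbove j) (v (C.z (i.succAbove j))) =
      C.th i (v (C.z i) / C.z i) := by
    rw [Dv.tw_δ, Co.dv_δ, Fin.sum_univ_succAbove _ i, Co.th_apply]
    obtain ⟨c, hc⟩ : ∃ c, v (C.z i) = C.z i * c := ⟨_, (mul_div_cancel₀ _ (C.ne i)).symm⟩
    rw [hc, mul_div_cancel_left₀ _ (C.ne i), Derivation.leibniz, C.dual, if_pos rfl]
    simp only [smul_eq_mul, map_neg, map_one]
    ring
  rw [Pl.π_congr (sum_mem fun j _ => h.D _ _ (h2 j)) (e ▸ h.eul.zero h1),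
    Pl.π_sum _ fun j _ => h.D _ _ (h2 j), Co.dv_δ]
  exact sum_congr rfl fun j _ => by rw [(hC.D h j).2 _ (h2 j), hv.2 _ (h.z_F _), hC j]

theorem Co.At.exp_dv {C : Co L n} {o : DV L} {i : Fin n} (h : C.At o i) : Exp C.dv o 1 :=
  h.exp (by
    have h1 : C.dv.δ (C.th i) = 1 := by
      rw [Co.dv_δ, sum_eq_single i]
      · rw [C.th_z, if_pos rfl, C.dual, if_pos rfl]
      · intro j _ h
        rw [C.th_z, if_neg h.symm, map_zero]
      · simp
    simp [h1]) fun j _ => by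
    have : C.dv.δ (C.D j) = 0 := by
      rw [Co.dv_δ]
      refine sum_eq_zero fun l _ => ?_
      rw [C.dual]
      split_ifs <;> simp
    simp [this]

end Gen

variable {N : ℕ} {f : Po N} {M : Mod N}

theorem R_eq (h : M.OK f) (l : Fin N) : M.S.R l = pd N l :=
  M3B1.der_ext fun j => by
    have := M.S.R_r l j
    rw [h.r] at this
    rw [this, M3B1.pd_X]

/-- The coordinates of a chart. -/
def cht (_ : M.OK f) (b : M.ι) : Co (KK N) N where
  z := M.S.z b
  D := M.S.D b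
  ne i h0 := by simpa [h0] using M.S.D_z b i i
  dual := M.S.D_z b
  span v hv := by
    have h1 : (Matrix.of fun j l => pd N l (M.S.z b j)) *
        (Matrix.of fun l i => M.S.D b i (xx N l)) = 1 := by
      ext j i
      rw [Matrix.mul_apply, Matrix.one_apply]
      simp only [Matrix.of_apply, mul_comm (pd N _ _), xx]
      rw [← M3B1.chain, M.S.D_z]
      simp only [eq_comm]
    have h2 : (Matrix.of fun j l => pd N l (M.S.z b j)).mulVec (fun l => v (xx N l)) = 0 :=
      funext fun j => by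
        simp only [Matrix.mulVec, dotProduct, Matrix.of_apply, mul_comm (pd N _ _), xx]
        rw [← M3B1.chain, hv]
        rfl
    have h3 := congrArg (Matrix.of fun l i => M.S.D b i (xx N l)).mulVec h2
    rw [Matrix.mulVec_mulVec, mul_eq_one_comm.1 h1, Matrix.one_mulVec, Matrix.mulVec_zero] at h3
    exact (co N).span v (congrFun h3)

/-- A vector on the divisors as a vector on the coordinates of a chart. -/
def lf {R : Type} [AddCommMonoid R] (M : Mod N) (b : M.ι) (c : M.J → R) (i : Fin N) : R :=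
  ∑ j, if M.S.lab b j = some i then c j else 0

open Classical in
/-- The coordinates that define divisors. -/
def ls (M : Mod N) (b : M.ι) : Finset (Fin N) := univ.filter fun i => ∃ j, M.S.lab b j = some i

theorem mem_ls {b : M.ι} {i : Fin N} : i ∈ ls M b ↔ ∃ j, M.S.lab b j = some i := by simp [ls]

theorem lf_some {R : Type} [AddCommMonoid R] {b : M.ι} {j : M.J} {i : Fin N}
    (h : M.S.lab b j = some i) (c : M.J → R) : lf M b c i = c j := by
  rw [lf, sum_eq_single j, if_pos h]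
  · exact fun j' _ h' => if_neg fun h2 => h' (M.S.lab_inj b _ _ i h2 h)
  · simp

theorem lf_none {R : Type} [AddCommMonoid R] {b : M.ι} {i : Fin N} (h : i ∉ ls M b)
    (c : M.J → R) : lf M b c i = 0 :=
  sum_eq_zero fun j _ => if_neg fun h2 => h (mem_ls.2 ⟨j, h2⟩)

variable (h : M.OK f) (b : M.ι)

theorem cht_mon (c : M.J → ℤ) : M.mon b c = (cht h b).mon (lf M b c) := by
  have key : ∀ s : Finset M.J, ((∏ j ∈ s, M.S.η b j ^ c j : (KK N)ˣ) : KK N) =
      (cht h b).mon fun i => ∑ j ∈ s, if M.S.lab b j = some i then c j else 0 := fun s => by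
    induction s using Finset.induction_on with
    | empty => simp [Co.mon]
    | insert j s hj ih =>
      simp only [prod_insert hj, sum_insert hj, Units.val_mul, ih, Units.val_zpow_eq_zpow_val]
      rw [← Pi.add_def, Co.mon_add]
      congr 1
      rcases hl : M.S.lab b j with _ | i
      · rw [M.S.η_none b j hl]
        simp [Co.mon]
      · rw [M.S.η_some b j i hl]
        refine ((cht h b).mon_single i (c j)).symm.trans (congrArg _ (funext fun l => ?_))
        simp [Pi.single_apply, eq_comm]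
  exact key univ

theorem cht_st : (cht h b).St (M.S.A b) := ⟨M.S.z_mem b, M.S.D_mem b⟩

theorem cht_f : ∃ U ∈ M.S.A b, U⁻¹ ∈ M.S.A b ∧ U ≠ 0 ∧
    ip N f = U * (cht h b).mon (lf M b M.aa) := by
  obtain ⟨U, hU, e⟩ := h.ord b
  exact ⟨U, hU.1, by simpa using hU.2, U.ne_zero, by rw [e, cht_mon h]⟩

theorem cht_jac : ∃ U ∈ M.S.A b, U⁻¹ ∈ M.S.A b ∧ U ≠ 0 ∧
    (co N).jac (cht h b) = U * (cht h b).mon (lf M b M.kk) := by
  obtain ⟨U, hU, e⟩ := h.det b
  rw [h.r] at e
  exact ⟨U, hU.1, by simpa using hU.2, U.ne_zero, by rw [← cht_mon h, ← e]; rfl⟩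

include h in
theorem f_ne : ip N f ≠ 0 := by
  obtain ⟨b, -⟩ := h.cov ⊤ fun _ => trivial
  obtain ⟨U, -, -, h0, e⟩ := cht_f h b
  exact e ▸ mul_ne_zero h0 (Co.mon_ne _ _)

/-- The exponents of the coordinates of a chart. -/
def cex (M : Mod N) (b : M.ι) (la : ℚ) (i : Fin N) : ℚ :=
  1 + lf M b M.kk i - la * lf M b M.aa i

theorem cex_some {b : M.ι} {j : M.J} {i : Fin N} (h : M.S.lab b j = some i) (la : ℚ) :
    cex M b la i = M.ex la j := by
  rw [cex, lf_some h, lf_some h, Mod.ex, Mod.kk, Mod.aa]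
  push_cast
  ring

theorem cex_none {b : M.ι} {i : Fin N} (h : i ∉ ls M b) (la : ℚ) : cex M b la i = 1 := by
  simp [cex, lf_none h]

theorem cht_ad (la : ℚ) : (cht h b).Ad (M.S.A b) (dvf f la) fun i => cex M b la i := by
  obtain ⟨U, h1, h2, h3, e⟩ := cht_f h b
  obtain ⟨U', h1', h2', h3', e'⟩ := cht_jac h b
  have := ((Co.ad_dv (cht h b) (M.S.A b)).tw (cht_st h b) h1' h2' h3' e' 1).tw (cht_st h b)
    h1 h2 h3 e (-(la : ℂ))
  rw [← Co.dv_jac] at this
  intro i
  refine mem_of_eq (this i) ?_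
  simp only [cex, dvf, Pi.one_apply, one_mul]
  push_cast
  ring_nf

theorem cht_dlog (i : Fin N) :
    ((cht h b).th i (ip N f) / ip N f - algebraMap ℂ _ ((lf M b M.aa i : ℤ) : ℂ)) /
      (cht h b).z i ∈ M.S.A b := by
  obtain ⟨U, h1, h2, h3, e⟩ := cht_f h b
  exact Co.th_dlog (cht_st h b) h1 h2 h3 e i

theorem cht_dlog' (i : Fin N) :
    (if i ∈ ls M b then (cht h b).z i else 1) * (cht h b).D i (ip N f) / ip N f ∈ M.S.A b := by
  obtain ⟨U, h1, h2, h3, e⟩ := cht_f h b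
  exact Co.D_dlog (cht_st h b) h1 h2 h3 e (fun i hi => lf_none hi _) i

include h in
theorem cht_frac (g : KK N) : ∃ s ∈ M.S.A b, s ≠ 0 ∧ s * g ∈ M.S.A b := by
  obtain ⟨p, q, hq, e⟩ := M3B1.frac g
  exact ⟨_, h.pol b q, M3B1.ip_ne hq, e ▸ h.pol b p⟩

variable {b}

theorem lab_of {j : M.J} (hj : (M.η b j)⁻¹ ∉ M.S.A b) : ∃ i, M.S.lab b j = some i := by
  rcases hl : M.S.lab b j with _ | i
  · exact absurd (by simp [Mod.η, M.S.η_none b j hl]) hj
  · exact ⟨i, rfl⟩

theorem cht_dat {j : M.J} {i : Fin N} (hl : M.S.lab b j = some i)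
    (hj : (M.η b j)⁻¹ ∉ M.S.A b) : (cht h b).Dat (M.S.A b) (M.v j) i := by
  obtain ⟨h1, h2, h3⟩ := h.dv b j hj
  have e : M.η b j = (cht h b).z i := M.S.η_some b j i hl
  rw [e] at h2 h3
  exact Co.dat_of (cht_st h b) h2 (cht_frac h b) h1 fun g hg h4 => by
    rw [div_eq_mul_inv]
    exact h3 g hg h4

include h in
/-- The exponent of a divisor of a model. -/
theorem exp_v (la : ℚ) (j : M.J) : Exp (dvf f la) (M.v j) (M.ex la j) := by
  obtain ⟨b, hb⟩ := h.ne j
  obtain ⟨i, hi⟩ := lab_of hb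
  have := (cht_dat h hi hb).exp (cht_ad h b la)
  rwa [cex_some hi] at this

include h in
theorem chart_fg (b : M.ι) : (M.S.A b).FG := by
  have h1 : (M.S.zh b).toRingHom.FiniteType :=
    RingHom.FiniteType.of_finitePresentation
      (RingHom.Etale.iff_flat_and_formallyUnramified.1 (h.et b)).2.2
  have h2 := RingHom.FiniteType.comp h1 (RingHom.finiteType_algebraMap.2
    (inferInstance : Algebra.FiniteType ℂ (MvPolynomial (Fin N) ℂ)))
  have h3 : (M.S.zh b).toRingHom.comp (algebraMap ℂ _) = algebraMap ℂ _ :=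
    (M.S.zh b).comp_algebraMap
  rw [h3] at h2
  exact (Subalgebra.fg_iff_finiteType _).2 (RingHom.finiteType_algebraMap.1 h2)

include h in
/-- Derivations along a homomorphism of a chart ring are determined by the coordinates. -/
theorem chart_der {k : Type} [Field k] [Algebra ℂ k] (φ : M.S.A b →ₐ[ℂ] k) (w : VF k)
    (hw : ∀ i, w (φ ⟨M.S.z b i, M.S.z_mem b i⟩) = 0) (g : M.S.A b) : w (φ g) = 0 := by
  have := H59.rowDu ℂ (KK N) M.ι M.J N M.S b (h.et b) k φ (w.toLinearMap ∘ₗ φ.toLinearMap)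
    (fun g g' => by simp [Derivation.leibniz]) g
  simpa [hw] using this

end

end Pool.Agent.MP_ee8c61_ag.M3RESID
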