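import Pool.Agent.MP_ee8c61_ag.M3RESID.Res

/-!
Change of coordinates, localisation, shifts, restriction of charts to a residue field.
-/

namespace Pool.Agent.MP_ee8c61_ag.M3RESID

open M3 Finset

variable {L k : Type} [Field L] [Algebra ℂ L] [Field k] [Algebra ℂ k] {n : ℕ}

theorem der_prod {ι : Type} [DecidableEq ι] (v : VF L) (s : Finset ι) (g : ι → L) :
    v (∏ i ∈ s, g i) = ∑ i ∈ s, ∏ j ∈ s, Function.update g i (v (g i)) j := by
  induction s using Finset.induction_on with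
  | empty => simp
  | insert a s ha ih =>
    rw [prod_insert ha, Derivation.leibniz, ih, sum_insert ha, prod_insert ha,
      Function.update_self, smul_eq_mul, smul_eq_mul, mul_sum, add_comm, mul_comm]
    congr 1
    · congr 1
      exact prod_congr rfl fun j hj => (Function.update_of_ne (ne_of_mem_of_not_mem hj ha) _ _).symm
    · refine sum_congr rfl fun i hi => ?_
      rw [prod_insert ha, Function.update_of_ne (ne_of_mem_of_not_mem hi ha).symm]

/-- The derivative of a determinant. -/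
theorem der_det (v : VF L) (J E : Matrix (Fin n) (Fin n) L)
    (h : ∀ l i, v (J l i) = ∑ m, E l m * J m i) : v J.det = (∑ l, E l l) * J.det := by
  have h1 : v J.det = ∑ l, (J.updateRow l fun i => v (J l i)).det := by
    rw [← Matrix.det_transpose]
    simp only [← Matrix.det_transpose (J.updateRow _ _), Matrix.det_apply', map_sum,
      Derivation.leibniz, Derivation.map_intCast, mul_zero, add_zero, der_prod, smul_eq_mul,
      mul_sum]
    rw [sum_comm]
    refine sum_congr rfl fun l _ => sum_congr rfl fun σ _ => ?_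
    congr 1
    refine prod_congr rfl fun j _ => ?_
    by_cases hj : j = l
    · subst hj
      simp
    · simp [hj]
  rw [h1, sum_mul]
  refine sum_congr rfl fun l _ => ?_
  have : (fun i => v (J l i)) = ∑ m, E l m • J m := funext fun i => by simp [h]
  rw [this, Matrix.det_updateRow_sum, smul_eq_mul]

theorem mem_of_eq {O : Subalgebra ℂ L} {g h : L} (hg : g ∈ O) (e : h = g) : h ∈ O := e ▸ hg

/-- `O` is a localisation of `A`. -/
structure Lz (A O : Subalgebra ℂ L) : Prop where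
  le : A ≤ O
  frac : ∀ g ∈ O, ∃ s ∈ A, s ≠ 0 ∧ s⁻¹ ∈ O ∧ s * g ∈ A

theorem Lz.der {A O : Subalgebra ℂ L} (h : Lz A O) {v : VF L} (hv : ∀ g ∈ A, v g ∈ O) :
    ∀ g ∈ O, v g ∈ O := fun g hg => by
  obtain ⟨s, hs, h0, h1, h2⟩ := h.frac g hg
  have : v g = s⁻¹ * (v (s * g) - g * v s) := by
    rw [Derivation.leibniz, smul_eq_mul, smul_eq_mul]
    field_simp
    ring
  rw [this]
  exact mul_mem h1 (sub_mem (hv _ h2) (mul_mem hg (hv _ hs)))

namespace Co

variable (C C' : Co L n)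

/-- The Jacobian determinant of the coordinates `C` with respect to `C'`. -/
noncomputable def jac : L := (Matrix.of fun l i => C'.D i (C.z l)).det

theorem jac_mul : (Matrix.of fun j l => C.D l (C'.z j)) * (Matrix.of fun l i => C'.D i (C.z l)) =
    1 := by
  ext j i
  rw [Matrix.mul_apply, Matrix.one_apply]
  simp only [Matrix.of_apply, mul_comm (C.D _ _)]
  rw [← C.exp_apply, C'.dual]
  simp only [eq_comm]

theorem jac_ne : C.jac C' ≠ 0 := fun h => by
  have := congrArg Matrix.det (C.jac_mul C')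
  rw [jac] at h
  rw [Matrix.det_mul, Matrix.det_one, h, mul_zero] at this
  exact zero_ne_one this

theorem dv_jac : C.dv = C'.dv.tw (C.jac C') 1 := Dv.ext' fun v => by
  have h : ∀ i, C.dv.δ (C'.D i) = (C'.dv.tw (C.jac C') 1).δ (C'.D i) := fun i => by
    have h1 := der_det (C'.D i) (Matrix.of fun l i => C'.D i (C.z l))
      (Matrix.of fun l m => C.D m (C'.D i (C.z l))) fun l j => by
        simp only [Matrix.of_apply, mul_comm (C.D _ _)]
        rw [← C.exp_apply, C'.comm]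
    have h2 : C'.dv.δ (C'.D i) = 0 := by
      rw [dv_δ]
      refine sum_eq_zero fun j _ => ?_
      rw [C'.dual]
      split_ifs <;> simp
    change C'.D i (C.jac C') = _ * C.jac C' at h1
    rw [Dv.tw_δ, h2, zero_add, map_one, one_mul, h1, mul_div_cancel_right₀ _ (C.jac_ne C'), dv_δ]
    rfl
  rw [C'.δ_exp C.dv, C'.δ_exp (C'.dv.tw _ _)]
  simp only [h]

variable {C} {O A : Subalgebra ℂ L} {d : Dv L}

theorem ad_dv (C : Co L n) (O : Subalgebra ℂ L) : C.Ad O C.dv 1 := fun i => by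
  have : C.dv.δ (C.th i) = 1 := by
    rw [dv_δ, sum_eq_single i]
    · rw [th_z, if_pos rfl, C.dual, if_pos rfl]
    · intro j _ h
      rw [th_z, if_neg h.symm, map_zero]
    · simp
  simp [this]

theorem th_dlog (hS : C.St O) {g U : L} (hU : U ∈ O) (hU' : U⁻¹ ∈ O) (h0 : U ≠ 0)
    {e : Fin n → ℤ} (hg : g = U * C.mon e) (i : Fin n) :
    (C.th i g / g - algebraMap ℂ L (e i)) / C.z i ∈ O := by
  have := C.mon_ne e
  have := C.ne i
  have h : (C.th i g / g - algebraMap ℂ L (e i)) / C.z i = C.D i U * U⁻¹ := by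
    rw [hg, Derivation.leibniz, C.th_mon, th_apply, map_intCast, smul_eq_mul, smul_eq_mul]
    field_simp
    ring
  rw [h]
  exact mul_mem (hS.D i U hU) hU'

theorem D_dlog (hS : C.St O) {g U : L} (hU : U ∈ O) (hU' : U⁻¹ ∈ O) (h0 : U ≠ 0)
    {e : Fin n → ℤ} (hg : g = U * C.mon e) {s : Finset (Fin n)} (he : ∀ i ∉ s, e i = 0)
    (i : Fin n) : (if i ∈ s then C.z i else 1) * C.D i g / g ∈ O := by
  have h := th_dlog hS hU hU' h0 hg i
  have := C.ne i
  split_ifs with hi
  · rw [← th_apply, ← sub_add_cancel (C.th i g / g) (algebraMap ℂ L (e i)),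
      ← div_mul_cancel₀ (_ - _) this]
    exact add_mem (mul_mem h (hS.z i)) (O.algebraMap_mem _)
  · rw [he i hi, Int.cast_zero, map_zero, sub_zero, th_apply, div_right_comm,
      mul_div_cancel_left₀ _ this] at h
    rwa [one_mul]

theorem Ad.tw (hS : C.St O) {a : Fin n → ℂ} (ha : C.Ad O d a) {g U : L} (hU : U ∈ O)
    (hU' : U⁻¹ ∈ O) (h0 : U ≠ 0) {e : Fin n → ℤ} (hg : g = U * C.mon e) (c : ℂ) :
    C.Ad O (d.tw g c) fun i => a i + c * e i := fun i => by
  have := add_mem (ha i) (mul_mem (O.algebraMap_mem c) (th_dlog hS hU hU' h0 hg i))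
  rw [Dv.tw_δ, map_add, map_mul]
  exact mem_of_eq this (by ring)

theorem Ad.mono {a : Fin n → ℂ} (ha : C.Ad A d a) (h : A ≤ O) : C.Ad O d a := fun i => h (ha i)

theorem St.lz (hS : C.St A) (h : Lz A O) : C.St O :=
  ⟨fun i => h.le (hS.z i), fun i => h.der fun g hg => h.le (hS.D i g hg)⟩

theorem G_mono (h : A ≤ O) (s : Finset (Fin n)) (c : Fin n → ℤ) : C.G A s c ≤ C.G O s c :=
  fun _ hv i => h (hv i)

theorem Dat.lz {o : DV L} {i : Fin n} (h : C.Dat A o i) (hl : Lz A O) (ho : ∀ g ∈ O, g ∈ o.F 0) :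
    C.Dat O o i := ⟨h.adp, ho, fun g hg h1 => by
  obtain ⟨s, hs, h0, h2, h3⟩ := hl.frac g hg
  have := mul_mem h2 (hl.le (h.div _ h3 (F_mul0 (h.le s hs) h1)))
  rwa [mul_div_assoc, inv_mul_cancel_left₀ h0] at this⟩

/-- At an exponent one the divergence of the coordinate field is regular. -/
theorem δ_D {i : Fin n} (ha : (d.δ (C.th i) - algebraMap ℂ L 1) / C.z i ∈ O) :
    d.δ (C.D i) ∈ O := by
  rwa [th, d.smul, C.dual, if_pos rfl, map_one, add_sub_cancel_right,
    mul_div_cancel_left₀ _ (C.ne i)] at ha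

theorem mon_unit (hz : ∀ i, C.z i ∈ O) {c : Fin n → ℤ} (hc : ∀ i, c i = 0 ∨ (C.z i)⁻¹ ∈ O) :
    C.mon c ∈ O := prod_mem fun i _ => by
  rcases hc i with h | h
  · rw [h, zpow_zero]
    exact one_mem _
  · obtain ⟨m, hm | hm⟩ := Int.eq_nat_or_neg (c i)
    · rw [hm, zpow_natCast]
      exact pow_mem (hz i) m
    · rw [hm, zpow_neg, zpow_natCast, ← inv_pow]
      exact pow_mem h m

/-- Coordinates that are units do not matter. -/
theorem G_unit (hz : ∀ i, C.z i ∈ O) {s s' : Finset (Fin n)} {c c' : Fin n → ℤ}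
    (h : ∀ i, (c i = c' i ∧ (i ∈ s ↔ i ∈ s')) ∨ (C.z i)⁻¹ ∈ O) {v : VF L} (hv : v ∈ C.G O s c) :
    v ∈ C.G O s' c' := fun i => by
  have h1 : C.mon (c - c') ∈ O := mon_unit hz fun j => (h j).imp (fun h => sub_eq_zero.2 h.1) id
  have h2 : (if i ∈ s then C.z i else 1) / (if i ∈ s' then C.z i else 1) ∈ O := by
    rcases h i with h | h
    · simp only [h.2]
      rw [div_self (by split_ifs; exacts [C.ne i, one_ne_zero])]
      exact one_mem _
    · rw [div_eq_mul_inv]
      refine mul_mem ?_ ?_ <;> split_ifs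
      exacts [hz i, one_mem _, h, by simp]
  have h3 := C.mon_add c' (c - c')
  rw [add_sub_cancel] at h3
  have h4 := mul_mem (mul_mem (hv i) h1) h2
  have h5 : (if i ∈ s then C.z i else 1) ≠ 0 := by split_ifs; exacts [C.ne i, one_ne_zero]
  have h6 := C.mon_ne (c - c')
  rw [h3] at h4
  refine mem_of_eq h4 ?_
  have h7 := C.mon_ne c'
  generalize (if i ∈ s then C.z i else 1) = p at h5
  generalize (if i ∈ s' then C.z i else 1) = q
  field_simp

/-- The coordinates moved by constants. -/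
def shift (C : Co L n) (t : Fin n → ℂ) : Co L n where
  z i := C.z i - algebraMap ℂ L (t i)
  D := C.D
  ne i h := by simpa [C.dual] using congrArg (C.D i) h
  dual i j := by simp [C.dual]
  span v h := C.span v fun i => by simpa using h i

/-- The reduced form at the generic point of an intersection of two divisors of exponent zero,
together with the equation for the derivative. -/
theorem redT (hS : C.St O) {s : Finset (Fin n)}
    (ha : ∀ i ∈ s, d.δ (C.th i) / C.z i ∈ O) {f : L} (hf0 : f ≠ 0)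
    (hf : ∀ i, (if i ∈ s then C.z i else 1) * C.D i f / f ∈ O) {c : Fin n → ℤ}
    (hc : ∀ i ∉ s, 0 ≤ c i) {b0 b1 : VF L} (h0 : b0 ∈ C.G O s c) (h1 : b1 ∈ C.G O s c)
    (hδ0 : d.δ b0 ∈ O) (hδ1 : d.δ b1 + b0 f / f ∈ O) :
    ∃ u ∈ d.Ex, b0 - u ∈ C.G O s 0 ∧ ∃ X ∈ C.G O s 0,
      d.δ X + (b0 - u) f / f = d.δ b1 + b0 f / f := by
  have ha' : ∀ i ∈ s, (d.δ (C.th i) - algebraMap ℂ L ((0 : Fin n → ℂ) i)) / C.z i ∈ O :=
    fun i hi => by simpa using ha i hi
  have hj : ∀ e : Fin n → ℤ, ∀ i ∈ s, ∀ j : ℤ, e i ≤ j → j < (0 : Fin n → ℤ) i →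
      (j : ℂ) + (0 : Fin n → ℂ) i ≠ 0 := fun e i _ j _ h => ne_of_lt (c := 0) (by simp) h
  obtain ⟨u, hu, h2, u', hu', h3⟩ := red hS ha' hf0 hf h0 (c' := 0)
    (by rwa [C.mon_zero, div_one]) hc (hj _)
  have h4 := G_dlog hf h2
  rw [C.mon_zero, div_one] at h4
  have e1 : d.δ (b1 - u') = d.δ b1 + b0 f / f - (b0 - u) f / f := by
    rw [map_sub, Derivation.sub_apply]
    linear_combination -h3
  obtain ⟨u'', hu'', h5⟩ := redG hS ha' (sub_mem (G_anti hS.z s inf_le_left h1) hu') (c' := 0)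
    (by rw [C.mon_zero, div_one, e1]; exact sub_mem hδ1 h4)
    (fun i hi => le_inf (hc i hi) le_rfl) (hj _)
  exact ⟨u, hu, h2, _, h5, by rw [map_sub, d.δ_Ex hu'', sub_zero, e1, sub_add_cancel]⟩

end Co

namespace Pl

variable {P : Pl L k} {C : Co L (n + 1)} {i : Fin (n + 1)} {C' : Co k n} {O : Subalgebra ℂ L}
  {O' : Subalgebra ℂ k} {d : Dv L} {e : Dv k}

theorem exists_RsO (h : ∀ g ∈ O, g ∈ P.o.F 0) : ∃ O', P.RsO O O' :=
  ⟨{ carrier := {y | ∃ g ∈ O, P.π g = y}
     mul_mem' := by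
      rintro _ _ ⟨g, hg, rfl⟩ ⟨g', hg', rfl⟩
      exact ⟨g * g', mul_mem hg hg', P.mul _ (h _ hg) _ (h _ hg')⟩
     add_mem' := by
      rintro _ _ ⟨g, hg, rfl⟩ ⟨g', hg', rfl⟩
      exact ⟨g + g', add_mem hg hg', P.add _ (h _ hg) _ (h _ hg')⟩
     algebraMap_mem' := fun c => ⟨_, O.algebraMap_mem c, P.π_cst c⟩ }, fun _ => Iff.rfl⟩

theorem RsO.mem (hO : P.RsO O O') {g : L} (hg : g ∈ O) : P.π g ∈ O' := (hO _).2 ⟨g, hg, rfl⟩

theorem RsC.st (hC : P.RsC C i C') (h : C.Dat O P.o i) (hO : P.RsO O O') (hS : C.St O) :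
    C'.St O' := ⟨fun j => hC j ▸ hO.mem (hS.z _), fun j y hy => by
  obtain ⟨g, hg, rfl⟩ := (hO y).1 hy
  rw [← (hC.D h.adp j).2 g (h.le g hg)]
  exact hO.mem (hS.D _ g hg)⟩

theorem RsC.ad (hC : P.RsC C i C') (h : C.Dat O P.o i) (hO : P.RsO O O') (hd : Exp d P.o 0)
    (he : P.RsD d e) {j : Fin n} {a : ℂ}
    (ha : (d.δ (C.th (i.succAbove j)) - algebraMap ℂ L a) / C.z (i.succAbove j) ∈ O) :
    (e.δ (C'.th j) - algebraMap ℂ k a) / C'.z j ∈ O' := by
  have h1 := hC.th h.adp j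
  have := hO.mem ha
  rwa [π_div (sub_mem (hd.reg _ h1.1) (cst_F _ _)) (C.ne _) (h.adp.vz' (i.succAbove_ne j)),
    π_sub (hd.reg _ h1.1) (cst_F _ _), he _ _ h1, P.π_cst, ← hC j] at this

theorem RsC.Ad (hC : P.RsC C i C') (h : C.Dat O P.o i) (hO : P.RsO O O') (hd : Exp d P.o 0)
    (he : P.RsD d e) {a : Fin (n + 1) → ℂ} (ha : C.Ad O d a) :
    C'.Ad O' e fun j => a (i.succAbove j) := fun _ => hC.ad h hO hd he (ha _)

theorem RsC.coef (hC : P.RsC C i C') (h : C.At P.o i) {v : VF L} {w : VF k} (hw : P.Rs v w)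
    {c : Fin (n + 1) → ℤ} (hc : c i = 0) (j : Fin n) (p : Prop) [Decidable p] :
    P.π (v (C.z (i.succAbove j)) / ((if p then C.z (i.succAbove j) else 1) * C.mon c)) =
      w (C'.z j) / ((if p then C'.z j else 1) * C'.mon fun j => c (i.succAbove j)) := by
  have hv := h.vz' (i.succAbove_ne j)
  have hm : P.o.v (C.mon c) = 0 := by rw [h.v_mon, hc]
  rw [← div_div, ← div_div, hC j, ← hw.2 _ (h.z_F _), ← hC.mon h hc]
  split_ifs
  · rw [π_div (by simpa [hv] using F_div (hw.ap (h.z_F _)) (C.z (i.succAbove j))) (C.mon_ne c) hm,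
      π_div (hw.ap (h.z_F _)) (C.ne _) hv]
  · rw [div_one, div_one, π_div (hw.ap (h.z_F _)) (C.mon_ne c) hm]

/-- The restriction of a field of a lattice lies in the restricted lattice. -/
theorem RsC.G (hC : P.RsC C i C') (h : C.At P.o i) (hO : P.RsO O O') {s : Finset (Fin (n + 1))}
    {c : Fin (n + 1) → ℤ} (hc : c i = 0) {v : VF L} {w : VF k} (hv : v ∈ C.G O s c)
    (hw : P.Rs v w) :
    w ∈ C'.G O' (univ.filter fun j => i.succAbove j ∈ s) fun j => c (i.succAbove j) := fun j => by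
  have := hO.mem (hv (i.succAbove j))
  rw [hC.coef h hw hc] at this
  simpa only [mem_filter, mem_univ, true_and] using this

theorem RsC.F (hC : P.RsC C i C') (h : C.At P.o i) (hO : P.RsO O O')
    {c : Fin (n + 1) → ℤ} (hc : c i = 0) {v : VF L} {w : VF k} (hv : v ∈ C.F O c)
    (hw : P.Rs v w) : w ∈ C'.F O' fun j => c (i.succAbove j) := by
  rw [← Co.G_univ] at hv ⊢
  simpa using hC.G h hO hc hv hw

theorem RsC.mx (hC : P.RsC C i C') (h : C.Dat O P.o i) (hO : P.RsO O O') {g : L}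
    (hg : C.Mx O g) : C'.Mx O' (P.π g) := by
  obtain ⟨p, hp, rfl⟩ := hg
  refine ⟨fun j => P.π (p (i.succAbove j)), fun j => hO.mem (hp _), ?_⟩
  have h1 := fun j => F_mul0 (h.adp.z_F j) (h.le _ (hp j))
  rw [π_sum _ fun j _ => h1 j, Fin.sum_univ_succAbove _ i,
    P.π_F1 (F_mul0' (Or.inr h.adp.vz.ge) (h.le _ (hp i))), zero_add]
  exact sum_congr rfl fun j _ => by rw [P.mul _ (h.adp.z_F _) _ (h.le _ (hp _)), hC j]

/-- A field of a lattice that is logarithmic along the place has a residue in the restricted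
lattice, after reduction along the place only. -/
theorem RsC.loc (hC : P.RsC C i C') (h : C.Dat O P.o i) (hO : P.RsO O O') (hS : C.St O)
    (ha : d.δ (C.th i) / C.z i ∈ O) {s : Finset (Fin (n + 1))} (hi : i ∈ s)
    {c : Fin (n + 1) → ℤ} {v : VF L} (hv : v ∈ C.G O s c)
    (hδ : d.δ v / C.mon (Function.update c i 0) ∈ O) :
    ∃ w ∈ C'.G O' (univ.filter fun j => i.succAbove j ∈ s) fun j => c (i.succAbove j),
      P.Res d v w := by
  have key : ∀ (m : ℕ) (t : ℤ), 0 ≤ t + m → ∀ v ∈ C.G O s (Function.update c i t),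
      d.δ v / C.mon (Function.update c i 0) ∈ O →
      ∃ u ∈ d.Ex, v - u ∈ C.G O s (Function.update c i 0) := by
    have base : ∀ t : ℤ, 0 ≤ t → ∀ v ∈ C.G O s (Function.update c i t),
        ∃ u ∈ d.Ex, v - u ∈ C.G O s (Function.update c i 0) := fun t ht v hv =>
      ⟨0, zero_mem _, by
        rw [sub_zero]
        exact Co.G_anti hS.z s (update_le_update_iff.2 ⟨ht, fun _ _ => le_rfl⟩) hv⟩
    intro m
    induction m with
    | zero => exact fun t ht v hv _ => base t (by simpa using ht) v hv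
    | succ m ih =>
      intro t ht v hv hδ
      by_cases h0 : 0 ≤ t
      · exact base t h0 v hv
      have e1 : Function.update c i t + Pi.single i 1 = Function.update c i (t + 1) := by
        funext j
        by_cases hj : j = i
        · subst hj
          simp
        · simp [hj]
      have st := Co.red_step hS hi (a := 0) (by simpa using ha) hv (Co.div_mon_anti hS.z
        (e1 ▸ update_le_update_iff.2 ⟨by omega, fun _ _ => le_rfl⟩) hδ)
      have ht0 : (t : ℂ) ≠ 0 := Int.cast_ne_zero.2 (by omega)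
      have st' := Co.smul_G0 (O.algebraMap_mem (t : ℂ)⁻¹) st
      rw [e1, Function.update_self, add_zero, smul_sub, smul_smul, ← map_mul,
        inv_mul_cancel₀ ht0, map_one, one_smul, ← d.B_cst] at st'
      obtain ⟨u, hu, h1⟩ := ih (t + 1) (by push_cast at ht; omega) _ st'
        (by rwa [map_sub, d.δ_B, sub_zero])
      exact ⟨_, add_mem (d.B_mem _ _) hu, by rwa [← sub_sub]⟩
  obtain ⟨u, hu, h1⟩ := key (-c i).toNat (c i) (by omega) v (by simpa using hv) hδ
  obtain ⟨w, hw⟩ := exists_Rs (P := P) (by simpa using h.G_LV hi h1)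
  refine ⟨w, ?_, u, hu, hw⟩
  simpa [Function.update_of_ne (i.succAbove_ne _)] using
    hC.G h.adp hO (Function.update_self i 0 c) h1 hw

end Pl

end Pool.Agent.MP_ee8c61_ag.M3RESID
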