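import Pool.Agent.MP_ee8c61_ag.M3RESID.Eqn

/-!
Valuations that are stable under a frame: adapted coordinates, exponent one, regular fields.
-/

namespace Pool.Agent.MP_ee8c61_ag.M3RESID

open M3 Finset

variable {L k : Type} [Field L] [Algebra ℂ L] [Field k] [Algebra ℂ k] {n : ℕ} {o : DV L}
  {d : Dv L}

theorem eul_of {θ : VF L} {x : L} (hx : o.v x = 1) (h0 : ∀ g ∈ o.F 0, θ g ∈ o.F 1)
    (h1 : θ x - x ∈ o.F 2) : Eul o θ := fun m g hg => by
  have hx0 : x ≠ 0 := fun h => by simp [h, o.zero] at hx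
  have hm : o.v (x ^ m) = m := by rw [v_zpow o hx0, hx, mul_one]
  have hh : g / x ^ m ∈ o.F 0 := by simpa [hm] using F_div hg (x ^ m)
  have hxm : x ^ m ∈ o.F m := Or.inr hm.ge
  have h2 : (θ x - x) / x ∈ o.F 1 := by simpa [hx] using F_div h1 x
  refine F_of_eq (add_mem (o.F_mul hxm (h0 _ hh)) (F_mul0 (int_F m) (o.F_mul hg h2))) ?_
  obtain ⟨p, rfl⟩ : ∃ p, g = x ^ m * p := ⟨_, (mul_div_cancel₀ g (zpow_ne_zero m hx0)).symm⟩
  rw [mul_div_cancel_left₀ _ (zpow_ne_zero m hx0), Derivation.leibniz, Dv.zpow_der _ _ hx0,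
    smul_eq_mul, smul_eq_mul]
  field_simp
  ring

theorem reg_LV {v : VF L} {x : L} (hx : o.v x = 1) (h : ∀ g ∈ o.F 0, v g ∈ o.F 0) :
    v ∈ LV o (-1) :=
  LV_of hx (fun g hg => o.F_anti (by omega) (h g hg)) (h x (Or.inr (by omega)))

namespace Co

variable {C : Co L n}

theorem reg_of (hD : ∀ j, ∀ g ∈ o.F 0, C.D j g ∈ o.F 0) {v : VF L} (hv : ∀ j, v (C.z j) ∈ o.F 0) :
    ∀ g ∈ o.F 0, v g ∈ o.F 0 := fun g hg => by
  rw [C.exp_apply v g]
  exact sum_mem fun j _ => F_mul0 (hv j) (hD j g hg)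

/-- A coordinate that vanishes on a stable valuation is a uniformizer. -/
theorem at_of {x : L} (hx : o.v x = 1) (hz : ∀ j, C.z j ∈ o.F 0)
    (hD : ∀ j, ∀ g ∈ o.F 0, C.D j g ∈ o.F 0) {i : Fin n} (hi : C.z i ∈ o.F 1) : C.At o i := by
  have h1 : (1 : L) ∉ o.F 1 := fun h => one_ne_zero (cst_F1 (L := L) (o := o) (c := 1) (by simpa))
  have hv : o.v (C.z i) = 1 := by
    have h2 := hi.resolve_left (C.ne i)
    by_contra h3
    have h4 := reg_LV hx (hD i) 2 (C.z i) (Or.inr (by omega))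
    rw [C.dual, if_pos rfl] at h4
    exact h1 h4
  have := (dat_of (A := oA o) ⟨hz, hD⟩ hv (fun g => ?_) (fun g hg => hg) fun g _ hg => ?_).adp
  · exact this
  · have hx0 : x ≠ 0 := fun h => by simp [h, o.zero] at hx
    have hm : x ^ (o.v g).natAbs ∈ o.F (o.v g).natAbs :=
      Or.inr (by rw [v_pow o hx0, hx, mul_one])
    exact ⟨x ^ (o.v g).natAbs, o.F_anti (by omega) hm, pow_ne_zero _ hx0,
      o.F_anti (by omega) (o.F_mul hm (o.mem_F_self g))⟩
  · simpa [hv, mem_oA] using F_div hg (C.z i)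

/-- Polynomials in coordinates are units at a valuation for which the frame is logarithmic. -/
theorem aeval_unit (hD : ∀ j, C.D j ∈ LV o 0)
    (p : MvPolynomial (Fin n) ℂ) (hp : MvPolynomial.aeval C.z p ∈ o.F 1) : p = 0 := by
  have hd : ∀ j (q : MvPolynomial (Fin n) ℂ), C.D j (MvPolynomial.aeval C.z q) =
      MvPolynomial.aeval C.z (MvPolynomial.pderiv j q) := fun j q => by
    induction q using MvPolynomial.induction_on with
    | C c => simp
    | add p q hp hq => simp only [map_add, hp, hq]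
    | mul_X p i hp =>
      simp only [map_mul, Derivation.leibniz, hp, MvPolynomial.aeval_X, C.dual, map_add,
        smul_eq_mul, MvPolynomial.pderiv_X, Pi.single_apply, eq_comm (a := i)]
      split_ifs <;> simp
  have key : ∀ (m : ℕ) (q : MvPolynomial (Fin n) ℂ) (e : Fin n →₀ ℕ), e.degree = m →
      MvPolynomial.aeval C.z q ∈ o.F 1 → (∀ e' ∈ q.support, e ≤ e' → e' = e) →
      MvPolynomial.coeff e q = 0 := by
    intro m
    induction m with
    | zero =>
      intro q e he hq hm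
      obtain rfl := (Finsupp.degree_eq_zero_iff e).1 he
      have : q = MvPolynomial.C (MvPolynomial.coeff 0 q) := by
        ext e'
        rw [MvPolynomial.coeff_C]
        split_ifs with h
        · rw [h]
        · by_contra h2
          exact h (hm e' (MvPolynomial.mem_support_iff.2 h2) zero_le).symm
      rw [this, MvPolynomial.aeval_C] at hq
      exact cst_F1 hq
    | succ m ih =>
      intro q e he hq hm
      obtain ⟨j, hj⟩ : ∃ j, e j ≠ 0 := by
        by_contra! h
        rw [show e = 0 from Finsupp.ext h] at he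
        simp at he
      have e1 : e - Finsupp.single j 1 + Finsupp.single j 1 = e :=
        tsub_add_cancel_of_le (Finsupp.single_le_iff.2 (by omega))
      have h1 := ih (MvPolynomial.pderiv j q) (e - Finsupp.single j 1) (by
          have := congrArg Finsupp.degree e1
          rw [map_add, Finsupp.degree_single] at this
          omega) (by simpa [hd] using hD j 1 _ hq) fun e' he' hle => by
        rw [MvPolynomial.mem_support_iff, MvPolynomial.coeff_pderiv] at he'
        have := hm _ (MvPolynomial.mem_support_iff.2 (left_ne_zero_of_mul he'))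
          (e1 ▸ add_le_add_left hle _)
        rw [← this, add_tsub_cancel_right]
      rw [MvPolynomial.coeff_pderiv, e1] at h1
      exact (mul_eq_zero.1 h1).resolve_right (Nat.cast_add_one_ne_zero _)
  by_contra h0
  obtain ⟨e, he⟩ := p.support.exists_maximal (MvPolynomial.support_nonempty.2 h0)
  exact MvPolynomial.mem_support_iff.1 he.1
    (key _ p e rfl hp fun e' h1 h2 => le_antisymm (he.2 h1 h2) h2)

/-- Some member of a stable frame does not kill the uniformizer. -/
theorem exists_unit (hA : Algebra.IsAlgebraic (IntermediateField.adjoin ℂ (Set.range C.z)) L)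
    {x : L} (hx : o.v x = 1) (hz : ∀ j, C.z j ∈ o.F 0)
    (hD : ∀ j, ∀ g ∈ o.F 0, C.D j g ∈ o.F 0) : ∃ j, C.D j x ∉ o.F 1 := by
  by_contra! h
  have hx0 : x ≠ 0 := fun h => by simp [h, o.zero] at hx
  have h1 : ∀ j, C.D j ∈ LV o 0 := fun j => LV_of hx (hD j) (h j)
  have h2 : ∀ p : MvPolynomial (Fin n) ℂ, o.v (MvPolynomial.aeval C.z p) = 0 := fun p => by
    have h3 : MvPolynomial.aeval C.z p ∈ oA o := by
      induction p using MvPolynomial.induction_on with
      | C c => simp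
      | add p q hp hq => simpa using add_mem hp hq
      | mul_X p i hp => simpa using mul_mem hp (hz i : C.z i ∈ oA o)
    rcases h3 with h3 | h3
    · rw [h3, o.zero]
    by_contra h4
    rw [aeval_unit h1 p (Or.inr (by omega)), map_zero, o.zero] at h4
    exact h4 rfl
  have h3 : ∀ g : IntermediateField.adjoin ℂ (Set.range C.z), (g : L) ∈ o.F 0 := fun g => by
    obtain ⟨r, s, e⟩ := (IntermediateField.mem_adjoin_range_iff ℂ C.z g.1).1 g.2
    rw [e]
    simpa [h2 s] using F_div (Or.inr (h2 r).ge : _ ∈ o.F 0) (MvPolynomial.aeval C.z s)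
  obtain ⟨p, hp, h4⟩ := (hA.isAlgebraic x⁻¹).isIntegral
  have h5 : x⁻¹ ∈ o.O := by
    have : IsIntegral o.O x⁻¹ := by
      refine ⟨p.map ((algebraMap _ L).codRestrict o.O h3), hp.map _, ?_⟩
      rw [Polynomial.eval₂_map]
      exact h4
    obtain ⟨y, hy⟩ := IsIntegrallyClosed.algebraMap_eq_of_integral this
    exact hy ▸ y.2
  rcases h5 with h5 | h5
  · exact inv_ne_zero hx0 h5
  · rw [o.inv, hx] at h5
    omega

/-- The exponent is one at a valuation where the frame and the volume form are regular. -/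
theorem exp_one (hA : Algebra.IsAlgebraic (IntermediateField.adjoin ℂ (Set.range C.z)) L)
    {x : L} (hx : o.v x = 1) (hz : ∀ j, C.z j ∈ o.F 0)
    (hD : ∀ j, ∀ g ∈ o.F 0, C.D j g ∈ o.F 0) (hδ : ∀ j, d.δ (C.D j) ∈ o.F 0) : Exp d o 1 where
  reg v hv := by
    have h1 : ∀ j, v (C.z j) ∈ o.F 0 := fun j => by simpa using hv 0 _ (hz j)
    rw [C.δ_exp]
    exact sum_mem fun j _ => add_mem (F_mul0 (h1 j) (hδ j)) (hD j _ (h1 j))
  fin v := by
    obtain ⟨c, hc⟩ := (Set.finite_range fun j => o.v (v (C.z j))).bddBelow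
    refine ⟨c + -1, ?_⟩
    rw [C.exp v]
    exact sum_mem fun j _ => LV_smul (Or.inr (hc ⟨j, rfl⟩)) (reg_LV hx (hD j))
  eul := by
    obtain ⟨j, hj⟩ := exists_unit hA hx hz hD
    have hx1 : x ∈ o.F 1 := Or.inr hx.ge
    have h0 : C.D j x ≠ 0 := fun h => hj (Or.inl h)
    have h1 := (hD j x (o.F_anti (by omega) hx1)).resolve_left h0
    have h2 : o.v (C.D j x) = 0 := by
      by_contra h
      exact hj (Or.inr (by omega))
    have h3 : (C.D j x)⁻¹ ∈ o.F 0 := Or.inr (by rw [o.inv, h2, neg_zero])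
    refine ⟨(x * (C.D j x)⁻¹) • C.D j, eul_of hx (fun g hg => F_mul0' (F_mul0' hx1 h3) (hD j g hg))
      (Or.inl (by rw [Derivation.smul_apply, smul_eq_mul, inv_mul_cancel_right₀ h0, sub_self])), ?_⟩
    rw [d.smul, Derivation.leibniz, smul_eq_mul, smul_eq_mul, inv_mul_cancel₀ h0, map_one]
    exact F_of_eq (add_mem (F_mul0' (F_mul0' hx1 h3) (hδ j)) (F_mul0' hx1 (hD j _ h3))) (by ring)

/-- At a unit coordinate the divergence of the coordinate field is regular. -/
theorem δ_D_unit {O : Subalgebra ℂ L} {i : Fin n} {a : ℂ}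
    (ha : (d.δ (C.th i) - algebraMap ℂ L a) / C.z i ∈ O) (hi : (C.z i)⁻¹ ∈ O) :
    d.δ (C.D i) ∈ O := by
  refine mem_of_eq (add_mem ha (mul_mem (sub_mem (O.algebraMap_mem a) (one_mem _)) hi)) ?_
  have := C.ne i
  rw [th, d.smul, C.dual, if_pos rfl]
  field_simp
  ring

/-- A field of a lattice is regular where the logarithmic coordinates are units. -/
theorem G_reg {O : Subalgebra ℂ L} (hz : ∀ i, C.z i ∈ O) {s : Finset (Fin n)} {c : Fin n → ℤ}
    (hc : ∀ i ∉ s, c i = 0) (hs : ∀ i ∈ s, (C.z i)⁻¹ ∈ O) {v : VF L} (hv : v ∈ C.G O s c)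
    (i : Fin n) : v (C.z i) ∈ O := by
  have := G_unit hz (s' := ∅) (c' := 0) (fun j => by
    by_cases h : j ∈ s
    · exact Or.inr (hs j h)
    · exact Or.inl ⟨hc j h, by simp [h]⟩) hv i
  simpa [C.mon_zero] using this

end Co

namespace Pl

variable {P : Pl L k} {e : Dv k}

/-- A field that is regular at a place of exponent one has residue zero. -/
theorem Rx_zero {x : L} (hx : P.o.v x = 1) {v u : VF L} (hu : u ∈ d.Ex)
    (h : ∀ g ∈ P.o.F 0, (v - u) g ∈ P.o.F 0) : P.Rx d x 1 v 0 :=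
  ⟨u, hu, Rs_zero_iff.2 ⟨by simpa using LV_smul (Or.inr hx.ge : x ∈ P.o.F 1) (reg_LV hx h),
    fun g hg => by simpa using F_mul0' (Or.inr hx.ge : x ∈ P.o.F 1) (h g hg)⟩⟩

/-- On a surface the residue at an integral exponent is unique. -/
theorem Rx.uniq {C : Co L 2} {i : Fin 2} {C' : Co k 1} (hC : P.RsC C i C') (h : C.At P.o i)
    {a : ℤ} (hd : Exp d P.o a) {x : L} (hx : P.o.v x = 1) {v : VF L} {w w' : VF k}
    (hw : P.Rx d x a v w) (hw' : P.Rx d x a v w') : w = w' := by
  have hx0 : x ≠ 0 := fun h => by simp [h, P.o.zero] at hx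
  have h0 : Exp (d.tw x (-a)) P.o 0 := by simpa [hx] using hd.tw hx0 (-a)
  obtain ⟨e, he⟩ := exists_RsD h0 hx (hC.lift h)
  obtain ⟨u, hu, h1⟩ := hw
  obtain ⟨u', hu', h2⟩ := hw'
  refine sub_eq_zero.1 (Ex_one C' e (Rs.ex hC h h0 he (d.tw_mem x hx0 a (sub_mem hu' hu)) ?_))
  simpa only [← smul_sub, sub_sub_sub_cancel_left] using h1.sub h2

/-- On a surface the residue at exponent zero is unique. -/
theorem Res.uniq2 {C : Co L 2} {i : Fin 2} {C' : Co k 1} (hC : P.RsC C i C') (h : C.At P.o i)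
    (hd : Exp d P.o 0) {v : VF L} {w w' : VF k} (hw : P.Res d v w) (hw' : P.Res d v w') :
    w = w' := by
  obtain ⟨e, he⟩ := exists_RsD hd h.vz (hC.lift h)
  exact sub_eq_zero.1 (Ex_one C' e (Res.uniq hC h hd he hw hw'))

end Pl

end Pool.Agent.MP_ee8c61_ag.M3RESID
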