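import Pool.Agent.MP_ee8c61_ag.M3RESID.CCE
import Pool.Agent.MP_ee8c61_ag.M3RESID.Cht

/-!
Logarithmic lattices of a chart at an arbitrary divisorial valuation of a surface.
-/

namespace Pool.Agent.MP_ee8c61_ag.M3RESID

open M3 Finset
open M3J (ex br LB)

noncomputable section

variable {L k : Type} [Field L] [Algebra ℂ L] [Field k] [Algebra ℂ k]

section Two

variable {S C : Co k 2} {Γ : DV k} {e : Dv k}

theorem jac_br (S C : Co k 2) : S.jac C = br C (S.z 0) (S.z 1) := by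
  simp only [Co.jac, Matrix.det_fin_two, Matrix.of_apply, br]

/-- The exponent at a valuation whose centre lies in a chart. -/
theorem exp_chart (hA : C.At Γ 0) {a : ℂ} (hE : Exp e Γ a) (hz : ∀ j, S.z j ∈ Γ.F 0)
    {c : Fin 2 → ℂ} (had : ∀ j, (e.δ (S.th j) - algebraMap ℂ k (c j)) / S.z j ∈ Γ.F 0) :
    a = 1 + Γ.v (br C (S.z 0) (S.z 1)) + ∑ j, (c j - 1) * Γ.v (S.z j) := by
  have hθ := hA.eul
  have h1 := hE.of_eul hA.vz hθ
  have h2 := (hA.exp_dv.tw (S.jac_ne C) 1).of_eul hA.vz hθ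
  rw [← Co.dv_jac, jac_br] at h2
  have h3 : ∀ j, C.th 0 (S.z j) * e.δ (S.D j) - algebraMap ℂ k ((c j - 1) * Γ.v (S.z j)) ∈
      Γ.F 1 := fun j => by
    have := S.ne j
    refine F_of_eq (add_mem (F_mul0' (hθ.zero (hz j)) (had j))
      (F_mul0 (cst_F Γ (c j - 1)) (hθ.dlog (S.ne j)))) ?_
    rw [show S.th j = S.z j • S.D j from rfl, e.smul, S.dual, if_pos rfl, map_mul, map_sub, map_one,
      map_intCast]
    field_simp
    ring
  have h4 := sub_mem (add_mem h2 (sum_mem fun j (_ : j ∈ univ) => h3 j)) h1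
  rw [S.δ_exp e, sum_add_distrib, ← S.dv_δ, sum_sub_distrib, ← map_sum] at h4
  have h5 := cst_F1 (L := k) (o := Γ)
    (c := a - (1 + Γ.v (br C (S.z 0) (S.z 1)) + ∑ j, (c j - 1) * Γ.v (S.z j)))
    (F_of_eq h4 (by simp only [map_sub, map_add, one_mul]; ring))
  exact sub_eq_zero.1 h5

omit [Algebra ℂ k] in
theorem v_un {x u : k} (hx : x ∈ Γ.F 0) (hu : u = x ∨ u = 1) : x ∈ Γ.F (Γ.v u) := by
  rcases hu with h | h
  · exact h ▸ Γ.mem_F_self _
  · rwa [h, Γ.one]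

theorem D_un (hA : C.At Γ 0) {x u : k} (hx : x ∈ Γ.F 0) (hu : u = x ∨ u = 1) :
    C.D 0 x ∈ Γ.F (Γ.v u - 1) ∧ C.D 1 x ∈ Γ.F (Γ.v u) :=
  ⟨M3J.D0_F hA (v_un hx hu), M3J.D1_F hA (v_un hx hu)⟩

omit [Algebra ℂ k] in
theorem F_unmul {x u μ : k} (hu : u ≠ 0) (hμ : μ ≠ 0) (h : x / u * μ ∈ Γ.F 0) :
    x ∈ Γ.F (Γ.v u - Γ.v μ) := by
  have := F_div (F_mul0' (Γ.mem_F_self u) h) μ
  rwa [mul_div_assoc, mul_div_cancel_right₀ _ hμ, mul_div_cancel₀ _ hu] at this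

/-- Logarithmic forms and functions of a chart in the lattices of a valuation. -/
theorem pb (hA : C.At Γ 0) {a : ℂ} (hE : Exp e Γ a) (hz : ∀ j, S.z j ∈ Γ.F 0)
    {c : Fin 2 → ℂ} (had : ∀ j, (e.δ (S.th j) - algebraMap ℂ k (c j)) / S.z j ∈ Γ.F 0)
    {u : Fin 2 → k} (hu : ∀ j, u j = S.z j ∨ (u j = 1 ∧ c j = 1)) {μ : k} (hμ : μ ≠ 0) :
    ∃ m : ℤ, a + m = ∑ j, c j * Γ.v (u j) - Γ.v μ ∧
      (∀ w : VF k, (∀ j, w (S.z j) / u j * μ ∈ Γ.F 0) → w ∈ LV Γ m) ∧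
      ∀ (C₀ : Co k 2) (t : k), t * br C₀ (S.z 0) (S.z 1) / (u 0 * u 1) * μ ∈ Γ.F 0 →
        t ∈ LB C₀ Γ m := by
  have u0 : ∀ j, u j ≠ 0 := fun j => by
    rcases hu j with h | h
    · exact h ▸ S.ne j
    · exact h.1 ▸ one_ne_zero
  have hJ := M3J.br_ne C S
  have hD := fun j => D_un hA (hz j) ((hu j).imp id And.left)
  refine ⟨Γ.v (u 0) + Γ.v (u 1) - Γ.v μ - Γ.v (br C (S.z 0) (S.z 1)) - 1, ?_, fun w hw => ?_,
    fun C₀ t ht => ?_⟩
  · have : ∀ j, (c j - 1) * Γ.v (S.z j) + Γ.v (u j) = c j * Γ.v (u j) := fun j => by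
      rcases hu j with h | h
      · rw [h]
        ring
      · simp [h.1, h.2, Γ.one]
    rw [exp_chart hA hE hz had]
    simp only [Fin.sum_univ_two, ← this]
    push_cast
    ring
  · have h0 := F_unmul (u0 0) hμ (hw 0)
    have h1 := F_unmul (u0 1) hμ (hw 1)
    have e0 := M3J.ap2 C w (S.z 0)
    have e1 := M3J.ap2 C w (S.z 1)
    refine (M3J.mem_LV hA).2 ⟨?_, ?_⟩
    · have := F_div (sub_mem (Γ.F_mul h0 (hD 1).2) (Γ.F_anti (by omega) (Γ.F_mul h1 (hD 0).2)))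
        (br C (S.z 0) (S.z 1))
      refine Γ.F_anti (by omega) (F_of_eq this ?_)
      rw [eq_div_iff hJ, e0, e1, br]
      ring
    · have := F_div (sub_mem (Γ.F_mul h1 (hD 0).1) (Γ.F_anti (by omega) (Γ.F_mul h0 (hD 1).1)))
        (br C (S.z 0) (S.z 1))
      refine Γ.F_anti (by omega) (F_of_eq this ?_)
      rw [eq_div_iff hJ, e0, e1, br]
      ring
  · have h0 := F_div (F_unmul (mul_ne_zero (u0 0) (u0 1)) hμ ht) (br C (S.z 0) (S.z 1))
    rw [Γ.mul _ _ (u0 0) (u0 1), M3J.br_chain C₀ C, ← mul_assoc, mul_div_cancel_right₀ _ hJ] at h0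
    exact (M3J.mem_LB hA).2 (Γ.F_anti (by omega) h0)

end Two

/-- The logarithmic frame along the coordinates in `s`. -/
def lfr (S : Co L 3) (s : Finset (Fin 3)) (l : Fin 3) : VF L :=
  (if l ∈ s then S.z l else 1) • S.D l

theorem un_ne (S : Co L 3) (s : Finset (Fin 3)) (l : Fin 3) : (if l ∈ s then S.z l else 1) ≠ 0 := by
  split_ifs
  exacts [S.ne l, one_ne_zero]

theorem lfr_J3 (R S : Co L 3) (s : Finset (Fin 3)) :
    J3 R (lfr S s) = S.mon (fun l => if l ∈ s then 1 else 0) * R.jac S := by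
  have : S.mon (fun l => if l ∈ s then 1 else 0) = ∏ l, if l ∈ s then S.z l else 1 :=
    prod_congr rfl fun l _ => by split_ifs with h <;> simp [h]
  simp only [this, J3, Co.jac, Matrix.det_fin_three, Matrix.of_apply, lfr, Derivation.smul_apply,
    smul_eq_mul, Fin.prod_univ_three]
  ring

theorem lfr_ne (R S : Co L 3) (s : Finset (Fin 3)) : J3 R (lfr S s) ≠ 0 := by
  rw [lfr_J3]
  exact mul_ne_zero (S.mon_ne _) (R.jac_ne S)

theorem Lam_lfr (S : Co L 3) (s : Finset (Fin 3)) (G : Fin 3 → L) (i : Fin 3) :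
    Lam (lfr S s) G (S.z (i.succAbove 0)) (S.z (i.succAbove 1)) /
      ((if i.succAbove 0 ∈ s then S.z (i.succAbove 0) else 1) *
        if i.succAbove 1 ∈ s then S.z (i.succAbove 1) else 1) = (-1) ^ (i + 1 : ℕ) * G i := by
  rw [div_eq_iff (mul_ne_zero (un_ne S s _) (un_ne S s _))]
  obtain ⟨u, hu⟩ : ∃ u : Fin 3 → L, u = fun l => if l ∈ s then S.z l else 1 := ⟨_, rfl⟩
  have h1 : ∀ l, (if l ∈ s then S.z l else 1) = u l := fun l => by rw [hu]
  simp only [Lam, wg, lfr, h1, Derivation.smul_apply, S.dual, smul_eq_mul]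
  fin_cases i <;> simp [Fin.succAbove, mul_comm]
  ring

namespace Pl

variable {P : Pl L k} {S : Co L 3} {i : Fin 3} {S' C : Co k 2} {d : Dv L} {e : Dv k}
  {s : Finset (Fin 3)} {c : Fin 3 → ℤ}

theorem lfr_LV (h : S.At P.o i) (hi : i ∈ s) (l : Fin 3) : lfr S s l ∈ LV P.o 0 := by
  rw [lfr]
  split_ifs with hl
  · by_cases e : l = i
    · exact e ▸ h.eul.mem
    · exact LV_smul0 (h.z_F l) (h.D_LV e)
  · rw [one_smul]
    exact h.D_LV fun e => hl (e ▸ hi)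

theorem F_mon (h : S.At P.o i) (hc : c i = 0) {x : L} (hx : x * S.mon c ∈ P.o.F 0) :
    x ∈ P.o.F 0 := by
  have := F_div hx (S.mon c)
  rwa [mul_div_cancel_right₀ _ (S.mon_ne c), h.v_mon, hc, sub_zero] at this

theorem LV_chart (h : S.At P.o i) (hi : i ∈ s) (hc : c i = 0) {X : VF L}
    (hX : ∀ l, X (S.z l) / (if l ∈ s then S.z l else 1) * S.mon c ∈ P.o.F 0) :
    X ∈ LV P.o 0 := by
  have : X = ∑ l, (X (S.z l) / (if l ∈ s then S.z l else 1)) • lfr S s l := by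
    simp only [lfr, smul_smul, div_mul_cancel₀ _ (un_ne S s _)]
    exact S.exp X
  rw [this]
  exact sum_mem fun l _ => LV_smul0 (F_mon h hc (hX l)) (lfr_LV h hi l)

theorem lgB_chart (R : Co L 3) (h : S.At P.o i) (hi : i ∈ s) (hc : c i = 0) {g : Fin 3 → L}
    (hg : ∀ l, pr R g (lfr S s l) / J3 R (lfr S s) * S.mon c ∈ P.o.F 0) : LgB R P.o g :=
  lgB_of R (lfr_ne R S s) (lfr_LV h hi) fun l => F_mon h hc (hg l)

/-- The lattices of a chart of the threefold at a valuation of the divisor. -/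
theorem pb_chart (hC : P.RsC S i S') (h : S.At P.o i) (hd : Exp d P.o 0) (he : P.RsD d e)
    (hc : c i = 0) {Γ : DV k} (hA : C.At Γ 0) {a : ℂ} (hE : Exp e Γ a) {A : Subalgebra ℂ L}
    (h0 : ∀ g ∈ A, g ∈ P.o.F 0) (h1 : ∀ g ∈ A, P.π g ∈ Γ.F 0) (hz : ∀ l, S.z l ∈ A)
    {x : Fin 3 → ℂ} (had : S.Ad A d x) (hx : ∀ l ∉ s, x l = 1) :
    ∃ m : ℤ, a + m = ∑ j : Fin 2, ((if i.succAbove j ∈ s then x (i.succAbove j) else 0) -
        c (i.succAbove j)) * Γ.v (S'.z j) ∧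
      (∀ X w, P.Rs X w → (∀ l, X (S.z l) / (if l ∈ s then S.z l else 1) * S.mon c ∈ A) →
        w ∈ LV Γ m) ∧
      ∀ (R : Co L 3) (C₀ : Co k 2) (g : Fin 3 → L) (t : k),
        (∀ l, pr R g (lfr S s l) / J3 R (lfr S s) * S.mon c ∈ A) →
        t * br C₀ (S'.z 0) (S'.z 1) =
          P.π (Lam R.D g (S.z (i.succAbove 0)) (S.z (i.succAbove 1))) → t ∈ LB C₀ Γ m := by
  have vz := fun j => h.vz' (i.succAbove_ne j)
  have vm : P.o.v (S.mon c) = 0 := by rw [h.v_mon, hc]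
  have vu : ∀ j, P.o.v (if i.succAbove j ∈ s then S.z (i.succAbove j) else 1) = 0 := fun j => by
    split_ifs
    exacts [vz j, P.o.one]
  have πu : ∀ j, P.π (if i.succAbove j ∈ s then S.z (i.succAbove j) else 1) =
      if i.succAbove j ∈ s then S'.z j else 1 := fun j => by
    split_ifs
    exacts [(hC j).symm, P.π_one]
  obtain ⟨m, e1, e2, e3⟩ := pb (S := S') hA hE (fun j => hC j ▸ h1 _ (hz _))
    (c := fun j => x (i.succAbove j)) (fun j => by
      have r := hC.th h j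
      have := h1 _ (had (i.succAbove j))
      rwa [π_div (sub_mem (hd.reg _ r.1) (cst_F _ _)) (S.ne _) (vz j),
        π_sub (hd.reg _ r.1) (cst_F _ _), he _ _ r, P.π_cst, ← hC j] at this)
    (u := fun j => if i.succAbove j ∈ s then S'.z j else 1) (fun j => by
      split_ifs with hj
      exacts [Or.inl rfl, Or.inr ⟨rfl, hx _ hj⟩]) (S'.mon_ne fun j => c (i.succAbove j))
  refine ⟨m, ?_, fun X w hw hX => e2 w fun j => ?_, fun R C₀ g t hg ht => e3 C₀ t ?_⟩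
  · rw [e1, Co.mon, Γ.prod _ fun j _ => zpow_ne_zero _ (S'.ne j)]
    simp only [Γ.zpow, Int.cast_sum, ← sum_sub_distrib]
    refine sum_congr rfl fun j _ => ?_
    split_ifs
    · push_cast
      ring
    · simp [Γ.one]
  · have m1 := hw.ap (h.z_F (i.succAbove j))
    have := h1 _ (hX (i.succAbove j))
    rwa [P.mul _ (F_mon h hc (h0 _ (hX _))) _ (Or.inr vm.ge), π_div m1 (un_ne S s _) (vu j),
      hw.2 _ (h.z_F _), ← hC j, πu, hC.mon h hc] at this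
  · have m0 := mul_mem (pow_mem (neg_mem (one_mem A)) (i + 1 : ℕ)) (hg i)
    rw [← mul_assoc, ← Lam_lfr S s (fun l => pr R g (lfr S s l) / J3 R (lfr S s)),
      Lam_frame R _ (lfr_ne R S s)] at m0
    have m1 := F_mon h hc (h0 _ m0)
    have u0 := mul_ne_zero (un_ne S s (i.succAbove 0)) (un_ne S s (i.succAbove 1))
    have v0 := P.o.mul _ _ (un_ne S s (i.succAbove 0)) (un_ne S s (i.succAbove 1))
    rw [vu, vu, add_zero] at v0
    have m2 := F_mul0 m1 (Or.inr v0.ge)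
    rw [div_mul_cancel₀ _ u0] at m2
    have := h1 _ m0
    rwa [P.mul _ m1 _ (Or.inr vm.ge), π_div m2 u0 v0, ← ht,
      P.mul _ (Or.inr (vu 0).ge) _ (Or.inr (vu 1).ge), πu, πu, hC.mon h hc] at this

end Pl

end

end Pool.Agent.MP_ee8c61_ag.M3RESID
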