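import Pool.Agent.MP_ee8c61_ag.M3RESID.Cht

/-!
Adapted coordinates at a divisorial valuation of a surface.
-/

namespace Pool.Agent.MP_ee8c61_ag.M3RESID

open M3 Finset Polynomial

noncomputable section

variable {L : Type} [Field L] [Algebra ℂ L] {o : DV L}

namespace CVA

theorem int_of (B : Subalgebra ℂ L) {g : L}
    (h : ∀ V : ValuationSubring L, (∀ t ∈ B, t ∈ V) → g ∈ V) : IsIntegral B g := by
  have e := iInf_valuationSubring_superset (s := (B.toSubring : Set L))
  rw [Subring.closure_eq] at e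
  have : g ∈ (integralClosure B.toSubring L).toSubring :=
    e ▸ Subring.mem_iInf.2 fun V => h V.1 V.2
  exact this

theorem mem_of_int {B : Subalgebra ℂ L} (hB : ∀ g ∈ B, g ∈ o.F 0) {y : L} (h : IsIntegral B y) :
    y ∈ o.F 0 := by
  obtain ⟨p, hp, h4⟩ := h
  have : IsIntegral o.O y := by
    refine ⟨p.map ((algebraMap B L).codRestrict o.O fun g => hB _ g.2), hp.map _, ?_⟩
    rw [Polynomial.eval₂_map]
    exact h4
  obtain ⟨z, hz⟩ := IsIntegrallyClosed.algebraMap_eq_of_integral this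
  exact hz ▸ z.2

omit [Algebra ℂ L] in
theorem pow_F {y : L} (hy : y ∈ o.F 0) (i : ℕ) : y ^ i ∈ o.F 0 := by simpa using o.F_pow hy i

omit [Algebra ℂ L] in
theorem eval_F {m : ℤ} {P : L[X]} (h : ∀ i, P.coeff i ∈ o.F m) {y : L} (hy : y ∈ o.F 0) :
    P.eval y ∈ o.F m := by
  rw [eval_eq_sum_range]
  exact sum_mem fun i _ => F_mul0' (h i) (pow_F hy i)

omit [Algebra ℂ L] in
theorem eval_divX (P : L[X]) (y : L) : y * P.divX.eval y = P.eval y - P.coeff 0 := by
  have := congrArg (eval y) (X_mul_divX_add P)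
  rw [eval_add, eval_mul, eval_X, eval_C] at this
  exact eq_sub_of_add_eq this

omit [Algebra ℂ L] in
theorem unit_inv {s : L} (h0 : s ∈ o.F 0) (h1 : s ∉ o.F 1) : s ≠ 0 ∧ s⁻¹ ∈ o.F 0 := by
  have h : s ≠ 0 := fun h => h1 (Or.inl h)
  have h2 := h0.resolve_left h
  have h3 : ¬1 ≤ o.v s := fun h => h1 (Or.inr h)
  exact ⟨h, Or.inr (by rw [o.inv]; omega)⟩

variable {B : Subalgebra ℂ L}

/-- An element of the valuation ring is a quotient of integral elements. -/
theorem trunc {y : L} (hy : y ∈ o.F 0) : ∀ (n : ℕ) (P : L[X]), P.natDegree = n →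
    (∀ i, P.coeff i ∈ B) → (∃ i, P.coeff i ∉ o.F 1) →
    (∀ V : ValuationSubring L, (∀ t ∈ B, t ∈ V) → P.eval y ∈ V ∧ y * P.eval y ∈ V) →
    ∃ s, s ∉ o.F 1 ∧ IsIntegral B s ∧ IsIntegral B (y * s) := by
  intro n
  induction n using Nat.strong_induction_on with
  | _ n ih =>
    intro P hn hP hu hV
    by_cases h : ∃ i, P.divX.coeff i ∉ o.F 1
    · refine ih _ ?_ P.divX rfl (fun i => by rw [coeff_divX]; exact hP _) h fun V hB => ?_
      · obtain ⟨i, hi⟩ := h
        have : i + 1 ≤ P.natDegree := le_natDegree_of_ne_zero fun e => hi (by simp [coeff_divX, e])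
        rw [natDegree_divX_eq_natDegree_tsub_one]
        omega
      · have h1 : y * P.divX.eval y ∈ V := by
          rw [eval_divX]
          exact sub_mem (hV V hB).1 (hB _ (hP 0))
        refine ⟨?_, h1⟩
        by_cases h2 : y ∈ V
        · rw [eval_eq_sum_range]
          exact sum_mem fun i _ => mul_mem (by rw [coeff_divX]; exact hB _ (hP _)) (pow_mem h2 i)
        · have := mul_mem ((V.mem_or_inv_mem y).resolve_left h2) h1
          rwa [inv_mul_cancel_left₀ fun e : y = 0 => h2 (by rw [e]; exact zero_mem V)] at this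
    · push Not at h
      refine ⟨P.eval y, fun h1 => ?_, int_of B fun V hB => (hV V hB).1,
        int_of B fun V hB => (hV V hB).2⟩
      obtain ⟨i, hi⟩ := hu
      rcases i with _ | i
      · have := sub_mem h1 (F_mul0 hy (eval_F h hy))
        rw [eval_divX, sub_sub_cancel] at this
        exact hi this
      · exact hi (by simpa [coeff_divX] using h i)

/-- A residually separable equation. -/
theorem sepa {y : L} (hy : y ∈ o.F 0) : ∀ (n : ℕ) (P : L[X]), P.natDegree = n →
    (∀ i, P.coeff i ∈ B) → (∃ i, P.coeff i ∉ o.F 1) → P.eval y ∈ o.F 1 →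
    ∃ p : L[X], (∀ i, p.coeff i ∈ B) ∧ p.eval y ∈ o.F 1 ∧ p.derivative.eval y ∉ o.F 1 := by
  intro n
  induction n using Nat.strong_induction_on with
  | _ n ih =>
    intro P hn hP hu hV
    by_cases h0 : P.derivative.eval y ∈ o.F 1
    swap
    · exact ⟨P, hP, hV, h0⟩
    by_cases h : ∃ i, P.derivative.coeff i ∉ o.F 1
    · refine ih _ ?_ _ rfl (fun i => ?_) h h0
      · obtain ⟨i, hi⟩ := h
        have : i + 1 ≤ P.natDegree :=
          le_natDegree_of_ne_zero fun e => hi (by simp [coeff_derivative, e])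
        exact hn ▸ natDegree_derivative_lt (by omega)
      · rw [coeff_derivative]
        exact mul_mem (hP _) (add_mem (natCast_mem _ _) (one_mem _))
    · push Not at h
      have h1 : ∀ i, P.divX.coeff i ∈ o.F 1 := fun i => by
        have := F_mul0' (h i) (cst_F o ((i : ℂ) + 1)⁻¹)
        rwa [coeff_derivative, mul_assoc, ← map_natCast (algebraMap ℂ L), ← map_one (algebraMap ℂ L),
          ← map_add, ← map_mul, mul_inv_cancel₀ (Nat.cast_add_one_ne_zero i), map_one, mul_one,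
          ← coeff_divX] at this
      obtain ⟨i, hi⟩ := hu
      rcases i with _ | i
      · have := sub_mem hV (F_mul0 hy (eval_F h1 hy))
        rw [eval_divX, sub_sub_cancel] at this
        exact absurd this hi
      · exact absurd (by simpa [coeff_divX] using h1 i) hi

theorem der_eval0 (D : VF L) (P : L[X]) (y : L) :
    D (P.eval y) - P.derivative.eval y * D y = ∑ i ∈ P.support, y ^ i * D (P.coeff i) := by
  conv_lhs => rw [P.as_sum_support]
  simp only [eval_finsetSum, derivative_monomial, eval_monomial, map_sum, sum_mul,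
    ← sum_sub_distrib]
  refine sum_congr rfl fun i _ => ?_
  rw [Derivation.leibniz, Derivation.leibniz_pow]
  simp only [smul_eq_mul, nsmul_eq_mul]
  ring

theorem der_eval (D : VF L) (hD : ∀ a ∈ B, D a ∈ o.F 0) {P : L[X]} (hP : ∀ i, P.coeff i ∈ B)
    {y : L} (hy : y ∈ o.F 0) : D (P.eval y) - P.derivative.eval y * D y ∈ o.F 0 := by
  rw [der_eval0]
  exact sum_mem fun i _ => F_mul0 (pow_F hy i) (hD _ (hP i))

theorem kill (F : IntermediateField ℂ L) [Algebra.IsAlgebraic F L] (D : VF L)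
    (h : ∀ a ∈ F, D a = 0) : D = 0 := Derivation.ext fun y => by
  have : CharZero F := charZero_of_injective_algebraMap (algebraMap ℂ F).injective
  have h1 := der_eval0 D ((minpoly F y).map (algebraMap F L)) y
  have h2 : ∀ a : F, D (algebraMap F L a) = 0 := fun a => h _ a.2
  rw [sum_eq_zero fun i _ => by rw [coeff_map, h2, mul_zero], derivative_map,
    eval_map_algebraMap, eval_map_algebraMap, minpoly.aeval, map_zero, zero_sub, neg_eq_zero] at h1
  exact (mul_eq_zero.1 h1).resolve_left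
    ((Algebra.IsSeparable.isSeparable F y).aeval_derivative_ne_zero (minpoly.aeval F y))

variable (F : IntermediateField ℂ L) [FiniteDimensional F L]

theorem prim (o : DV L) (y : L) : ∃ P : L[X], (∀ i, P.coeff i ∈ F.toSubalgebra ⊓ oA o) ∧
    (∃ i, P.coeff i ∉ o.F 1) ∧ P.eval y = 0 := by
  have hy : IsIntegral F y := Algebra.IsIntegral.isIntegral y
  obtain ⟨P, hP⟩ : ∃ P, P = (minpoly F y).map (algebraMap F L) := ⟨_, rfl⟩
  have h0 : P ≠ 0 := hP ▸ map_ne_zero (minpoly.ne_zero hy)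
  obtain ⟨j, hj, hm⟩ := exists_min_image P.support (fun i => o.v (P.coeff i))
    (support_nonempty.2 h0)
  have hF : ∀ i, P.coeff i ∈ F := fun i => by
    rw [hP, coeff_map]
    exact Subtype.prop _
  have c0 := mem_support_iff.1 hj
  refine ⟨C (P.coeff j)⁻¹ * P, fun i => ?_, ⟨j, ?_⟩, ?_⟩
  · rw [coeff_C_mul]
    refine ⟨mul_mem (inv_mem (hF j) : _ ∈ F) (hF i), ?_⟩
    by_cases h : P.coeff i = 0
    · exact Or.inl (by rw [h, mul_zero])
    · have := hm i (mem_support_iff.2 h)
      exact Or.inr (by rw [o.mul _ _ (inv_ne_zero c0) h, o.inv]; omega)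
  · rw [coeff_C_mul, inv_mul_cancel₀ c0]
    exact fun h => one_ne_zero (cst_F1 (L := L) (o := o) (c := 1) (by simpa using h))
  · rw [eval_mul, hP, eval_map_algebraMap, minpoly.aeval, mul_zero]

/-- Integral elements lie in a finitely generated module. -/
theorem span_int (o : DV L) : ∃ (n : ℕ) (e : Fin n → L), ∀ y,
    IsIntegral (F.toSubalgebra ⊓ oA o : Subalgebra ℂ L) y →
    ∃ t : Fin n → L, (∀ i, t i ∈ F.toSubalgebra ⊓ oA o) ∧ y = ∑ i, t i * e i := by
  have : CharZero F := charZero_of_injective_algebraMap (algebraMap ℂ F).injective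
  obtain ⟨B, hB⟩ : ∃ B, B = F.toSubalgebra ⊓ oA o := ⟨_, rfl⟩
  have h1 : ∀ g, g ∈ B ↔ g ∈ F ∧ g ∈ o.F 0 := fun g => by rw [hB]; rfl
  rw [← hB]
  let _ : Algebra B F := ((algebraMap B L).codRestrict F fun g => ((h1 _).1 g.2).1).toAlgebra
  have : IsScalarTower B F L := IsScalarTower.of_algebraMap_eq fun _ => rfl
  let b := Module.finBasis F L
  have h2 : ∀ y : L, ∃ s : L, s ≠ 0 ∧ s ∈ F ∧ IsIntegral B (s * y) := fun y => by
    have : FaithfulSMul B F := (faithfulSMul_iff_algebraMap_injective B F).2 fun a a' h =>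
      Subtype.ext (congrArg (Subtype.val : F → L) h)
    have : IsFractionRing B F := IsFractionRing.of_field B F fun z => by
      rcases o.O.mem_or_inv_mem (z : L) with h | h
      · exact ⟨⟨z, (h1 _).2 ⟨z.2, h⟩⟩, 1, by rw [map_one, div_one]; rfl⟩
      · exact ⟨1, ⟨(z : L)⁻¹, (h1 _).2 ⟨inv_mem z.2, h⟩⟩, by
          rw [map_one, one_div]
          exact (inv_inv z).symm⟩
    obtain ⟨s, hs⟩ := IsIntegral.exists_multiple_integral_of_isLocalization (nonZeroDivisors B)
      (Rₘ := F) y (Algebra.IsIntegral.isIntegral y)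
    exact ⟨s.1, fun e => nonZeroDivisors.ne_zero s.2 (Subtype.ext e), ((h1 _).1 s.1.2).1, hs⟩
  choose s s0 sF hs using h2
  refine ⟨_, fun i => (s (b i))⁻¹ * b.traceDual i, fun y hy =>
    ⟨fun i => Algebra.trace F L (y * (s (b i) * b i)), fun i => (h1 _).2 ⟨Subtype.prop _, ?_⟩, ?_⟩⟩
  · exact mem_of_int (fun g hg => ((h1 g).1 hg).2)
      (Algebra.isIntegral_trace (L := F) (hy.mul (hs _))).algebraMap
  · conv_lhs => rw [← b.traceDual.sum_repr y]
    refine sum_congr rfl fun i _ => ?_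
    have e : y * (s (b i) * b i) = (⟨s (b i), sF _⟩ : F) • (y * b i) := by
      rw [IntermediateField.smul_def, smul_eq_mul]
      ring
    dsimp only
    rw [Module.Basis.traceDual_repr_apply, Algebra.traceForm_apply, e, map_smul,
      IntermediateField.smul_def, smul_eq_mul, smul_eq_mul]
    push_cast
    have := s0 (b i)
    field_simp

/-- A derivation that is regular below and at a uniformizer keeps the valuation ring. -/
theorem der_reg {x : L} (hx : o.v x = 1) (D : VF L) (hDx : D x ∈ o.F 0)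
    (hD : ∀ a ∈ F, a ∈ o.F 0 → D a ∈ o.F 0) : ∀ y ∈ o.F 0, D y ∈ o.F 0 := by
  have hx0 : x ≠ 0 := fun h => by simp [h, o.zero] at hx
  have hD' : ∀ a ∈ F.toSubalgebra ⊓ oA o, D a ∈ o.F 0 := fun a ha => hD a ha.1 ha.2
  have hB : ∀ a ∈ F.toSubalgebra ⊓ oA o, a ∈ o.F 0 := fun a ha => ha.2
  obtain ⟨n, e, he⟩ := span_int F o
  obtain ⟨c1, h1⟩ := (Set.finite_range fun i => o.v (e i)).bddBelow
  obtain ⟨c2, h2⟩ := (Set.finite_range fun i => o.v (D (e i))).bddBelow
  obtain ⟨c, hc1, hc2⟩ : ∃ c : ℕ, -(c : ℤ) ≤ c1 ∧ -(c : ℤ) ≤ c2 :=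
    ⟨c1.natAbs + c2.natAbs, by omega, by omega⟩
  have h3 : ∀ y, IsIntegral (F.toSubalgebra ⊓ oA o : Subalgebra ℂ L) y → D y ∈ o.F (-c) :=
    fun y hy => by
      obtain ⟨t, ht, rfl⟩ := he y hy
      rw [map_sum]
      refine sum_mem fun i _ => ?_
      rw [Derivation.leibniz, smul_eq_mul, smul_eq_mul]
      exact add_mem (F_mul0 (hB _ (ht i)) (Or.inr (hc2.trans (h2 ⟨i, rfl⟩))))
        (F_mul0' (Or.inr (hc1.trans (h1 ⟨i, rfl⟩))) (hD' _ (ht i)))
  have h4 : ∀ y ∈ o.F 0, D y ∈ o.F (-c) := fun y hy => by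
    obtain ⟨P, p1, p2, p3⟩ := prim F o y
    obtain ⟨s, s1, s2, s3⟩ := trunc hy _ P rfl p1 p2 fun V _ => by simp [p3]
    obtain ⟨s0, s4⟩ := unit_inv (mem_of_int hB s2) s1
    refine F_of_eq (F_mul0 s4 (sub_mem (h3 _ s3) (F_mul0 hy (h3 _ s2)))) ?_
    rw [Derivation.leibniz, smul_eq_mul, smul_eq_mul]
    field_simp
    ring
  clear hc1 hc2 h3
  induction c with
  | zero => simpa using h4
  | succ c ih =>
    refine ih fun y hy => ?_
    obtain ⟨P, p1, p2, p3⟩ := prim F o y
    obtain ⟨p, q1, q2, q3⟩ := sepa hy _ P rfl p1 p2 (by simp [p3])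
    obtain ⟨s0, s4⟩ := unit_inv (eval_F (fun i => by
      rw [coeff_derivative]
      exact hB _ (mul_mem (q1 _) (add_mem (natCast_mem _ _) (one_mem _)))) hy) q3
    have h5 : p.eval y / x ∈ o.F 0 := by simpa [hx] using F_div q2 x
    have h6 : D (p.eval y) ∈ o.F (-c) := by
      rw [← mul_div_cancel₀ (p.eval y) hx0, Derivation.leibniz, smul_eq_mul, smul_eq_mul]
      exact add_mem (o.F_anti (by push_cast; omega) (o.F_mul (Or.inr hx.ge : x ∈ o.F 1) (h4 _ h5)))
        (o.F_anti (by omega) (F_mul0 h5 hDx))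
    have := F_mul0 s4 (sub_mem h6 (o.F_anti (by omega) (der_eval D hD' q1 hy)))
    rwa [sub_sub_cancel, inv_mul_cancel_left₀ s0] at this

omit F

theorem poly_un {g : L} (hg : g ∈ o.F 0) (hc : ∀ c : ℂ, g - algebraMap ℂ L c ∉ o.F 1) :
    ∀ (n : ℕ) (r : ℂ[X]), r.natDegree = n → r ≠ 0 → Un o.O (aeval g r) := by
  have un : ∀ s ∈ o.F 0, s ∉ o.F 1 → Un o.O s := fun s h0 h1 =>
    ⟨(unit_inv h0 h1).1, h0, (unit_inv h0 h1).2⟩
  intro n
  induction n with
  | zero =>
    intro r hn h0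
    rw [eq_C_of_natDegree_eq_zero hn] at h0 ⊢
    rw [aeval_C]
    exact un _ (cst_F o _) fun h => h0 (by rw [cst_F1 h, map_zero])
  | succ n ih =>
    intro r hn h0
    obtain ⟨c, hr⟩ := IsAlgClosed.exists_root r (degree_ne_of_natDegree_ne (n := 0) (by omega))
    obtain ⟨q, rfl⟩ := dvd_iff_isRoot.2 hr
    have hq := right_ne_zero_of_mul h0
    rw [natDegree_mul (X_sub_C_ne_zero c) hq, natDegree_X_sub_C] at hn
    rw [map_mul, map_sub, aeval_X, aeval_C]
    exact (un _ (sub_mem hg (cst_F o c)) (hc c)).mul (ih q (by omega) hq)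

theorem split {x g : L} : ∀ a ∈ Algebra.adjoin ℂ (Set.range ![x, g]), ∃ r : ℂ[X],
    ∃ b ∈ Algebra.adjoin ℂ (Set.range ![x, g]), a = aeval g r + x * b := by
  have hx : x ∈ Algebra.adjoin ℂ (Set.range ![x, g]) := Algebra.subset_adjoin ⟨0, rfl⟩
  have hg : ∀ r : ℂ[X], aeval g r ∈ Algebra.adjoin ℂ (Set.range ![x, g]) := fun r =>
    Algebra.adjoin_mono (Set.singleton_subset_iff.2 (Set.mem_range_self (f := ![x, g]) 1))
      (aeval_mem_adjoin_singleton ℂ g)
  intro a ha
  induction ha using Algebra.adjoin_induction with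
  | mem y hy =>
    obtain ⟨i, rfl⟩ := hy
    fin_cases i
    · exact ⟨0, 1, one_mem _, by simp⟩
    · exact ⟨X, 0, zero_mem _, by simp⟩
  | algebraMap c => exact ⟨C c, 0, zero_mem _, by simp⟩
  | add y z _ _ hy hz =>
    obtain ⟨r, b, hb, rfl⟩ := hy
    obtain ⟨r', b', hb', rfl⟩ := hz
    exact ⟨r + r', b + b', add_mem hb hb', by rw [map_add]; ring⟩
  | mul y z _ _ hy hz =>
    obtain ⟨r, b, hb, rfl⟩ := hy
    obtain ⟨r', b', hb', rfl⟩ := hz
    exact ⟨r * r', aeval g r * b' + b * aeval g r' + x * b * b', add_mem (add_mem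
      (mul_mem (hg r) hb') (mul_mem hb (hg r'))) (mul_mem (mul_mem hx hb) hb'),
      by rw [map_mul]; ring⟩

theorem der_adj {S : Set L} (D : VF L) {T : Submodule (Algebra.adjoin ℂ S) L}
    (h : ∀ a ∈ S, D a ∈ T) : ∀ a ∈ Algebra.adjoin ℂ S, D a ∈ T := by
  intro a ha
  induction ha using Algebra.adjoin_induction with
  | mem y hy => exact h y hy
  | algebraMap c => simp
  | add y z _ _ hy hz => rw [map_add]; exact add_mem hy hz
  | mul y z h1 h2 hy hz =>
    rw [Derivation.leibniz]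
    exact add_mem (T.smul_mem ⟨y, h1⟩ hz) (T.smul_mem ⟨z, h2⟩ hy)

variable {x g : L} (hx : o.v x = 1) (hg : g ∈ o.F 0) (hc : ∀ c : ℂ, g - algebraMap ℂ L c ∉ o.F 1)

include hx hg in
theorem adj_le : Algebra.adjoin ℂ (Set.range ![x, g]) ≤ oA o := Algebra.adjoin_le (by
  rintro _ ⟨i, rfl⟩
  fin_cases i
  exacts [Or.inr (by simp [hx]), hg])

include hx hg hc

theorem sat (m : ℕ) : ∀ a ∈ Algebra.adjoin ℂ (Set.range ![x, g]), a ∈ o.F m →
    a / x ^ m ∈ Algebra.adjoin ℂ (Set.range ![x, g]) := by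
  have hx0 : x ≠ 0 := fun h => by simp [h, o.zero] at hx
  induction m with
  | zero => exact fun g hg _ => by simpa using hg
  | succ m ih =>
    intro a ha h1
    have h3 := F_div h1 (x ^ m)
    rw [v_pow o hx0, hx, mul_one] at h3
    obtain ⟨r, b, hb, e⟩ := split _ (ih a ha (o.F_anti (by omega) h1))
    have h4 := sub_mem (show a / x ^ m ∈ o.F 1 by simpa using h3)
      (F_mul0' (Or.inr hx.ge : x ∈ o.F 1) (adj_le hx hg hb))
    rw [e, add_sub_cancel_right] at h4
    have h5 : r = 0 := by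
      by_contra h0
      have := o.un_O.1 (poly_un hg hc _ r rfl h0)
      have := h4.resolve_left this.1
      omega
    rwa [pow_succ, ← div_div, e, h5, map_zero, zero_add, mul_div_cancel_left₀ _ hx0]

theorem gauss (D : VF L) (h : ∀ i, D (![x, g] i) ∈ o.F 0) :
    ∀ a ∈ IntermediateField.adjoin ℂ (Set.range ![x, g]), a ∈ o.F 0 → D a ∈ o.F 0 := by
  have hx0 : x ≠ 0 := fun h => by simp [h, o.zero] at hx
  have hD := der_adj (S := Set.range ![x, g]) D (T :=
    { carrier := o.F 0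
      add_mem' := add_mem
      zero_mem' := zero_mem _
      smul_mem' := fun c y hy => F_mul0 (adj_le hx hg c.2) hy }) (by
    rintro _ ⟨i, rfl⟩
    exact h i)
  intro a ha h0
  obtain ⟨r, hr, s, hs, rfl⟩ := IntermediateField.mem_adjoin_iff_div.1 ha
  by_cases s0 : s = 0
  · simp [s0]
  obtain ⟨m, hm⟩ := Int.eq_ofNat_of_zero_le ((adj_le hx hg hs).resolve_left s0)
  have hs' : s ∈ o.F m := Or.inr hm.ge
  have hr' : r ∈ o.F m := by simpa [s0] using F_mul0 h0 hs'
  have h1 := F_div (Or.inr (by rw [v_pow o hx0, hx, mul_one]) : x ^ m ∈ o.F m) s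
  rw [hm, sub_self] at h1
  have := pow_ne_zero m hx0
  have h2 := F_mul0 h1 (sub_mem (hD _ (sat hx hg hc m r hr hr'))
    (F_mul0 h0 (hD _ (sat hx hg hc m s hs hs'))))
  rw [show r / x ^ m = r / s * (s / x ^ m) by field_simp, Derivation.leibniz] at h2
  refine F_of_eq h2 ?_
  simp only [smul_eq_mul]
  field_simp
  ring

theorem indep : AlgebraicIndependent ℂ fun i : Option Unit => i.elim x fun _ => g := by
  have hx0 : x ≠ 0 := fun h => by simp [h, o.zero] at hx
  refine AlgebraicIndependent.option_iff.2 ⟨algebraicIndependent_unique_type_iff.2 ?_, ?_⟩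
  · rintro ⟨r, h0, h1⟩
    exact (poly_un hg hc _ r rfl h0).1 h1
  · intro h
    obtain ⟨q, h0, h1⟩ := h.exists_nonzero_coeff_and_aeval_eq_zero
      (mem_nonZeroDivisors_of_ne_zero hx0)
    have h2 : ∀ a : Algebra.adjoin ℂ (Set.range fun _ : Unit => g), ∃ r : ℂ[X],
        aeval g r = algebraMap _ L a := fun ⟨a, ha⟩ => by
      rwa [Set.range_const, Algebra.adjoin_singleton_eq_range_aeval] at ha
    have h3 := eval_divX (q.map (algebraMap _ L)) x
    rw [eval_map_algebraMap, h1, zero_sub, coeff_map] at h3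
    have h4 := F_mul0' (Or.inr hx.ge : x ∈ o.F 1) (eval_F (P := (q.map (algebraMap _ L)).divX)
      (fun i => by
        rw [coeff_divX, coeff_map]
        obtain ⟨r, hr⟩ := h2 (q.coeff (i + 1))
        exact hr ▸ (Algebra.adjoin_le
          (Set.singleton_subset_iff.2 hg) : _ ≤ oA o) (aeval_mem_adjoin_singleton ℂ g))
      (Or.inr (by omega) : x ∈ o.F 0))
    obtain ⟨r, hr⟩ := h2 (q.coeff 0)
    rw [h3, neg_mem_iff, ← hr] at h4
    have h5 := o.un_O.1 (poly_un hg hc _ r rfl fun e => h0 (Subtype.ext (by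
      rw [e, map_zero] at hr
      exact hr.symm)))
    have := h4.resolve_left h5.1
    omega

end CVA

open CVA in
/-- A uniformizer and a function that is not constant on the curve are adapted coordinates. -/
theorem cv_at (C : Co L 2) (hf : FiniteDimensional (IntermediateField.adjoin ℂ (Set.range C.z)) L)
    {x g : L} (hx : o.v x = 1) (hg : g ∈ o.F 0) (hc : ∀ c : ℂ, g - algebraMap ℂ L c ∉ o.F 1) :
    ∃ C' : Co L 2, C'.z = ![x, g] ∧ C'.At o 0 := by
  have h3 : Algebra.trdeg ℂ L ≤ Cardinal.mk (Option Unit) := by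
    have : Algebra.IsAlgebraic (Algebra.adjoin ℂ (Set.range C.z)) L :=
      IntermediateField.isAlgebraic_adjoin_iff_top.1 inferInstance
    refine (Algebra.IsAlgebraic.trdeg_le_cardinalMk ℂ (Set.range C.z)).trans
      (Cardinal.mk_range_le.trans ?_)
    simp
  have h4 := ((indep hx hg hc).isTranscendenceBasis_of_trdeg_le_of_finite h3).isAlgebraic_field
  have sp : ∀ D : VF L, D x = 0 → D g = 0 → D = 0 := fun D h1 h2 =>
    kill (IntermediateField.adjoin ℂ (Set.range fun i : Option Unit => i.elim x fun _ => g)) D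
    fun a ha => by
      obtain ⟨r, hr, s, hs, rfl⟩ := IntermediateField.mem_adjoin_iff_div.1 ha
      have := der_adj D (T := ⊥) (S := Set.range fun i : Option Unit => i.elim x fun _ => g) (by
        rintro _ ⟨_ | _, rfl⟩
        exacts [h1, h2])
      rw [Derivation.leibniz_div, show D r = 0 from this r hr, show D s = 0 from this s hs]
      simp
  obtain ⟨J, hJ⟩ : ∃ J, J = C.D 0 x * C.D 1 g - C.D 1 x * C.D 0 g := ⟨_, rfl⟩
  have J0 : J ≠ 0 := fun h => by
    have h1 := sp (C.D 0 x • C.D 1 - C.D 1 x • C.D 0) (by simp [mul_comm]) (by simpa [hJ] using h)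
    have h2 := sp (C.D 1 g • C.D 0 - C.D 0 g • C.D 1) (by simpa [hJ, mul_comm] using h)
      (by simp [mul_comm])
    have e1 := DFunLike.congr_fun h1 (C.z 1)
    have e2 := DFunLike.congr_fun h2 (C.z 1)
    simp [C.dual] at e1 e2
    simpa [C.dual] using DFunLike.congr_fun (sp _ e1 e2) (C.z 0)
  have g0 : g ∉ o.F 1 := by simpa using hc 0
  have hJ' : C.D 0 x * C.D 1 g - C.D 0 g * C.D 1 x = J := by rw [hJ, mul_comm (C.D 1 x)]
  let C' : Co L 2 :=
    { z := ![x, g]
      D := ![J⁻¹ • (C.D 1 g • C.D 0 - C.D 0 g • C.D 1), J⁻¹ • (C.D 0 x • C.D 1 - C.D 1 x • C.D 0)]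
      ne := fun i => by
        fin_cases i
        exacts [fun h : x = 0 => by simp [h, o.zero] at hx, (unit_inv hg g0).1]
      dual := fun i j => by
        fin_cases i <;> fin_cases j <;> simp [mul_inv_eq_one₀ J0, hJ', mul_comm]
      span := fun D h => sp D (h 0) (h 1) }
  have h5 : (⊤ : IntermediateField ℂ L).FG := by
    have : Algebra.EssFiniteType ℂ (IntermediateField.adjoin ℂ (Set.range C.z)) :=
      IntermediateField.essFiniteType_iff.2
        (IntermediateField.fg_adjoin_of_finite (Set.finite_range _))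
    exact IntermediateField.fg_top_iff.2
      (Algebra.EssFiniteType.comp ℂ (IntermediateField.adjoin ℂ (Set.range C.z)) L)
  have := C'.fin h5
  have h6 : ∀ i j, C'.D i (C'.z j) ∈ o.F 0 := fun i j => by
    rw [C'.dual]
    split_ifs
    exacts [one_F, zero_mem _]
  refine ⟨C', rfl, cst_F o, fun j => ?_, fun j => der_reg
    (IntermediateField.adjoin ℂ (Set.range C'.z)) hx _ (h6 j 0) (gauss hx hg hc _ (h6 j))⟩
  fin_cases j
  · exact hx
  · exact (o.un_O.1 ⟨(unit_inv hg g0).1, hg, (unit_inv hg g0).2⟩).2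

/-- The exponent of a rationally twisted volume form in adapted coordinates. -/
theorem exp_cv {n : ℕ} {C C' : Co L n} {i : Fin n} (hA : C'.At o i) {d : Dv L} {q : ℕ} {ψ : L}
    (hψ : ψ ≠ 0) (h : ∀ X, d.δ X = C.dv.δ X + X ψ / (q * ψ)) :
    Exp d o ((1 + o.v (C.jac C') + o.v ψ / q : ℚ) : ℂ) := by
  have e : d = (C'.dv.tw (C.jac C') 1).tw ψ (q : ℂ)⁻¹ := Dv.ext' fun X => by
    rw [h, Dv.tw_δ, ← Co.dv_jac, map_inv₀, map_natCast]
    ring
  have := (hA.exp_dv.tw (C.jac_ne C') 1).tw hψ (q : ℂ)⁻¹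
  rw [← e] at this
  have e2 : ((1 + o.v (C.jac C') + o.v ψ / q : ℚ) : ℂ) =
      1 + 1 * o.v (C.jac C') + (q : ℂ)⁻¹ * o.v ψ := by
    push_cast
    ring
  rwa [e2]

end

end Pool.Agent.MP_ee8c61_ag.M3RESID
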