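import Pool.Agent.MP_ee8c61_ag.M3RESID.Cht

/-!
The functional equation and its derivative for vector fields; poles of the primitive.
-/

namespace Pool.Agent.MP_ee8c61_ag.M3RESID

open M3 Finset MvPolynomial
open M3B1 (pd)
open H59 (PX dpol dpol_C coeff_dpol)

variable {N : ℕ} {f : Po N} {M : Mod N} {b : Polynomial ℂ} {β : Fin N → PX N (KK N)}
  {Q : PX N (KK N)} {la : ℚ}

theorem dpol_X (D : VF (KK N)) (i : Option (Fin N)) : dpol _ D (X i : PX N (KK N)) = 0 := by
  classical
  ext e
  rw [coeff_dpol, coeff_X, coeff_zero]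
  split_ifs <;> simp

theorem ev0_C (g : KK N) : ev0 la (C g : PX N (KK N)) = g := eval_C g

theorem ev0_none : ev0 la (X none : PX N (KK N)) = algebraMap ℂ _ (-(la : ℂ)) := by
  simp [ev0]

theorem ev0_some (i : Fin N) : ev0 la (X (some i) : PX N (KK N)) = 0 := by simp [ev0]

theorem ev0_dpol (D : VF (KK N)) (P : PX N (KK N)) : ev0 la (dpol _ D P) = D (ev0 la P) := by
  induction P using MvPolynomial.induction_on with
  | C c => rw [dpol_C, ev0_C, ev0_C]
  | add p q hp hq => simp only [map_add, hp, hq]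
  | mul_X p i hp =>
    have : D (ev0 la (X i : PX N (KK N))) = 0 := by
      rcases i with _ | i
      · rw [ev0_none, Derivation.map_algebraMap]
      · rw [ev0_some, map_zero]
    simp only [Derivation.leibniz, dpol_X, map_mul, smul_eq_mul, hp, this, mul_zero, zero_add]

theorem pderiv_dpol (D : VF (KK N)) (j : Option (Fin N)) (P : PX N (KK N)) :
    pderiv j (dpol _ D P) = dpol _ D (pderiv j P) := by
  classical
  induction P using MvPolynomial.induction_on with
  | C c => rw [dpol_C, pderiv_C, pderiv_C, map_zero]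
  | add p q hp hq => simp only [map_add, hp, hq]
  | mul_X p i hp =>
    have : dpol _ D (pderiv j (X i : PX N (KK N))) = 0 := by
      rw [pderiv_X, Pi.single_apply]
      split_ifs <;> simp
    simp only [Derivation.leibniz, dpol_X, map_add, smul_eq_mul, hp, this, mul_zero, zero_add,
      add_zero]
    ring

theorem ev0_aeval (b : Polynomial ℂ) : ev0 la (Polynomial.aeval (X none : PX N (KK N)) b) =
    algebraMap ℂ _ (b.eval (-(la : ℂ))) := by
  induction b using Polynomial.induction_on' with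
  | add p q hp hq => simp only [map_add, hp, hq, Polynomial.eval_add]
  | monomial n c =>
    rw [Polynomial.aeval_monomial, Polynomial.eval_monomial, map_mul, map_pow, ev0_none,
      MvPolynomial.algebraMap_apply, ev0_C, map_mul, map_pow]

theorem ev0_mem {A : Subalgebra ℂ (KK N)} {g : KK N} {P : PX N (KK N)}
    (h : ∀ e, g * coeff e P ∈ A) : g * ev0 la P ∈ A := by
  rw [ev0, eval_eq', mul_sum]
  refine sum_mem fun e _ => ?_
  rw [← mul_assoc]
  refine mul_mem (h e) (prod_mem fun i _ => pow_mem ?_ _)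
  rcases i with _ | i
  · simpa using A.algebraMap_mem (-(la : ℂ))
  · exact zero_mem _

theorem pderiv_mem {A : Subalgebra ℂ (KK N)} {g : KK N} {P : PX N (KK N)}
    (h : ∀ e, g * coeff e P ∈ A) (j : Option (Fin N)) (e : Option (Fin N) →₀ ℕ) :
    g * coeff e (pderiv j P) ∈ A := by
  rw [coeff_pderiv, ← mul_assoc]
  exact mul_mem (h _) (add_mem (natCast_mem _ _) (one_mem _))

theorem sum_xx (c : Fin N → KK N) (l : Fin N) : (∑ l, c l • pd N l) (xx N l) = c l := by
  rw [sum_ap]
  simp only [Derivation.smul_apply, xx, M3B1.pd_X, smul_eq_mul, mul_ite, mul_one, mul_zero,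
    sum_ite_eq', mem_univ, if_true]

theorem dvf_sum (c : Fin N → KK N) : (dvf f la).δ (∑ l, c l • pd N l) =
    ∑ l, (pd N l (c l) + algebraMap ℂ _ (-(la : ℂ)) * ((ip N f)⁻¹ * pd N l (ip N f)) * c l) := by
  rw [dvf, Dv.tw_δ, Co.dv_δ, sum_add_distrib, sum_ap, sum_div, mul_sum]
  congr 1
  · exact sum_congr rfl fun l _ => congrArg _ (sum_xx c l)
  · refine sum_congr rfl fun l _ => ?_
    rw [Derivation.smul_apply, smul_eq_mul]
    ring

/-- The functional equation at `s = -la`. -/
theorem bf_δ (h : BSd f b β Q) (la : ℚ) :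
    (dvf f la).δ (bf la β) = algebraMap ℂ _ (b.eval (-(la : ℂ))) - ip N f * ev0 la Q := by
  have := congrArg (ev0 la) h.eq
  simp only [ev0_aeval, map_add, map_mul, map_sum, ev0_C, ev0_dpol, ev0_some, ev0_none, zero_mul,
    sum_const_zero, zero_add] at this
  rw [bf, dvf_sum, this, add_sub_cancel_left]

/-- The derivative of the functional equation at `s = -la`. -/
theorem bf1_δ (h : BSd f b β Q) (la : ℚ) :
    (dvf f la).δ (bf1 la β) + bf la β (ip N f) / ip N f =
      algebraMap ℂ _ (b.derivative.eval (-(la : ℂ))) - ip N f * ev0 la (pderiv none Q) := by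
  have h1 : pderiv none (Polynomial.aeval (X none : PX N (KK N)) b) =
      Polynomial.aeval (X none : PX N (KK N)) b.derivative := by
    have := ((pderiv none : Derivation (KK N) (PX N (KK N)) _).restrictScalars ℂ).map_aeval b
      (X none)
    rwa [Derivation.restrictScalars_apply, Derivation.restrictScalars_apply, pderiv_X_self,
      smul_eq_mul, mul_one] at this
  have h2 : ∀ i, pderiv none (X (some i) : PX N (KK N)) = 0 := fun i => pderiv_X_of_ne (by simp)
  have := congrArg (fun P => ev0 la (pderiv none P)) h.eq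
  simp only [h1, h2, ev0_aeval, map_add, map_mul, map_sum, ev0_C, ev0_dpol, ev0_some, ev0_none,
    zero_mul, sum_const_zero, zero_add, Derivation.leibniz, pderiv_C, smul_eq_mul, mul_zero,
    add_zero, pderiv_dpol, pderiv_X_self, mul_one] at this
  rw [bf1, dvf_sum, this, add_sub_cancel_left, bf, sum_ap, sum_div, ← sum_add_distrib]
  refine sum_congr rfl fun l _ => ?_
  rw [Derivation.smul_apply, smul_eq_mul]
  ring

theorem BSd.poles (h : BSd f b β Q) (la : ℚ) : ∃ u : ℕ, (∀ l, ip N f ^ u * bf la β (xx N l) ∈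
    (ip N).range) ∧ ∀ l, ip N f ^ u * bf1 la β (xx N l) ∈ (ip N).range := by
  obtain ⟨u, hu⟩ := h.pol
  exact ⟨u, fun l => by rw [bf, sum_xx]; exact ev0_mem (hu l),
    fun l => by rw [bf1, sum_xx]; exact ev0_mem (pderiv_mem (hu l) none)⟩

theorem BSd.Q0 (h : BSd f b β Q) (la : ℚ) : ev0 la Q ∈ (ip N).range := by
  rw [← one_mul (ev0 la _)]
  exact ev0_mem fun e => by rw [one_mul]; exact h.reg e

theorem BSd.Q1 (h : BSd f b β Q) (la : ℚ) : ev0 la (pderiv none Q) ∈ (ip N).range := by
  rw [← one_mul (ev0 la _)]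
  exact ev0_mem (pderiv_mem (fun e => by rw [one_mul]; exact h.reg e) none)

section Gen

variable {L : Type} [Field L] [Algebra ℂ L] {n : ℕ}

theorem det_mem {A : Subalgebra ℂ L} {J : Matrix (Fin n) (Fin n) L} (h : ∀ i j, J i j ∈ A) :
    J.det ∈ A := by
  rw [Matrix.det_apply']
  exact sum_mem fun σ _ => mul_mem (intCast_mem _ _) (prod_mem fun i _ => h _ _)

/-- A field that is regular in the coordinates `C0` has poles bounded by the Jacobian. -/
theorem Co.jac_mem (C0 C : Co L n) {A : Subalgebra ℂ L} (h : ∀ l i, C.D i (C0.z l) ∈ A)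
    {v : VF L} {g : L} (hv : ∀ l, g * v (C0.z l) ∈ A) (i : Fin n) :
    g * C0.jac C * v (C.z i) ∈ A := by
  obtain ⟨J, hJ⟩ : ∃ J, J = Matrix.of fun l i => C.D i (C0.z l) := ⟨_, rfl⟩
  have h1 : J.mulVec (fun i => g * v (C.z i)) = fun l => g * v (C0.z l) := funext fun l => by
    rw [C.exp_apply v (C0.z l), mul_sum]
    simp only [Matrix.mulVec, dotProduct, hJ, Matrix.of_apply]
    exact sum_congr rfl fun i _ => by ring
  have h2 := congrFun (congrArg J.adjugate.mulVec h1) i
  rw [Matrix.mulVec_mulVec, Matrix.adjugate_mul, Matrix.smul_mulVec, Matrix.one_mulVec] at h2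
  have h3 : ∑ l, J.adjugate i l * (g * v (C0.z l)) ∈ A :=
    sum_mem fun l _ => mul_mem (by
      rw [Matrix.adjugate_apply]
      refine det_mem fun a c => ?_
      rw [Matrix.updateRow_apply]
      split_ifs
      · rw [Pi.single_apply]
        split_ifs
        exacts [one_mem _, zero_mem _]
      · rw [hJ]
        exact h a c) (hv l)
  refine mem_of_eq h3 (Eq.trans ?_ h2)
  rw [Co.jac, ← hJ, Pi.smul_apply, smul_eq_mul]
  ring

/-- The lattice of a field with poles along `f` in a chart where `f` and the Jacobian are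
monomials up to units. -/
theorem Co.pole_G (C0 C : Co L n) {A : Subalgebra ℂ L} (hS : C.St A) (h : ∀ l, C0.z l ∈ A)
    {s : Finset (Fin n)} {f U U' : L} {a k : Fin n → ℤ} (hU : U⁻¹ ∈ A) (hU0 : U ≠ 0)
    (hU' : U'⁻¹ ∈ A) (hU0' : U' ≠ 0) (ef : f = U * C.mon a) (ej : C0.jac C = U' * C.mon k)
    {v : VF L} {u : ℕ} (hv : ∀ l, f ^ u * v (C0.z l) ∈ A) :
    v ∈ C.G A s fun i => -(u * a i + k i + if i ∈ s then 1 else 0) := fun i => by
  have h1 := C0.jac_mem C (fun l i => hS.D i _ (h l)) hv i
  have h2 : C.mon (fun j => if j ∈ s.erase i then 1 else 0) ∈ A :=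
    C.mon_mem hS.z fun j => by
      simp only [Pi.zero_apply]
      split_ifs <;> simp
  have h3 : C.mon a ^ u = C.mon fun j => u * a j := by
    rw [Co.mon, ← prod_pow]
    exact prod_congr rfl fun j _ => by rw [← zpow_natCast, ← zpow_mul, mul_comm]
  have h4 : (if i ∈ s then C.z i else 1) = C.mon (Pi.single i (if i ∈ s then 1 else 0)) := by
    rw [C.mon_single]
    split_ifs <;> simp
  have h5 : (if i ∈ s then C.z i else 1) *
      C.mon (fun i => -(u * a i + k i + if i ∈ s then 1 else 0)) *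
      (C.mon a ^ u * C.mon k * C.mon fun j => if j ∈ s.erase i then 1 else 0) = 1 := by
    rw [h3, h4, ← C.mon_add, ← C.mon_add, ← C.mon_add, ← C.mon_add, ← C.mon_zero]
    refine congrArg _ (funext fun j => ?_)
    by_cases hj : j = i
    · subst hj
      simp
    · simp only [Pi.add_apply, Pi.single_eq_of_ne hj, mem_erase, ne_eq, hj, not_false_eq_true,
        true_and, Pi.zero_apply]
      ring
  refine mem_of_eq (mul_mem (mul_mem (mul_mem h1 h2) (pow_mem hU u)) hU') ?_
  rw [div_eq_mul_inv, ← eq_inv_of_mul_eq_one_right h5, ef, ej, mul_pow, inv_pow]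
  field_simp

end Gen

/-- The primitive and its derivative have poles on the boundary only. -/
theorem cht_pole (h : M.OK f) (a : M.ι) {v : VF (KK N)} {u : ℕ}
    (hv : ∀ l, ip N f ^ u * v (xx N l) ∈ (ip N).range) :
    ∃ c : Fin N → ℤ, (∀ i ∉ ls M a, c i = 0) ∧ (∀ i, c i ≤ 0) ∧
      (∀ v', (∀ l, ip N f ^ u * v' (xx N l) ∈ (ip N).range) →
        v' ∈ (cht h a).G (M.S.A a) (ls M a) c) ∧ v ∈ (cht h a).G (M.S.A a) (ls M a) c := by
  obtain ⟨U, -, h2, h3, e⟩ := cht_f h a
  obtain ⟨U', -, h2', h3', e'⟩ := cht_jac h a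
  have key : ∀ v' : VF (KK N), (∀ l, ip N f ^ u * v' (xx N l) ∈ (ip N).range) → _ := fun v' hv' =>
    (co N).pole_G (cht h a) (cht_st h a) (fun l => h.pol a _) (s := ls M a) h2 h3 h2' h3' e e'
      (v := v') (u := u) fun l => by
        obtain ⟨p, hp⟩ := hv' l
        exact hp ▸ h.pol a p
  refine ⟨_, fun i hi => by simp [lf_none hi, hi], fun i => ?_, key, key v hv⟩
  have h4 : ∀ c : M.J → ℕ, 0 ≤ lf M a (fun j => (c j : ℤ)) i := fun c =>
    sum_nonneg fun j _ => by split_ifs <;> simp
  have := h4 M.a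
  have := h4 M.k
  refine neg_nonpos.2 (add_nonneg (add_nonneg (mul_nonneg (Int.natCast_nonneg u) (h4 M.a))
    (h4 M.k)) ?_)
  split_ifs <;> simp

end Pool.Agent.MP_ee8c61_ag.M3RESID
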