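import Pool.Agent.MP_ee8c61_ag.M3.Frame
import Pool.Agent.MP_ee8c61_ag.M3RESID.Eqn
import Pool.Agent.MP_ee8c61_ag.M3RESID.Crv

/-!
The residue field of a divisor of a model: coordinates, volume form and primitive.
-/

namespace Pool.Agent.MP_ee8c61_ag.M3RESID

open M3 Finset

noncomputable section

section Gen

variable {L k : Type} [Field L] [Algebra ℂ L] [Field k] [Algebra ℂ k] {n : ℕ}

/-- The residue map on a subring as a homomorphism. -/
def Pl.hom (P : Pl L k) (A : Subalgebra ℂ L) (h : ∀ g ∈ A, g ∈ P.o.F 0) : A →ₐ[ℂ] k where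
  toFun g := P.π g
  map_one' := P.π_one
  map_mul' g g' := P.mul _ (h _ g.2) _ (h _ g'.2)
  map_zero' := P.π_zero
  map_add' g g' := P.add _ (h _ g.2) _ (h _ g'.2)
  commutes' c := P.π_cst c

variable {P : Pl L k} {A : Subalgebra ℂ L}

theorem Pl.frac (hl : Lz A (oA P.o)) (y : k) :
    ∃ s ∈ A, ∃ t ∈ A, P.π s ≠ 0 ∧ y = P.π t / P.π s := by
  obtain ⟨g, hg, rfl⟩ := P.surj y
  obtain ⟨s, hs, h0, h1, h2⟩ := hl.frac g hg
  have h3 := P.mul s (hl.le hs) _ h1
  rw [mul_inv_cancel₀ h0, P.π_one] at h3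
  have h4 := left_ne_zero_of_mul_eq_one h3.symm
  exact ⟨s, hs, _, h2, h4, by rw [P.mul s (hl.le hs) g hg, mul_div_cancel_left₀ _ h4]⟩

theorem Pl.fg (hl : Lz A (oA P.o)) (hA : A.FG) : (⊤ : IntermediateField ℂ k).FG := by
  classical
  obtain ⟨T, hT⟩ := hA
  refine ⟨T.image P.π, eq_top_iff.2 fun y _ => ?_⟩
  have key : ∀ g ∈ A, P.π g ∈ IntermediateField.adjoin ℂ (T.image P.π : Set k) := fun g hg => by
    have h0 : ∀ g ∈ Algebra.adjoin ℂ (T : Set L), g ∈ P.o.F 0 := fun g hg => hl.le (hT ▸ hg)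
    rw [← hT] at hg
    induction hg using Algebra.adjoin_induction with
    | mem x hx => exact IntermediateField.subset_adjoin _ _ (mem_coe.2 (mem_image_of_mem _ hx))
    | algebraMap r => rw [P.π_cst]; exact IntermediateField.algebraMap_mem _ r
    | add x y hx hy h1 h2 => rw [P.add x (h0 x hx) y (h0 y hy)]; exact add_mem h1 h2
    | mul x y hx hy h1 h2 => rw [P.mul x (h0 x hx) y (h0 y hy)]; exact mul_mem h1 h2
  obtain ⟨s, hs, t, ht, -, rfl⟩ := Pl.frac hl y
  exact div_mem (key t ht) (key s hs)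

/-- A dual system of the right size spans. -/
theorem Co.span_of (C0 : Co k n) {z : Fin n → k} {D : Fin n → VF k}
    (h : ∀ i j, D i (z j) = if i = j then 1 else 0) (v : VF k) (hv : ∀ i, v (z i) = 0) :
    v = 0 := by
  have h1 : (Matrix.of fun j l => C0.D l (z j)) * (Matrix.of fun l i => D i (C0.z l)) = 1 := by
    ext j i
    rw [Matrix.mul_apply, Matrix.one_apply]
    simp only [Matrix.of_apply, mul_comm (C0.D _ _)]
    rw [← C0.exp_apply, h]
    simp only [eq_comm]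
  have h2 : (Matrix.of fun j l => C0.D l (z j)).mulVec (fun l => v (C0.z l)) = 0 :=
    funext fun j => by
      simp only [Matrix.mulVec, dotProduct, Matrix.of_apply, mul_comm (C0.D _ _)]
      rw [← C0.exp_apply, hv]
      rfl
  have h3 := congrArg (Matrix.of fun l i => D i (C0.z l)).mulVec h2
  rw [Matrix.mulVec_mulVec, mul_eq_one_comm.1 h1, Matrix.one_mulVec, Matrix.mulVec_zero] at h3
  exact C0.span v (congrFun h3)

/-- Adapted coordinates restrict to coordinates of a residue field of the right dimension. -/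
theorem Pl.exists_RsC' (C0 : Co k n) {C : Co L (n + 1)} {i : Fin (n + 1)} (h : C.At P.o i) :
    ∃ C' : Co k n, P.RsC C i C' := by
  choose D hD using fun j => Pl.exists_Rs (P := P) (h.D_LV (i.succAbove_ne j))
  refine Pl.exists_RsC h (C0.span_of (D := D) fun j l => ?_)
  rw [← (hD j).2 _ (h.z_F _), C.dual]
  by_cases hj : j = l
  · simp [hj, P.π_one]
  · simp [hj, P.π_zero]

theorem Co.fg (C : Co k n)
    (h : FiniteDimensional (IntermediateField.adjoin ℂ (Set.range C.z)) k) :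
    (⊤ : IntermediateField ℂ k).FG := by
  have : Algebra.EssFiniteType ℂ (IntermediateField.adjoin ℂ (Set.range C.z)) :=
    IntermediateField.essFiniteType_iff.2
      (IntermediateField.fg_adjoin_of_finite (Set.finite_range _))
  exact IntermediateField.fg_top_iff.2
    (Algebra.EssFiniteType.comp ℂ (IntermediateField.adjoin ℂ (Set.range C.z)) k)

theorem dlog_mul (v : VF L) {g h : L} (hg : g ≠ 0) (hh : h ≠ 0) :
    v (g * h) / (g * h) = v g / g + v h / h := by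
  rw [Derivation.leibniz, smul_eq_mul, smul_eq_mul]
  field_simp
  ring

theorem dlog_zpow (v : VF L) {g : L} (hg : g ≠ 0) (m : ℤ) : v (g ^ m) / g ^ m = m * (v g / g) := by
  rw [Dv.zpow_der v g hg, mul_right_comm, mul_div_cancel_right₀ _ (zpow_ne_zero _ hg)]

end Gen

variable {n : ℕ} {f : Po (n + 1)} {M : M3.Mod (n + 1)} {k : Type} [Field k] [Algebra ℂ k]
  {P : Pl (KK (n + 1)) k} {b : M.ι} {j : M.J} {i : Fin (n + 1)}

theorem cht_lz (h : M.OK f) (hl : M.S.lab b j = some i) (hj : (M.η b j)⁻¹ ∉ M.S.A b) :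
    Lz (M.S.A b) (oA (M.v j)) :=
  lz_oA (cht_dat h hl hj).adp.vz (cht_frac h b) (cht_dat h hl hj).le (cht_dat h hl hj).div

/-- The coordinates of a chart restrict to coordinates of the residue field of a divisor. -/
theorem exists_rch (h : M.OK f) (hl : M.S.lab b j = some i) (hj : (M.η b j)⁻¹ ∉ M.S.A b)
    (hP : P.o = M.v j) : ∃ C' : Co k n, P.RsC (cht h b) i C' := by
  have hd := cht_dat h hl hj
  have hz := cht_lz h hl hj
  rw [← hP] at hd hz
  refine Pl.exists_RsC hd.adp fun w hw => Derivation.ext fun y => ?_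
  have key := chart_der h (P.hom _ hd.le) w fun l => by
    refine Fin.succAboveCases i ?_ hw l
    exact (congrArg w (P.π_F1 (Or.inr hd.adp.vz.ge))).trans (map_zero w)
  obtain ⟨s, hs, t, ht, -, rfl⟩ := Pl.frac hz y
  have h1 : w (P.π s) = 0 := key ⟨s, hs⟩
  have h2 : w (P.π t) = 0 := key ⟨t, ht⟩
  simp [Derivation.leibniz_div, h1, h2]

theorem kf_fg (h : M.OK f) (hP : P.o = M.v j) : (⊤ : IntermediateField ℂ k).FG := by
  obtain ⟨b, hb⟩ := h.ne j
  obtain ⟨i, hi⟩ := lab_of hb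
  exact Pl.fg (hP ▸ cht_lz h hi hb) (chart_fg h b)

/-- Every field on the residue field of a divisor lifts. -/
theorem kf_lift (h : M.OK f) (hP : P.o = M.v j) (w : VF k) : ∃ v, P.Rs v w := by
  obtain ⟨b, hb⟩ := h.ne j
  obtain ⟨i, hi⟩ := lab_of hb
  obtain ⟨C', hC⟩ := exists_rch h hi hb hP
  exact hC.lift (hP ▸ (cht_dat h hi hb).adp) w

theorem v_f (h : M.OK f) (j : M.J) : (M.v j).v (ip _ f) = M.a j := by
  obtain ⟨b, hb⟩ := h.ne j
  obtain ⟨i, hi⟩ := lab_of hb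
  have hd := cht_dat h hi hb
  obtain ⟨U, h1, h2, h3, e⟩ := cht_f h b
  have h4 := (hd.le _ h1).resolve_left h3
  have h5 := (hd.le _ h2).resolve_left (inv_ne_zero h3)
  rw [DV.inv] at h5
  rw [e, DV.mul _ _ _ h3 (Co.mon_ne _ _), hd.adp.v_mon, lf_some hi, Mod.aa]
  omega

theorem pol_F (h : M.OK f) (j : M.J) {g : KK (n + 1)} (hg : g ∈ (ip (n + 1)).range) :
    g ∈ (M.v j).F 0 := by
  obtain ⟨b, hb⟩ := h.ne j
  obtain ⟨p, rfl⟩ := hg
  exact (h.dv b j hb).1 _ (h.pol b p)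

variable {la : ℚ} {B : Polynomial ℂ} {β : Fin (n + 1) → H59.PX (n + 1) (KK (n + 1))}
  {Q : H59.PX (n + 1) (KK (n + 1))}

theorem fQ_F (h : M.OK f) (H : BSd f B β Q) (la : ℚ) (j : M.J) :
    ip _ f * ev0 la Q ∈ (M.v j).F 1 :=
  F_mul0' (Or.inr (by have := h.pos j; rw [v_f h]; omega)) (pol_F h j (BSd.Q0 H la))

theorem exp_v0 (h : M.OK f) (h0 : M.ex la j = 0) : Exp (dvf f la) (M.v j) 0 := by
  simpa [h0] using exp_v h la j

/-- The residue of the primitive is a primitive. -/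
theorem res_prim (h : M.OK f) (H : BSd f B β Q) (hP : P.o = M.v j) {e : Dv k} {v : VF k}
    (he : P.RsD (dvf f la) e) (hv : P.Res (dvf f la) (bf la β) v) :
    e.δ v = algebraMap ℂ k (B.eval (-(la : ℂ))) := by
  rw [hv.δ he, bf_δ H, Pl.π_congr (cst_F _ _) (by
    rw [sub_sub_cancel_left]
    exact neg_mem (hP ▸ fQ_F h H la j)), P.π_cst]

/-- The residue of the volume form is rationally twisted. -/
theorem exists_rat (h : M.OK f) (h0 : M.ex la j = 0) (hP : P.o = M.v j) :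
    ∃ (C' : Co k n) (ψ : k) (e : Dv k), ψ ≠ 0 ∧ P.RsD (dvf f la) e ∧
      ∀ Y, e.δ Y = C'.dv.δ Y + Y ψ / (la.den * ψ) := by
  obtain ⟨b, hb⟩ := h.ne j
  obtain ⟨i, hi⟩ := lab_of hb
  obtain ⟨C', hC⟩ := exists_rch h hi hb hP
  have hd := cht_dat h hi hb
  have vf := v_f h j
  rw [← hP] at hd vf
  obtain ⟨C, eC⟩ : ∃ C, C = cht h b := ⟨_, rfl⟩
  have vj : P.o.v ((co _).jac C) = M.k j := by
    obtain ⟨U, h1, h2, h3, e⟩ := cht_jac h b
    have h4 := (hd.le _ h1).resolve_left h3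
    have h5 := (hd.le _ h2).resolve_left (inv_ne_zero h3)
    rw [DV.inv] at h5
    rw [eC, e, DV.mul _ _ _ h3 (Co.mon_ne _ _), hd.adp.v_mon, lf_some hi, Mod.kk]
    omega
  rw [← eC] at hC hd
  have z0 := C.ne i
  have un : ∀ {g : KK (n + 1)}, g ≠ 0 → g * C.z i ^ (-P.o.v g) ≠ 0 ∧
      P.o.v (g * C.z i ^ (-P.o.v g)) = 0 := fun hg =>
    ⟨mul_ne_zero hg (zpow_ne_zero _ z0), by
      rw [DV.mul _ _ _ hg (zpow_ne_zero _ z0), v_zpow _ z0, hd.adp.vz]
      ring⟩
  have j0 := (co (n + 1)).jac_ne C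
  obtain ⟨j1, j2⟩ := un j0
  obtain ⟨f1, f2⟩ := un (f_ne h)
  have E1 := hd.adp.exp_dv.tw z0 (-1)
  have R := ((hC.dv hd.adp).tw E1.reg j1 j2 1).tw (E1.tw j1 1).reg f1 f2 (-(la : ℂ))
  have e0 : algebraMap ℂ (KK (n + 1)) la * (M.a j : KK (n + 1)) = M.k j + 1 := by
    have : (la : ℂ) * M.a j = M.k j + 1 := by
      have := sub_eq_zero.1 h0
      exact_mod_cast this.symm
    simpa using congrArg (algebraMap ℂ (KK (n + 1))) this
  have e1 : dvf f la = ((C.dv.tw (C.z i) (-1)).tw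
      ((co _).jac C * C.z i ^ (-P.o.v ((co _).jac C))) 1).tw
      (ip _ f * C.z i ^ (-P.o.v (ip _ f))) (-(la : ℂ)) := Dv.ext' fun v => by
    rw [dvf, Co.dv_jac _ C]
    simp only [Dv.tw_δ]
    rw [dlog_mul v j0 (zpow_ne_zero (-P.o.v ((co _).jac C)) z0),
      dlog_mul v (f_ne h) (zpow_ne_zero (-P.o.v (ip _ f)) z0), dlog_zpow v z0, dlog_zpow v z0,
      vj, vf]
    simp only [map_neg, map_one, Int.cast_neg, Int.cast_natCast]
    linear_combination (-(v (C.z i) / C.z i)) * e0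
  rw [← e1] at R
  have p1 := Pl.π_ne j1 j2
  have p2 := Pl.π_ne f1 f2
  have q1 := zpow_ne_zero (la.den : ℤ) p1
  have q2 := zpow_ne_zero (-la.num) p2
  refine ⟨C', _, _, mul_ne_zero q1 q2, R, fun Y => ?_⟩
  have : CharZero k := charZero_of_injective_algebraMap (algebraMap ℂ k).injective
  have d0 : (la.den : k) ≠ 0 := Nat.cast_ne_zero.2 la.den_nz
  rw [mul_comm (la.den : k), ← div_div, dlog_mul Y q1 q2, dlog_zpow Y p1, dlog_zpow Y p2]
  simp only [Dv.tw_δ, map_neg, map_one, map_ratCast, Int.cast_neg, Int.cast_natCast]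
  rw [Rat.cast_def]
  field_simp
  ring

theorem rowIAV : IAV := by
  intro f la b β Q M o H hM ho
  obtain ⟨C', ψ, e, h1, h2, h3⟩ := exists_rat (P := (M.v o).pl) hM ho rfl
  obtain ⟨v, hv⟩ := Pl.exists_Res (P := (M.v o).pl) (exp_v0 hM ho) (v := bf la β) (by
    rw [bf_δ H.bs]
    exact sub_mem (cst_F _ _) ((M.v o).F_anti zero_le_one (fQ_F hM H.bs la o)))
  exact ⟨⟨C', la.den, ψ, e, v⟩, C'.fin (kf_fg (P := (M.v o).pl) hM rfl), la.pos, h1, h3, h2, hv⟩

end

end Pool.Agent.MP_ee8c61_ag.M3RESID
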