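import Pool.Agent.MP_ee8c61_ag.M3.FKit
import Pool.Agent.MP_ee8c61_ag.M3E.RBas1
import Pool.Agent.MP_ee8c61_ag.M3KV.Spec
import Pool.Agent.MP_ee8c61_ag.M3RESID.RAV
import Pool.Agent.MP_ee8c61_ag.M3RESID.CvAt

/-!
Exponents and regularity of the primitive along curves on a divisor.
-/

namespace Pool.Agent.MP_ee8c61_ag.M3RESID

open M3 Finset

section Gen

variable {L k : Type} [Field L] [Algebra ℂ L] [Field k] [Algebra ℂ k] {n : ℕ} {Γ : DV k}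

omit [Algebra ℂ k] in
theorem v_near {y y' : k} (h0 : y ≠ 0) (h : y' - y ∈ Γ.F (Γ.v y + 1)) :
    y' ≠ 0 ∧ Γ.v y' = Γ.v y := by
  have h1 : y ∉ Γ.F (Γ.v y + 1) := fun e => by
    have := e.resolve_left h0
    omega
  have h2 : y' ∉ Γ.F (Γ.v y + 1) := fun e => h1 (by simpa using sub_mem e h)
  have h3 : y' ≠ 0 := fun e => h2 (Or.inl e)
  have h4 : y' ∈ Γ.F (Γ.v y) := by
    simpa using add_mem (Γ.F_anti (by omega) h : _ ∈ Γ.F (Γ.v y)) (Γ.mem_F_self y)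
  have h5 := h4.resolve_left h3
  exact ⟨h3, by_contra fun e => h2 (Or.inr (by omega))⟩

variable {A : Subalgebra ℂ k}

theorem step_one {p : k} {r : ℤ} (hr : 0 < r) (hp : Γ.v p = 1)
    (hf : ∀ g, ∃ s ∈ A, s ≠ 0 ∧ s * g ∈ A) (le : ∀ g ∈ A, g ∈ Γ.F 0)
    (st : ∀ g ∈ A, g ≠ 0 → Γ.v g ≠ 0 → ∃ g' ∈ A, g' ≠ 0 ∧ Γ.v g' = Γ.v g - r) : r = 1 := by
  have key : ∀ (m : ℕ), ∀ g ∈ A, g ≠ 0 → Γ.v g = m → r ∣ Γ.v g := fun m => by
    induction m using Nat.strong_induction_on with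
    | _ m ih =>
      intro g hg h0 hm
      by_cases h1 : Γ.v g = 0
      · simp [h1]
      obtain ⟨g', h2, h3, h4⟩ := st g hg h0 h1
      have h5 := (le g' h2).resolve_left h3
      have := ih (Γ.v g').toNat (by omega) g' h2 h3 (by omega)
      rw [h4] at this
      simpa using this.add (dvd_refl r)
  have key' : ∀ g ∈ A, g ≠ 0 → r ∣ Γ.v g := fun g hg h0 =>
    key (Γ.v g).toNat g hg h0 (by have := (le g hg).resolve_left h0; omega)
  have p0 : p ≠ 0 := fun e => by simp [e, Γ.zero] at hp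
  obtain ⟨s, hs, h0, h1⟩ := hf p
  have h2 := key' _ h1 (mul_ne_zero h0 p0)
  rw [Γ.mul _ _ h0 p0, hp] at h2
  exact Int.eq_one_of_dvd_one hr.le ((dvd_add_right (key' s hs h0)).1 h2)

/-- A ring whose centre is principal has the valuation ring as a localisation. -/
theorem lz_of_div {p x : k} (hp : Γ.v p = 1) (hf : ∀ g, ∃ s ∈ A, s ≠ 0 ∧ s * g ∈ A)
    (le : ∀ g ∈ A, g ∈ Γ.F 0) (h0 : x ≠ 0) (hx : x ∈ Γ.F 1)
    (dv : ∀ g ∈ A, g ∈ Γ.F 1 → g / x ∈ A) : Lz A (oA Γ) := by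
  have h1 := hx.resolve_left h0
  refine lz_oA (step_one (by omega) hp hf le fun g hg g0 g1 => ?_) hf le dv
  have := (le g hg).resolve_left g0
  exact ⟨g / x, dv g hg (Or.inr (by omega)), div_ne_zero g0 h0, Γ.div g0 h0⟩

/-- A field that keeps a large subring and is regular on the transversal coordinates keeps the
valuation ring. -/
theorem Co.At.reg_of_sub {C : Co k n} {i : Fin n} (h : C.At Γ i)
    (hf : ∀ g, ∃ s ∈ A, s ≠ 0 ∧ s * g ∈ A) (le : ∀ g ∈ A, g ∈ Γ.F 0) {D : VF k}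
    (hD : ∀ g ∈ A, D g ∈ A) (hz : ∀ j ≠ i, D (C.z j) ∈ Γ.F 0) : ∀ g ∈ Γ.F 0, D g ∈ Γ.F 0 := by
  refine Co.reg_of h.D fun j => ?_
  by_cases hj : j = i
  swap
  · exact hz j hj
  subst hj
  by_contra ha
  have z0 := C.ne j
  obtain ⟨a, ea⟩ : ∃ a, a = D (C.z j) / C.z j := ⟨_, rfl⟩
  have a0 : D (C.z j) ≠ 0 := fun e => ha (Or.inl e)
  have a1 : Γ.v (D (C.z j)) < 0 := not_le.1 fun e => ha (Or.inr e)
  have a2 : a ≠ 0 := ea ▸ div_ne_zero a0 z0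
  have a3 : Γ.v a = Γ.v (D (C.z j)) - 1 := by rw [ea, Γ.div a0 z0, h.vz]
  have hR : D - a • C.th j ∈ LV Γ 0 := h.mem_LV.2 ⟨Or.inl (by
      rw [Derivation.sub_apply, Derivation.smul_apply, C.th_z, if_pos rfl, ea, smul_eq_mul,
        div_mul_cancel₀ _ z0, sub_self]), fun l hl => by
    rw [Derivation.sub_apply, Derivation.smul_apply, C.th_z, if_neg hl.symm, smul_zero, sub_zero]
    exact hz l hl⟩
  have := step_one (r := -Γ.v a) (by omega) h.vz hf le fun g hg g0 g1 => by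
    have c0 : algebraMap ℂ k (Γ.v g) ≠ 0 := (map_ne_zero _).2 (Int.cast_ne_zero.2 g1)
    have e1 : Γ.v (a * (algebraMap ℂ k (Γ.v g) * g)) = Γ.v a + Γ.v g := by
      rw [Γ.mul _ _ a2 (mul_ne_zero c0 g0), Γ.mul _ _ c0 g0, v_cst, zero_add]
    obtain ⟨h1, h2⟩ := v_near (y' := D g) (mul_ne_zero a2 (mul_ne_zero c0 g0)) (by
      rw [e1, add_assoc]
      refine F_of_eq (add_mem (Γ.F_mul (Γ.mem_F_self a) (h.eul _ g (Γ.mem_F_self g)))
        (Γ.F_anti (by omega) (hR _ g (Γ.mem_F_self g)))) ?_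
      rw [Derivation.sub_apply, Derivation.smul_apply, smul_eq_mul, map_intCast]
      ring)
    exact ⟨D g, hD g hg, h1, by rw [h2, e1]; ring⟩
  omega

variable {P : Pl L k} {C : Co L (n + 1)} {i : Fin (n + 1)} {C' : Co k n} {O : Subalgebra ℂ L}
  {O' : Subalgebra ℂ k} {d : Dv L} {e : Dv k} {a : Fin (n + 1) → ℂ}

theorem Pl.RsO.frac (hO : P.RsO O O') (hl : Lz O (oA P.o)) (g : k) :
    ∃ s ∈ O', s ≠ 0 ∧ s * g ∈ O' := by
  obtain ⟨s, hs, t, ht, h0, rfl⟩ := Pl.frac hl g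
  exact ⟨_, hO.mem hs, h0, by rw [mul_div_cancel₀ _ h0]; exact hO.mem ht⟩

/-- A chart on the place whose restriction is a chart at `Γ`. -/
structure Nr (P : Pl L k) (Γ : DV k) (C : Co L (n + 1)) (i : Fin (n + 1)) (C' : Co k n)
    (O : Subalgebra ℂ L) : Prop where
  rs : P.RsC C i C'
  st : C.St O
  dat : C.Dat O P.o i
  le : ∀ g ∈ O, P.π g ∈ Γ.F 0
  D : ∀ j, ∀ y ∈ Γ.F 0, C'.D j y ∈ Γ.F 0
  un : ∃ p, Γ.v p = 1

namespace Nr

variable (h : Nr P Γ C i C' O)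
include h

theorem z (j : Fin n) : C'.z j ∈ Γ.F 0 := h.rs j ▸ h.le _ (h.st.z _)

theorem rso : ∃ O', P.RsO O O' ∧ O' ≤ oA Γ := by
  obtain ⟨O', hO⟩ := Pl.exists_RsO h.dat.le
  refine ⟨O', hO, fun y hy => ?_⟩
  obtain ⟨g, hg, rfl⟩ := (hO y).1 hy
  exact h.le g hg

theorem ad (hd : Exp d P.o 0) (he : P.RsD d e) (ha : C.Ad O d a) :
    C'.Ad (oA Γ) e fun j => a (i.succAbove j) :=
  h.rso.elim fun _ hO => (h.rs.Ad h.dat hO.1 hd he ha).mono hO.2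

/-- The exponent along the trace of a coordinate. -/
theorem exp (hd : Exp d P.o 0) (he : P.RsD d e) (ha : C.Ad O d a) {j : Fin n}
    (hj : C'.z j ∈ Γ.F 1) : Exp e Γ (a (i.succAbove j)) := by
  obtain ⟨p, hp⟩ := h.un
  have h1 := Co.at_of hp h.z h.D hj
  exact Co.Dat.exp ⟨h1, fun _ hg => hg, fun g _ hg => by
    simpa [h1.vz, mem_oA] using F_div hg (C'.z j)⟩ (h.ad hd he ha)

theorem inv {j : Fin n} (hj : (C.z (i.succAbove j))⁻¹ ∈ O) : (C'.z j)⁻¹ ∈ oA Γ := by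
  have := h.le _ hj
  rwa [← zpow_neg_one, Pl.π_zpow (C.ne _) (h.dat.adp.vz' (i.succAbove_ne j)), zpow_neg_one,
    ← h.rs j] at this

/-- The exponent away from the boundary. -/
theorem exp_one (hk : (⊤ : IntermediateField ℂ k).FG) (hd : Exp d P.o 0) (he : P.RsD d e)
    (ha : C.Ad O d a) (hs : ∀ l ≠ i, a l = 1 ∨ (C.z l)⁻¹ ∈ O) : Exp e Γ 1 := by
  obtain ⟨p, hp⟩ := h.un
  have := C'.fin hk
  refine Co.exp_one inferInstance hp h.z h.D fun j => ?_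
  have h1 := h.ad hd he ha j
  rcases hs _ (i.succAbove_ne j) with h2 | h2
  · exact Co.δ_D (O := oA Γ) (by simpa only [h2] using h1)
  · exact Co.δ_D_unit h1 (h.inv h2)

/-- The primitive away from the boundary. -/
theorem good (hd : Exp d P.o 0) (he : P.RsD d e) (ha : d.δ (C.th i) / C.z i ∈ O)
    {s : Finset (Fin (n + 1))} (hi : i ∈ s) (hs : ∀ l ∈ s, l ≠ i → (C.z l)⁻¹ ∈ O)
    {c : Fin (n + 1) → ℤ} (hc : ∀ l ∉ s, c l = 0) {v : VF L} (hv : v ∈ C.G O s c)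
    (hδ : d.δ v ∈ O) {w : VF k} (hw : P.Res d v w) : M3F.Good e w Γ := by
  obtain ⟨O', hO, hl⟩ := h.rso
  obtain ⟨w', h1, h2⟩ := h.rs.loc h.dat hO h.st ha hi hv (by
    have := Co.mon_unit h.st.z (c := -Function.update c i 0) fun l => by
      by_cases e : l = i
      · simp [e]
      by_cases e' : l ∈ s
      · exact Or.inr (hs l e' e)
      · simp [e, hc l e']
    have e := C.mon_add (Function.update c i 0) (-Function.update c i 0)
    rw [add_neg_cancel, C.mon_zero] at e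
    rw [div_eq_mul_inv, ← eq_inv_of_mul_eq_one_right e.symm]
    exact mul_mem hδ this)
  refine ⟨w - w', Pl.Res.uniq h.rs h.dat.adp hd he hw h2, ?_⟩
  rw [sub_sub_cancel]
  exact Co.reg_of h.D (Co.G_reg (O := oA Γ) h.z (fun j hj => hc _ (by simpa using hj))
    (fun j hj => h.inv (hs _ (by simpa using hj) (i.succAbove_ne j))) (Co.G_mono hl _ _ h1))

end Nr

end Gen

variable {n : ℕ} {f : Po (n + 1)} {W : M3.Mod (n + 1)} {k : Type} [Field k] [Algebra ℂ k]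
  {P : Pl (KK (n + 1)) k} {Γ : DV k} {b : W.ι} {o : W.J} {la : ℚ} {e : Dv k}

/-- The local ring of a chart at a refinement of a divisor. -/
theorem exists_lc (hW : W.OK f) (hP : P.o = W.v o) (hb : W.In b (lift P Γ)) :
    ∃ i C' O', W.S.lab b o = some i ∧ P.RsC (cht hW b) i C' ∧
      (cht hW b).St (lcA (W.S.A b) (lift P Γ)) ∧
      (cht hW b).Dat (lcA (W.S.A b) (lift P Γ)) P.o i ∧ P.RsO (lcA (W.S.A b) (lift P Γ)) O' ∧
      C'.St O' ∧ (∀ g, ∃ s ∈ O', s ≠ 0 ∧ s * g ∈ O') ∧ ∀ g ∈ O', g ∈ Γ.F 0 := by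
  have hB := M3E.rowBas1 _ f W hW
  obtain ⟨-, h1, ⟨i, hi⟩, -⟩ := hB.in_v b _ o hb (Lv.thru ⟨hB, hP, b, hb⟩)
  obtain ⟨C', hC⟩ := exists_rch hW hi h1 hP
  have hl := lz_lcA (W.S.A b) (lift P Γ)
  have h2 := lcA_le hb
  have h3 : (cht hW b).Dat _ P.o i := (hP ▸ cht_dat hW hi h1).lz hl fun g hg => (h2 g hg).1
  have h4 := (cht_st hW b).lz hl
  obtain ⟨O', hO⟩ := Pl.exists_RsO h3.le
  refine ⟨i, C', O', hi, hC, h4, h3, hO, hC.st h3 hO h4, hO.frac (lz_oA h3.adp.vz (fun g => ?_)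
    h3.le h3.div), fun y hy => ?_⟩
  · obtain ⟨s, hs, h5, h6⟩ := cht_frac hW b g
    exact ⟨s, hl.le hs, h5, hl.le h6⟩
  · obtain ⟨g, hg, rfl⟩ := (hO y).1 hy
    exact (h2 g hg).2

theorem lc_inv {K : Type} [Field K] [Algebra ℂ K] {A : Subalgebra ℂ K} {V : ValuationSubring K}
    {s : K} (hs : s ∈ A) (h : Un V s) : s⁻¹ ∈ lcA A V :=
  ⟨s, hs, h, by rw [mul_inv_cancel₀ h.1]; exact one_mem _⟩

/-- The chart at an intersection curve. -/
theorem nr_isCv (hW : W.OK f) (hP : P.o = W.v o) {p : k} (hp : Γ.v p = 1) {j : W.J}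
    (hc : W.IsCv o j (lift P Γ)) (hb : W.In b (lift P Γ)) :
    ∃ i l C', W.S.lab b o = some i ∧ W.S.lab b j = some (i.succAbove l) ∧ C'.z l ∈ Γ.F 1 ∧
      Nr P Γ (cht hW b) i C' (lcA (W.S.A b) (lift P Γ)) := by
  have hB := M3E.rowBas1 _ f W hW
  have hL : Lv W o P Γ := ⟨hB, hP, b, hb⟩
  obtain ⟨i, C', O', hi, hC, h1, h2, hO, h3, h4, h5⟩ := exists_lc hW hP hb
  obtain ⟨-, -, ⟨i', hi'⟩, -⟩ := hB.in_v b _ j hb hc.2.2.2.1
  obtain ⟨l, rfl⟩ := Fin.exists_succAbove_eq (x := i') (y := i) fun e =>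
    hc.1 (W.S.lab_inj b _ _ i (e ▸ hi') hi)
  have e1 : C'.z l = P.π (W.η b j) := (hC l).trans (congrArg _ (W.S.η_some b j _ hi').symm)
  have F1 : ∀ g ∈ lift P Γ, ¬Un (lift P Γ) g ↔ P.π g ∈ Γ.F 1 := fun g hg => by
    rw [un_lift]
    by_cases h0 : P.π g = 0
    · simp [h0]
    have := hg.2.resolve_left h0
    simp only [DV.mem_F, h0, hg.1, ne_eq, not_false_eq_true, true_and, false_or]
    omega
  have e2 : C'.z l ∈ Γ.F 1 := e1 ▸ (F1 _ (hb _ (hB.η_mem b j))).1 (hc.2.2.2.1 b hb)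
  have hl := lz_lcA (W.S.A b) (lift P Γ)
  refine ⟨i, l, C', hi, hi', e2, hC, h1, h2, fun g hg => (lcA_le hb g hg).2,
    (h3.lz (lz_of_div hp h4 h5 (C'.ne l) e2 fun y hy y1 => ?_)).D, p, hp⟩
  obtain ⟨g, hg, rfl⟩ := (hO y).1 hy
  obtain ⟨s, hs, s1, s2⟩ := id hg
  have g1 := lcA_le hb g hg
  obtain ⟨t, ht, x, hx, x', hx', t1, t2⟩ := hc.2.2.2.2 b hb _ s2 fun u =>
    (F1 g g1).2 y1 (by rw [mul_comm] at u; exact u.cancel s1)
  have m1 := mul_mem ht hs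
  have m2 := t1.mul s1
  have m3 := un_lift.1 m2
  have := congrArg P.π t2
  rw [← mul_assoc, P.mul _ m3.1 _ g1.1, P.add _ (hb _ (mul_mem hx (hB.η_mem b o))).1 _
    (hb _ (mul_mem hx' (hB.η_mem b j))).1, P.mul _ (hb _ hx).1 _ (hL.η_F hb o), hL.η_o hb,
    P.mul _ (hb _ hx').1 _ (hL.η_F hb j), ← e1] at this
  refine (hO _).2 ⟨x' * (t * s)⁻¹, mul_mem (hl.le hx') (lc_inv m1 m2), ?_⟩
  rw [P.mul _ (hb _ hx').1 _ m2.2.2.1, pi_inv (m2.mono lift_le)]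
  have n1 := C'.ne l
  have n2 := m3.2.1
  field_simp
  linear_combination -this

/-- The exponent along an intersection curve. -/
theorem exp_isCv (hW : W.OK f) (hP : P.o = W.v o) (h0 : W.ex la o = 0)
    (he : P.RsD (dvf f la) e) {p : k} (hp : Γ.v p = 1) {j : W.J} (hc : W.IsCv o j (lift P Γ)) :
    Exp e Γ (W.ex la j) := by
  obtain ⟨b, hb⟩ := hW.cov _ hc.2.1
  obtain ⟨i, l, C', -, h1, h2, h3⟩ := nr_isCv hW hP hp hc hb
  have := h3.exp (hP ▸ exp_v0 hW h0) he ((cht_ad hW b la).mono (lz_lcA _ _).le) h2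
  rwa [cex_some h1] at this

variable {B : Polynomial ℂ} {β : Fin (n + 1) → H59.PX (n + 1) (KK (n + 1))}
  {Q : H59.PX (n + 1) (KK (n + 1))} {v : VF k}

theorem bf_δ_mem (H : BSd f B β Q) {O : Subalgebra ℂ (KK (n + 1))} (h : ∀ p, ip _ p ∈ O) :
    (dvf f la).δ (bf la β) ∈ O := by
  obtain ⟨q, hq⟩ := BSd.Q0 H la
  rw [bf_δ H, ← hq]
  exact sub_mem (O.algebraMap_mem _) (mul_mem (h f) (h q))

/-- A chart in which no other divisor passes through the centre. -/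
theorem exp_good_nr (hW : W.OK f) (hP : P.o = W.v o) (h0 : W.ex la o = 0) (H : BSd f B β Q)
    (he : P.RsD (dvf f la) e) (hv : P.Res (dvf f la) (bf la β) v) (hb : W.In b (lift P Γ))
    (hn : ∀ j ≠ o, ¬W.Thru (lift P Γ) j) {i : Fin (n + 1)} {C' : Co k n}
    (hi : W.S.lab b o = some i) (h : Nr P Γ (cht hW b) i C' (lcA (W.S.A b) (lift P Γ))) :
    Exp e Γ 1 ∧ M3F.Good e v Γ := by
  have hB := M3E.rowBas1 _ f W hW
  have hl := (lz_lcA (W.S.A b) (lift P Γ)).le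
  have hd : Exp (dvf f la) P.o 0 := hP ▸ exp_v0 hW h0
  have ha := (cht_ad hW b la).mono hl
  have hs : ∀ l ∈ ls W b, l ≠ i → ((cht hW b).z l)⁻¹ ∈ lcA (W.S.A b) (lift P Γ) :=
    fun l hl e => by
      obtain ⟨j, hj⟩ := mem_ls.1 hl
      have h1 := hn j (by rintro rfl; exact e (Option.some.inj (hj.symm.trans hi)))
      rw [hB.thru_iff b _ j hb, not_not, Mod.η, W.S.η_some b j l hj] at h1
      exact lc_inv ((cht_st hW b).z l) h1
  obtain ⟨u, hu, -⟩ := BSd.poles H la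
  obtain ⟨c, c1, -, -, c2⟩ := cht_pole hW b hu
  refine ⟨h.exp_one (kf_fg hW hP) hd he ha fun l e => ?_, h.good hd he ?_ (mem_ls.2 ⟨o, hi⟩) hs c1
    (Co.G_mono hl _ _ c2) (bf_δ_mem H fun p => hl (hW.pol b p)) hv⟩
  · by_cases h1 : l ∈ ls W b
    · exact Or.inr (hs l h1 e)
    · exact Or.inl (by simp [cex_none h1])
  · simpa [cex_some hi, h0] using ha i

section Three

variable {f : Po 3} {W : M3.Mod 3} {P : Pl (KK 3) k} {b : W.ι} {o : W.J}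
  {β : Fin 3 → H59.PX 3 (KK 3)} {Q : H59.PX 3 (KK 3)} {p : k}

/-- The chart at a curve that is not contracted in the chart. -/
theorem nr_nc (hW : W.OK f) (hP : P.o = W.v o) (hp : Γ.v p = 1) (hb : W.In b (lift P Γ))
    {g : KK 3} (hg : Lc (W.S.A b) (lift P Γ) g) (hc : NC Γ (P.π g)) :
    ∃ i C', W.S.lab b o = some i ∧ Nr P Γ (cht hW b) i C' (lcA (W.S.A b) (lift P Γ)) := by
  obtain ⟨i, C', O', hi, hC, h1, h2, hO, h3, h4, h5⟩ := exists_lc hW hP hb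
  obtain ⟨C2, e2, hA⟩ := cv_at C' (C'.fin (kf_fg hW hP)) hp hc.1 hc.2
  refine ⟨i, C', hi, hC, h1, h2, fun g hg => (lcA_le hb g hg).2,
    fun j => hA.reg_of_sub h4 h5 (h3.D j) fun l hl => ?_, p, hp⟩
  obtain rfl : l = 1 := by omega
  rw [e2]
  exact h5 _ (h3.D j _ (hO.mem hg))

/-- Curves through which no other divisor passes. -/
theorem exp_good_off (hW : W.OK f) (hP : P.o = W.v o) (h0 : W.ex la o = 0) (H : BSd f B β Q)
    (he : P.RsD (dvf f la) e) (hv : P.Res (dvf f la) (bf la β) v) (hp : Γ.v p = 1)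
    (hb : W.In b (lift P Γ)) (hn : ∀ j ≠ o, ¬W.Thru (lift P Γ) j) {g : KK 3}
    (hg : Lc (W.S.A b) (lift P Γ) g) (hc : NC Γ (P.π g)) : Exp e Γ 1 ∧ M3F.Good e v Γ := by
  obtain ⟨i, C', hi, h⟩ := nr_nc hW hP hp hb hg hc
  exact exp_good_nr hW hP h0 H he hv hb hn hi h

open Classical in
/-- A curve that is not contracted carries a function of the chart that is not constant. -/
theorem nc_of_null (hW : W.OK f) (hN : M3E.Nb W) (hP : P.o = W.v o) (hb : W.In b (lift P Γ))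
    {c : W.J → ℤ} {T : Finset (KK 3)} (hT : W.Gens c T) (hc : c o = 0)
    (h : ¬Null (fun l => P.π (xx 3 l)) (T.image P.π) Γ) :
    ∃ g, Lc (W.S.A b) (lift P Γ) g ∧ NC Γ (P.π g) := by
  have hL : Lv W o P Γ := ⟨M3E.rowBas1 _ f W hW, hP, b, hb⟩
  have hl := (lz_lcA (W.S.A b) (lift P Γ)).le
  by_contra! hn
  refine h ⟨fun l => hn _ (hl (hW.pol b _)), fun s hs s' hs' => ?_⟩
  obtain ⟨t, ht, rfl⟩ := mem_image.1 hs.1
  obtain ⟨t', ht', rfl⟩ := mem_image.1 hs'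
  have h1 := (hL.gns_iff hT hc ht).1 hs
  rw [← (hL.pi_ratio hc (hT.1 t' ht') h1).2]
  have h2 := h1 b hb
  refine hn _ ⟨_, (hN.H c t).1 (hT.1 t ht) b, h2, mem_of_eq ((hN.H c t').1 (hT.1 t' ht') b) ?_⟩
  have := left_ne_zero_of_mul h2.1
  field_simp

open Classical in
theorem exp_good_null (hW : W.OK f) (hN : M3E.Nb W) (hP : P.o = W.v o) (h0 : W.ex la o = 0)
    (H : BSd f B β Q) (he : P.RsD (dvf f la) e) (hv : P.Res (dvf f la) (bf la β) v)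
    (hΓ : Cv (fun l => P.π (xx 3 l)) Γ) (hn : ∀ j ≠ o, ¬W.Thru (lift P Γ) j)
    {c : W.J → ℤ} {T : Finset (KK 3)} (hT : W.Gens c T) (hc : c o = 0)
    (h : ¬Null (fun l => P.π (xx 3 l)) (T.image P.π) Γ) : Exp e Γ 1 ∧ M3F.Good e v Γ := by
  obtain ⟨b, hb⟩ := (lv_of hW (M3E.rowBas1 _ f W hW) hP hΓ.bas).cov
  obtain ⟨g, h1, h2⟩ := nc_of_null hW hN hP hb hT hc h
  obtain ⟨p, hp⟩ := hΓ.sur
  exact exp_good_off hW hP h0 H he hv hp hb hn h1 h2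

/-- The regular local ring on the contracted model. -/
theorem exp_good_reg (hW : W.OK f) (hP : P.o = W.v o) (h0 : W.ex la o = 0) (H : BSd f B β Q)
    (he : P.RsD (dvf f la) e) (hv : P.Res (dvf f la) (bf la β) v) (hp : Γ.v p = 1) {j : W.J}
    {O : Subalgebra ℂ (KK 3)} {C : Co (KK 3) 3} (h : M3KV.Reg f W o j (lift P Γ) O C) :
    Exp e Γ 1 ∧ M3F.Good e v Γ := by
  obtain ⟨C0, -⟩ := exists_rat hW h0 hP
  have h1 : C.Dat O P.o 0 := hP ▸ h.dat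
  obtain ⟨C', hC⟩ := Pl.exists_RsC' C0 h1.adp
  obtain ⟨O', hO⟩ := Pl.exists_RsO h1.le
  have hN : Nr P Γ C 0 C' O := ⟨hC, h.st, h1, fun g hg => (h.le g hg).2, fun l y hy => by
    obtain ⟨g, hg, rfl⟩ := P.surj y
    obtain ⟨g', h2, h3⟩ := h.surj g ⟨hg, hy⟩
    rw [Pl.π_congr (h1.le _ h2) (hP ▸ h3), ← (hC.D h1.adp l).2 _ (h1.le _ h2)]
    exact (h.le _ (h.st.D _ _ h2)).2, p, hp⟩
  obtain ⟨U, u1, u2, u3⟩ := h.ord
  obtain ⟨U', w1, w2, w3⟩ := h.det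
  rw [← zpow_natCast, ← C.mon_single] at u3 w3
  rw [hW.r] at w3
  have w4 : (co 3).jac C = U' * C.mon (Pi.single 0 (W.k o : ℤ)) := w3
  have ha := ((Co.ad_dv C O).tw h.st w1 (h.inv _ w1 w2) w2.1 w4 1).tw h.st u1 (h.inv _ u1 u2)
    u2.1 u3 (-(la : ℂ))
  rw [← Co.dv_jac] at ha
  have hd : Exp (dvf f la) P.o 0 := hP ▸ exp_v0 hW h0
  obtain ⟨u, hu, -⟩ := BSd.poles H la
  refine ⟨hN.exp_one (kf_fg hW hP) hd he ha fun l e => Or.inl (by simp [e]), hN.good hd he ?_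
    (mem_singleton_self 0) (fun l hl e => absurd (mem_singleton.1 hl) e) ?_
    ((co 3).pole_G C h.st (fun l => h.pol _) (h.inv _ u1 u2) u2.1 (h.inv _ w1 w2) w2.1 u3 w4
      (u := u) fun l => (hu l).elim fun q hq => hq ▸ h.pol q) (bf_δ_mem H h.pol) hv⟩
  · have e0 : (1 : ℂ) + W.k o + -(la : ℂ) * W.a o = 0 := by
      have : ((W.ex la o : ℚ) : ℂ) = 0 := by simp [h0]
      rw [Mod.ex] at this
      push_cast at this
      linear_combination this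
    have := ha 0
    simp only [Pi.one_apply, Pi.single_eq_same, one_mul, Int.cast_natCast, e0, map_zero,
      sub_zero] at this
    exact this
  · intro l hl
    have : l ≠ 0 := by simpa using hl
    simp [this]

theorem rowIVol : IVol := by
  intro f la b β Q M C o X Y h hX hY
  refine ⟨⟨hX.fin, ⟨_, _, hX.q0, hX.ψ0, hX.rat⟩, h.hyp.nr,
    res_prim h.ok h.hyp.bs rfl hX.rd hX.rv⟩, hX.q0, hX.ψ0, hX.rat, fun Γ hΓ => ?_⟩
  obtain ⟨p, hp⟩ := hΓ.sur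
  obtain ⟨g, hg⟩ := hΓ.nc
  obtain ⟨C2, -, hA⟩ := cv_at X.Co hX.fin hp hg.1 hg.2
  exact Classical.epsilon_spec (p := fun a : ℚ => Exp X.d Γ a) ⟨_, exp_cv hA hX.ψ0 hX.rat⟩

end Three

end Pool.Agent.MP_ee8c61_ag.M3RESID
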