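import Pool.Agent.MP_ee8c61_ag.H59.REta

/-!
Cochains of forms in three variables in explicit coordinates.
-/

namespace Pool.Agent.MP_ee8c61_ag.M3RESID

open H59 Finset H59.Sys

section Curl

variable {Ω : Type} [CommRing Ω]

/-- The curl for three operators. -/
def curl (N : Fin 3 → Ω → Ω) (g : Fin 3 → Ω) : Fin 3 → Ω :=
  ![N 1 (g 2) - N 2 (g 1), N 2 (g 0) - N 0 (g 2), N 0 (g 1) - N 1 (g 0)]

/-- The twisted derivatives. -/
def nab {k : Type} [CommRing k] [Algebra k Ω] {n : ℕ} (R : Fin n → Derivation k Ω Ω)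
    (θ : Fin n → Ω) (l : Fin n) (u : Ω) : Ω := R l u + θ l * u

end Curl

namespace CCX

variable {k Ω ι J : Type} [CommRing k] [CommRing Ω] [Algebra k Ω]

theorem pure {n : ℕ} {p : ℤ} {w : Fm n Ω} (h : pd n p w = w) (σ : Finset (Fin n))
    (hσ : (σ.card : ℤ) ≠ p) : w σ = 0 := by
  rw [← h, pd, evs_apply, if_neg hσ, op_zero]

theorem d_apply {n : ℕ} (hC : Car (Fin n) Ω) (R : Fin n → Derivation k Ω Ω) (θ : Fin n → Ω)
    (w : Fm n Ω) (σ : Finset (Fin n)) :
    ((dR fun l => dop (R l)) + we θ) w σ = ∑ i ∈ σ, sgn i σ • nab R θ i (w (σ.erase i)) := by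
  rw [op_add, Pi.add_apply, dR, hC.kos_apply, univ_inter, op_zero, smul_zero, zero_add, we,
    H59.op_sum, Finset.sum_apply]
  simp only [op_mul, mu_apply, Pi.smul_apply, ep_apply, smul_eq_mul, mul_ite, mul_zero,
    sum_ite_mem, univ_inter, dop_apply, nab, smul_add, sum_add_distrib, zsmul_eq_mul,
    mul_left_comm]

theorem all3 (σ : Finset (Fin 3)) : σ = ∅ ∨ σ = {0} ∨ σ = {1} ∨ σ = {2} ∨ σ = {0, 1} ∨
    σ = {0, 2} ∨ σ = {1, 2} ∨ σ = {0, 1, 2} := by
  revert σ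
  decide

theorem co_top (β : Fin 3 → Ω) (g : Ω) :
    co β (top 3 g) {0, 1} = β 2 * g ∧ co β (top 3 g) {0, 2} = -(β 1 * g) ∧
      co β (top 3 g) {1, 2} = β 0 * g := by
  have e1 : (insert 2 {0, 1} : Finset (Fin 3)) = univ := by decide
  have e2 : (insert 1 {0, 2} : Finset (Fin 3)) = univ := by decide
  have e3 : (insert 0 {1, 2} : Finset (Fin 3)) = univ := by decide
  have s1 : sgn (2 : Fin 3) {0, 1} = 1 := by decide
  have s2 : sgn (1 : Fin 3) {0, 2} = -1 := by decide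
  have s3 : sgn (0 : Fin 3) {1, 2} = 1 := by decide
  refine ⟨?_, ?_, ?_⟩ <;>
    simp [co, Fin.sum_univ_three, io_apply, top, e1, e2, e3, s1, s2, s3]

theorem ext2 {w w' : Fm 3 Ω} (h : pd 3 2 w = w) (h' : pd 3 2 w' = w')
    (h1 : w {0, 1} = w' {0, 1}) (h2 : w {0, 2} = w' {0, 2}) (h3 : w {1, 2} = w' {1, 2}) :
    w = w' := by
  funext σ
  rcases all3 σ with e | e | e | e | e | e | e | e <;> subst e <;>
    first
    | assumption
    | rw [pure h _ (by decide), pure h' _ (by decide)]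

theorem pd_co_top (hF : Fo Ω 3) (β : Fin 3 → Ω) (g : Ω) :
    pd 3 2 (co β (top 3 g)) = co β (top 3 g) := by
  have h := DFunLike.congr_fun (hF.pd_co β 2) (top 3 g)
  rw [op_mul, op_mul] at h
  rw [← h]
  congr 1
  have := hF.pd_top (top 3 g)
  rw [top, top, Pi.single_eq_same] at this
  exact this

theorem d_one (hC : Car (Fin 3) Ω) (hF : Fo Ω 3) (R : Fin 3 → Derivation k Ω Ω) (θ : Fin 3 → Ω)
    {w : Fm 3 Ω} (h : pd 3 1 w = w) :
    ((dR fun l => dop (R l)) + we θ) w = co (curl (nab R θ) fun l => w {l}) (top 3 1) := by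
  obtain ⟨c1, c2, c3⟩ := co_top (curl (nab R θ) fun l => w {l}) 1
  have a1 : ({0, 1} : Finset (Fin 3)).erase 0 = {1} := by decide
  have a2 : ({0, 1} : Finset (Fin 3)).erase 1 = {0} := by decide
  have a3 : ({0, 2} : Finset (Fin 3)).erase 0 = {2} := by decide
  have a4 : ({0, 2} : Finset (Fin 3)).erase 2 = {0} := by decide
  have a5 : ({1, 2} : Finset (Fin 3)).erase 1 = {2} := by decide
  have a6 : ({1, 2} : Finset (Fin 3)).erase 2 = {1} := by decide
  have s1 : sgn (0 : Fin 3) {0, 1} = 1 := by decide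
  have s2 : sgn (1 : Fin 3) {0, 1} = -1 := by decide
  have s3 : sgn (0 : Fin 3) {0, 2} = 1 := by decide
  have s4 : sgn (2 : Fin 3) {0, 2} = -1 := by decide
  have s5 : sgn (1 : Fin 3) {1, 2} = 1 := by decide
  have s6 : sgn (2 : Fin 3) {1, 2} = -1 := by decide
  refine ext2 ?_ (pd_co_top hF _ _) ?_ ?_ ?_
  · have h1 := DFunLike.congr_fun (hF.pd_dR (fun l => dop (R l)) 1) w
    have h2 := DFunLike.congr_fun (hF.pd_we θ 1) w
    rw [op_mul, op_mul, h] at h1 h2
    rw [op_add, map_add]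
    exact congrArg₂ _ h1.symm h2.symm
  · rw [c1, d_apply hC, sum_pair (by decide), a1, a2, s1, s2]
    simp [curl, sub_eq_add_neg]
  · rw [c2, d_apply hC, sum_pair (by decide), a3, a4, s3, s4]
    simp [curl, sub_eq_add_neg]
  · rw [c3, d_apply hC, sum_pair (by decide), a5, a6, s5, s6]
    simp [curl, sub_eq_add_neg]

theorem we_vac {n : ℕ} (α : Fin n → Ω) (i : Fin n) : we α (vac n 1) {i} = α i := by
  rw [we, H59.op_sum, Finset.sum_apply, sum_eq_single i _ (by simp)]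
  · simp [ep_apply, vac, sgn, filter_singleton]
  · intro j _ hj
    simp [ep_apply, hj]

theorem one_eq (hF : Fo Ω 3) {w : Fm 3 Ω} (h : pd 3 1 w = w) :
    w = we (fun l => w {l}) (vac 3 1) := by
  have h1 := DFunLike.congr_fun (hF.pd_we (fun l => w {l}) 0) (vac 3 1)
  rw [op_mul, op_mul, hF.pd_zero, show vac 3 (1 : Ω) ∅ = 1 from Pi.single_eq_same _ _] at h1
  funext σ
  rcases all3 σ with e | e | e | e | e | e | e | e <;> subst e <;>
    first
    | rw [we_vac]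
    | rw [pure h _ (by decide), pure h1.symm _ (by decide)]

variable [Fintype J] {S : Sys k Ω ι J 3}

theorem mem_two (hF : Fo Ω 3) (hD : SDet) (hR : Fr S) (hL : Lo S) (hM : Lm S) {a : ι}
    {kk c : J → ℤ} {U : Ωˣ} (hU : S.IsU a U)
    (e : (Matrix.of fun l i => S.D a i (S.r l)).det = U * S.mon a kk) {V : Fin 3 → Ω} {p : ℤ}
    (h : co V (top 3 1) ∈ S.lm {c} {a} p) (i : Fin 3) :
    V ⬝ᵥ S.e a i * S.mon a (kk + 1 - c) ∈ S.A a := by
  rw [hM.mem _ _ a (mem_singleton_self a), ← op_mul, hR.crd_co, op_mul, EtaX.crd_top hD hR e,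
    hF.mem_fl] at h
  obtain ⟨c1, c2, c3⟩ := co_top (fun i => V ⬝ᵥ S.e a i) (U * 1 * S.mon a (kk + 1))
  have key : V ⬝ᵥ S.e a i * (U * 1 * S.mon a (kk + 1)) ∈ S.NN a {a} {c} := by
    fin_cases i
    · exact c3 ▸ h.1 _
    · exact neg_mem_iff.1 (c2 ▸ h.1 _)
    · exact c1 ▸ h.1 _
  rw [hL.mem_one, hL.single] at key
  have e2 : S.mon a (kk + 1 - c) = S.mon a (kk + 1) * (S.mon a c)⁻¹ := by
    rw [eq_mul_inv_iff_mul_eq, ← hR.mon_add, sub_add_cancel]
  have e3 : V ⬝ᵥ S.e a i * S.mon a (kk + 1 - c) = (U⁻¹ : Ωˣ) *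
      (V ⬝ᵥ S.e a i * (U * 1 * S.mon a (kk + 1)) * ((S.mon a c)⁻¹ : Ωˣ)) := by
    rw [e2, Units.val_mul]
    linear_combination (-(V ⬝ᵥ S.e a i * S.mon a (kk + 1) * ((S.mon a c)⁻¹ : Ωˣ))) * U.inv_mul
  rw [e3]
  exact mul_mem hU.2 key

theorem mem_one [DecidableEq ι] (hF : Fo Ω 3) (hA : La Ω 3) (hR : Fr S) (hL : Lo S) (hM : Lm S)
    {a b : ι} {c : J → ℤ} {w : Fm 3 Ω} (h : w ∈ S.lm {c} {a, b} 1) (i : Fin 3) :
    (S.v a i ⬝ᵥ fun l => w {l}) * S.mon a (-c) ∈ S.A a ⊔ S.A b := by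
  have hp := hM.pure _ _ _ _ h
  rw [hM.mem _ _ a (mem_insert_self a _), one_eq hF hp, ← op_mul, hR.crd_we, op_mul, crd, hA.vac,
    hF.mem_fl] at h
  have key := h.1 {i}
  rw [we_vac, hL.mem_one] at key
  have e1 : S.AA {a, b} = S.A a ⊔ S.A b := by simp [AA, iSup_or, iSup_sup_eq]
  have e2 : S.mon a (-c) = (S.mon a c)⁻¹ := by
    rw [← neg_one_zsmul, hR.mon_zsmul, zpow_neg_one]
  rwa [e2, ← e1]

theorem explicit [Fintype ι] [LinearOrder ι] (hC : Car (Fin 3) Ω) (hC' : Car ι (Fm 3 Ω))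
    (hF : Fo Ω 3) (hA : La Ω 3) (hD : SDet) (hR : Fr S) (hL : Lo S) (hM : Lm S)
    (θ β : Fin 3 → Ω) (kk c c' : J → ℤ)
    (hdet : ∀ a, ∃ U : Ωˣ, S.IsU a U ∧
      (Matrix.of fun l i => S.D a i (S.r l)).det = U * S.mon a kk)
    (γ : Ch ι (Fm 3 Ω)) (hγ : γ ∈ S.T {c'} 2)
    (h : EtaX.sg ι (-co β (top 3 1)) - cech (S.dd + we θ) γ ∈ S.T {c} 3) :
    ∃ (g : ι → Fin 3 → Ω) (τ : ι → ι → Ω),
      (∀ a i, (β - curl (nab S.R θ) (g a)) ⬝ᵥ S.e a i * S.mon a (kk + 1 - c) ∈ S.A a) ∧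
      ∀ a b i, (S.v a i ⬝ᵥ fun l => g a l - g b l - nab S.R θ l (τ a b)) * S.mon a (-c) ∈
        S.A a ⊔ S.A b := by
  rw [S.mem_T] at h hγ
  have h0 : γ ∅ = 0 := by simpa [hM.emp] using hγ ∅
  have h1 : ∀ a, pd 3 1 (γ {a}) = γ {a} := fun a => hM.pure _ _ _ _ (by simpa using hγ {a})
  have key : ∀ a b, a < b → ∀ l, (EtaX.sg ι (-co β (top 3 1)) - cech (S.dd + we θ) γ) {a, b} {l} =
      γ {a} {l} - γ {b} {l} - nab S.R θ l (γ {a, b} ∅) := fun a b hab l => by
    have c2 : ({a, b} : Finset ι).card = 2 := card_pair hab.ne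
    have s1 : sgn a {a, b} = 1 := by simp [sgn, filter_insert, filter_singleton, hab.not_gt]
    have s2 : sgn b {a, b} = -1 := by simp [sgn, filter_insert, filter_singleton, hab]
    have r1 : ({a, b} : Finset ι).erase a = {b} := erase_insert (by simp [hab.ne])
    have r2 : ({a, b} : Finset ι).erase b = {a} := by
      rw [pair_comm]
      exact erase_insert (by simp [hab.ne'])
    rw [Pi.sub_apply, EtaX.sg, if_neg (by omega), cech, hC'.kos_apply, univ_inter,
      sum_pair hab.ne, s1, s2, r1, r2, c2]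
    have := d_apply hC S.R θ (γ {a, b}) {l}
    rw [sum_singleton, erase_singleton] at this
    simp only [Pi.sub_apply, Pi.add_apply, Pi.smul_apply, dd, this, op_one, Pi.zero_apply]
    simp [sgn, filter_singleton]
    ring
  have hp : ∀ a b, a < b →
      (EtaX.sg ι (-co β (top 3 1)) - cech (S.dd + we θ) γ) {a, b} ∈ S.lm {c} {a, b} 1 :=
    fun a b hab => by simpa [card_pair hab.ne] using h {a, b}
  refine ⟨fun a l => γ {a} {l}, fun a b => if a < b then γ {a, b} ∅ else if b < a then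
    -γ {b, a} ∅ else 0, fun a i => ?_, fun a b i => ?_⟩
  · obtain ⟨U, hU, e⟩ := hdet a
    refine mem_two hF hD hR hL hM hU e (p := 3 - ({a} : Finset ι).card) ?_ i
    have h2 := neg_mem (h {a})
    rw [Pi.sub_apply, EtaX.sg, if_pos (card_singleton a), cech, hC'.kos_apply, univ_inter,
      sum_singleton, erase_singleton, h0, dd, d_one hC hF S.R θ (h1 a)] at h2
    rw [sub_eq_add_neg β, hF.co_add, ← neg_one_smul Ω (curl _ _), hF.co_smul]
    simpa [add_comm] using h2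
  · rcases lt_trichotomy a b with hab | rfl | hab
    · have := mem_one hF hA hR hL hM (hp a b hab) i
      simp only [key a b hab] at this
      simpa only [if_pos hab] using this
    · have e : (fun l => γ {a} {l} - γ {a} {l} - nab S.R θ l 0) = 0 := by
        funext l
        simp [nab]
      simp only [lt_irrefl, if_false, e, dotProduct_zero, zero_mul, zero_mem]
    · have h2 := neg_mem (hp b a hab)
      rw [pair_comm b a] at h2
      have := mem_one hF hA hR hL hM h2 i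
      rw [pair_comm a b] at this
      simp only [Pi.neg_apply, key b a hab] at this
      have e : (fun l => γ {a} {l} - γ {b} {l} - nab S.R θ l (-γ {b, a} ∅)) =
          fun l => -(γ {b} {l} - γ {a} {l} - nab S.R θ l (γ {b, a} ∅)) := by
        funext l
        simp only [nab, map_neg]
        ring
      simpa only [if_neg hab.not_gt, if_pos hab, e] using this

end CCX

end Pool.Agent.MP_ee8c61_ag.M3RESID
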