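import Pool.Agent.MP_ee8c61_ag.M3RESID.Alg
import Pool.Agent.MP_ee8c61_ag.M3RESID.CCx

/-!
Bivectors in three variables: change of the frame, curl and gradient.
-/

namespace Pool.Agent.MP_ee8c61_ag.M3RESID

open M3 Finset

noncomputable section

variable {L : Type} [Field L] [Algebra ℂ L] {n : ℕ}

/-- The bivector `X ∧ Y` applied to two functions. -/
def wg (X Y : VF L) (u u' : L) : L := X u * Y u' - X u' * Y u

/-- The exact field of a bivector given by its values on the coordinates. -/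
def dB (C : Co L n) (d : Dv L) (H : Fin n → Fin n → L) : VF L :=
  ∑ j, (∑ i, d.δ (H i j • C.D i)) • C.D j

theorem dB_add (C : Co L n) (d : Dv L) (H H' : Fin n → Fin n → L) :
    dB C d (fun i j => H i j + H' i j) = dB C d H + dB C d H' := by
  simp only [dB, add_smul, map_add, sum_add_distrib]

theorem B_eq (C : Co L n) (d : Dv L) (h : L) (X Y : VF L) :
    d.B (h • X) Y = dB C d fun i j => h * wg X Y (C.z i) (C.z j) := by
  have e : ∀ i j, d.B ((h * X (C.z i)) • C.D i) (Y (C.z j) • C.D j) =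
      d.δ ((h * X (C.z i) * Y (C.z j)) • C.D i) • C.D j -
        d.δ ((h * X (C.z i) * Y (C.z j)) • C.D j) • C.D i := fun i j => by
    rw [← d.B_smul, smul_smul, d.B_frame _ _ _ (C.comm _ _), mul_comm]
  conv_lhs => rw [C.exp X, C.exp Y, smul_sum]
  simp only [smul_smul, d.B_sum, d.B_sum', e, dB, wg, mul_sub, sub_smul, map_sub, sum_sub_distrib,
    sum_smul, mul_assoc]
  congr 1
  exact sum_comm

/-- The operators `u ↦ δ (u • e i)`. -/
def Nb (d : Dv L) (e : Fin n → VF L) (i : Fin n) (u : L) : L := d.δ (u • e i)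

/-- The bivector with coefficients `g` in the frame `e`. -/
def Lam (e : Fin 3 → VF L) (g : Fin 3 → L) (u u' : L) : L :=
  g 0 * wg (e 2) (e 1) u u' + g 1 * wg (e 0) (e 2) u u' + g 2 * wg (e 1) (e 0) u u'

/-- Its exact field. -/
def crl (d : Dv L) (e : Fin 3 → VF L) (g : Fin 3 → L) : VF L :=
  d.B (g 0 • e 2) (e 1) + d.B (g 1 • e 0) (e 2) + d.B (g 2 • e 1) (e 0)

theorem crl_mem (d : Dv L) (e : Fin 3 → VF L) (g : Fin 3 → L) : crl d e g ∈ d.Ex :=
  add_mem (add_mem (d.B_mem _ _) (d.B_mem _ _)) (d.B_mem _ _)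

theorem crl_dB (C : Co L n) (d : Dv L) (e : Fin 3 → VF L) (g : Fin 3 → L) :
    crl d e g = dB C d fun i j => Lam e g (C.z i) (C.z j) := by
  simp only [crl, B_eq C, ← dB_add, Lam]

theorem crl_eq (d : Dv L) {e : Fin 3 → VF L} (hc : ∀ i j g, e i (e j g) = e j (e i g))
    (g : Fin 3 → L) : crl d e g = ∑ l, curl (Nb d e) g l • e l := by
  simp only [crl, d.B_frame _ _ _ (hc _ _), Fin.sum_univ_three, curl, Nb, Matrix.cons_val_zero,
    Matrix.cons_val_one, Matrix.cons_val, sub_smul]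
  abel

theorem crl_sub (d : Dv L) (e : Fin 3 → VF L) (g g' : Fin 3 → L) :
    crl d e (g - g') = crl d e g - crl d e g' := by
  rw [eq_sub_iff_add_eq]
  conv_rhs => rw [← sub_add_cancel g g']
  simp only [crl, Pi.add_apply, add_smul, d.B_add]
  abel

theorem crl_grad (d : Dv L) {e : Fin 3 → VF L} (hc : ∀ i j g, e i (e j g) = e j (e i g))
    (τ : L) : crl d e (fun i => Nb d e i τ) = 0 := by
  have h : ∀ i j, Nb d e i (Nb d e j τ) = Nb d e j (Nb d e i τ) :=
    fun i j => d.nab_comm _ _ _ (hc _ _)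
  simp [crl_eq d hc, Fin.sum_univ_three, curl, h 1 2, h 2 0, h 0 1]

/-- The determinant of a frame. -/
def J3 (C : Co L 3) (e : Fin 3 → VF L) : L := (Matrix.of fun i l => e i (C.z l)).det

/-- The value of a one-form with coefficients `g` on a field. -/
def pr (C : Co L n) (g : Fin n → L) (X : VF L) : L := ∑ l, X (C.z l) * g l

theorem Lam_frame (C : Co L 3) (e : Fin 3 → VF L) (hJ : J3 C e ≠ 0) (g : Fin 3 → L) (u u' : L) :
    Lam e (fun i => pr C g (e i) / J3 C e) u u' = Lam C.D g u u' := by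
  have h1 := fun i => C.exp_apply (e i) u
  have h2 := fun i => C.exp_apply (e i) u'
  simp only [Lam, wg, h1, h2, pr, Fin.sum_univ_three]
  field_simp
  simp only [J3, Matrix.det_fin_three, Matrix.of_apply]
  ring

theorem crl_frame (C : Co L 3) (d : Dv L) (e : Fin 3 → VF L) (hJ : J3 C e ≠ 0) (g : Fin 3 → L) :
    crl d e (fun i => pr C g (e i) / J3 C e) = crl d C.D g := by
  simp only [crl_dB C, Lam_frame C e hJ]

theorem piola (C : Co L 3) {e : Fin 3 → VF L} (hc : ∀ i j g, e i (e j g) = e j (e i g))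
    (i : Fin 3) : J3 C e * C.dv.δ (e i) = e i (J3 C e) := by
  have h1 : ∀ j l, e i (e j (C.z l)) = ∑ m, e j (C.z m) * C.D m (e i (C.z l)) := fun j l => by
    rw [hc i j, C.exp_apply (e j)]
  simp only [J3, Matrix.det_fin_three, Matrix.of_apply, map_add, map_sub, Derivation.leibniz, h1,
    C.dv_δ, Fin.sum_univ_three, smul_eq_mul]
  ring

theorem grad_frame (C : Co L 3) (d : Dv L) {e : Fin 3 → VF L}
    (hc : ∀ i j g, e i (e j g) = e j (e i g)) (hJ : J3 C e ≠ 0) (τ : L) (i : Fin 3) :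
    pr C (fun l => Nb d C.D l τ) (e i) / J3 C e = Nb d e i (τ / J3 C e) := by
  have h1 := piola C hc i
  have h2 := C.δ_exp d (e i)
  rw [sum_add_distrib, ← C.dv_δ] at h2
  simp only [pr, Nb, d.smul, mul_add, sum_add_distrib, ← C.exp_apply (e i) τ, h2,
    Derivation.leibniz_div, smul_eq_mul, ← h1, mul_left_comm _ τ, ← mul_sum]
  field_simp
  ring

theorem pr_sub (C : Co L n) (g g' : Fin n → L) (X : VF L) :
    pr C (g - g') X = pr C g X - pr C g' X := by
  simp only [pr, Pi.sub_apply, mul_sub, sum_sub_distrib]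

end

end Pool.Agent.MP_ee8c61_ag.M3RESID
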