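import Pool.Agent.MP_ee8c61_ag.M3RESID.CC2
import Pool.Agent.MP_ee8c61_ag.M3RESID.CCP
import Pool.Agent.MP_ee8c61_ag.M3RESID.CvAt
import Pool.Agent.MP_ee8c61_ag.M3RESID.RAV
import Pool.Agent.MP_ee8c61_ag.M3.FKit
import Pool.Agent.MP_ee8c61_ag.M3K.RNg0
import Pool.Agent.MP_ee8c61_ag.M3K.RKa
import Pool.Agent.MP_ee8c61_ag.M3K.RKb
import Pool.Agent.MP_ee8c61_ag.M3L.R1

/-!
Local primitives on a divisor of exponent zero that is alive at time zero.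
-/

namespace Pool.Agent.MP_ee8c61_ag.M3RESID

open H59 hiding pd
open M3 M3E Finset
open M3J (ex br LB)

noncomputable section

section Chart

variable {N : ℕ} {W : M3.Mod N} (b : W.ι)

theorem un_eq (l : Fin N) : (W.S.un b l : KK N) = if l ∈ ls W b then W.S.z b l else 1 := by
  rw [Sys.un]
  split_ifs with h
  · obtain ⟨j, hj⟩ := mem_ls.1 h
    rw [prod_eq_single j, if_pos hj, W.S.η_some b j l hj]
    · exact fun j' _ h' => if_neg fun h2 => h' (W.S.lab_inj b _ _ l h2 hj)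
    · simp
  · rw [prod_eq_one fun j _ => if_neg fun h2 => h (mem_ls.2 ⟨j, h2⟩), Units.val_one]

theorem lf_one : lf W b (1 : W.J → ℤ) = fun l => if l ∈ ls W b then 1 else 0 := funext fun l => by
  split_ifs with h
  · obtain ⟨j, hj⟩ := mem_ls.1 h
    exact lf_some hj _
  · exact lf_none h _

theorem lf_sum {R : Type} [CommRing R] (y : W.J → R) (φ : KK N → R) (h : φ 1 = 0) :
    ∑ l, lf W b y l * φ (W.S.z b l) = ∑ j, y j * φ (W.η b j) := by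
  simp only [lf, sum_mul]
  rw [sum_comm]
  refine sum_congr rfl fun j _ => ?_
  rcases hl : W.S.lab b j with _ | i
  · simp [Mod.η, W.S.η_none b j hl, h]
  · simp [Mod.η, W.S.η_some b j i hl]

end Chart

/-- Potentials on a divisor of a model. -/
theorem ccm {f : Po 3} {W : M3.Mod 3} (h : W.OK f) (hB : Bas1 W) {b : Polynomial ℂ}
    {β : Fin 3 → PX 3 (KK 3)} {Q : PX 3 (KK 3)} (hb : BSd f b β Q) {la : ℚ} {o : W.J}
    (h0 : W.ex la o = 0) {k : Type} [Field k] [Algebra ℂ k] {P : Pl (KK 3) k} (hP : P.o = W.v o)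
    {e : Dv k} {v : VF k} (he : P.RsD (dvf f la) e) (hv : P.Res (dvf f la) (bf la β) v)
    (C₀ : Co k 2) {w : W.J → ℤ} {κ : Type} [Fintype κ] {bb : κ → W.ι} {t ρ : κ → KK 3}
    (hA : W.AC w bb t ρ) {μ : ℕ} (hμ : 0 < μ) (h1 : ∀ j, Sys.cl w μ j ≤ W.k j + 1)
    (h2 : Sys.cl w μ o = W.k o + 1) :
    ∃ θ : κ → k, ∀ (Γ : DV k) (C : Co k 2) (a : ℚ), C.At Γ 0 → Exp e Γ a → Lv W o P Γ →
      ∀ i, W.Gen (lift P Γ) w (ρ i) → ∃ m : ℤ,
        a + m = ∑ j, ((Sys.cl w μ j : ℚ) - la * W.a j) * W.tr P Γ j ∧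
        v - ex e C₀ (θ i) ∈ LV Γ m ∧
        ∀ i', W.Gen (lift P Γ) w (ρ i') → θ i - θ i' ∈ LB C₀ Γ m := by
  obtain ⟨g, τ, c1, c2⟩ := cc2 h hb la hA hμ h1
  have hd : Exp (dvf f la) P.o 0 := hP ▸ exp_v0 h h0
  obtain ⟨b0, hb0⟩ := h.ne o
  obtain ⟨i0, hi0⟩ := lab_of hb0
  obtain ⟨C', hC'⟩ := exists_rch h hi0 hb0 hP
  obtain ⟨p, p1, p2⟩ := Pl.cce hC' (hP ▸ (cht_dat h hi0 hb0).adp) hd he (M3.co 3) C₀ hv
  refine ⟨fun i => p (g i), fun Γ C a hC hE hL i hi => ?_⟩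
  have hA' : ∀ i, W.Gen (lift P Γ) w (ρ i) → (M3L.LS hA).A i ≤ VA (lift P Γ) cst_lift :=
    fun i hi => (M3L.LS_val h hA i _).2 ⟨hL.ov, hi⟩
  have hin : W.In (bb i) (lift P Γ) := M3L.LS_in hA (hA' i hi)
  obtain ⟨-, hη, ⟨l, hl⟩, -⟩ := hB.in_v _ _ o hin hL.thru
  obtain ⟨S', hS'⟩ := exists_rch h hl hη hP
  have hat : (cht h (bb i)).At P.o l := hP ▸ (cht_dat h hl hη).adp
  have hc : lf W (bb i) (W.kk + 1 - Sys.cl w μ) l = 0 := by
    rw [lf_some hl]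
    simp [Mod.kk, h2]
  have hs : l ∈ ls W (bb i) := mem_ls.2 ⟨o, hl⟩
  obtain ⟨m, e1, e2, e3⟩ := Pl.pb_chart hS' hat hd he hc hC hE (A := VA (lift P Γ) cst_lift)
    (fun _ hg => hg.1) (fun _ hg => hg.2) (fun l => hin _ (W.S.z_mem _ l))
    ((cht_ad h (bb i) la).mono hin) (s := ls W (bb i)) fun l hl => by simp [cex_none hl]
  have d1 := fun l => hA' i hi (c1 i l)
  simp only [un_eq, cht_mon h] at d1
  refine ⟨m, ?_, e2 _ _ (p1 _ (Pl.LV_chart hat hs hc fun l => (d1 l).1)) d1, fun i' hi' => ?_⟩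
  · have e4 := lf_sum (bb i) (fun j => (Sys.cl w μ j : ℚ) - la * W.a j)
      (fun y => (Γ.v (P.π y) : ℚ)) (by rw [P.π_one, Γ.one, Int.cast_zero])
    rw [Fin.sum_univ_succAbove _ l, P.π_F1 (g := W.S.z (bb i) l) (Or.inr hat.vz.ge), Γ.zero,
      Int.cast_zero, mul_zero, zero_add] at e4
    simp only [hL.tr_eq hin, ← e4]
    refine Rat.cast_injective (α := ℂ) ?_
    push_cast
    rw [e1]
    refine sum_congr rfl fun j _ => ?_
    rw [hS' j]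
    refine congrArg₂ _ ?_ rfl
    split_ifs with hj
    · obtain ⟨j', hj'⟩ := mem_ls.1 hj
      rw [cex_some hj', lf_some hj', lf_some hj']
      simp [Mod.ex, Mod.kk]
    · simp [lf_none hj]
  · obtain ⟨U, -, u1, u0, u2⟩ := cht_jac h (bb i)
    have d2 : ∀ l, pr (M3.co 3) (g i - g i' - fun m => Nb (dvf f la) (M3.co 3).D m (τ i i'))
        (lfr (cht h (bb i)) (ls W (bb i)) l) / J3 (M3.co 3) (lfr (cht h (bb i)) (ls W (bb i))) *
        (cht h (bb i)).mon (lf W (bb i) (W.kk + 1 - Sys.cl w μ)) ∈ VA (lift P Γ) cst_lift :=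
      fun l => by
        have := mul_mem (sup_le (hA' i hi) (hA' i' hi') (c2 i i' l))
          (show U⁻¹ ∈ VA (lift P Γ) cst_lift from hin _ u1)
        refine mem_of_eq this ?_
        rw [lfr_J3, u2, ← lf_one, ← cht_mon h, ← cht_mon h, ← cht_mon h, sub_eq_add_neg (W.kk + 1),
          hB.mon_add, hB.mon_add, Sys.dv, un_eq]
        have := W.mon_ne (bb i) W.kk
        have := W.mon_ne (bb i) 1
        rw [lfr]
        field_simp
        rfl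
    refine e3 _ C₀ _ _ d2 ?_
    rw [hS' 0, hS' 1]
    exact p2 _ _ _ (Pl.lgB_chart _ hat hs hc fun l => (d2 l).1) _ (hat.z_F _) _ (hat.z_F _)

theorem lb_ord {k : Type} [Field k] [Algebra ℂ k] {C₀ C : Co k 2} {Γ : DV k} (hC : C.At Γ 0)
    {m : ℤ} {t : k} (h0 : t ≠ 0) (ht : t ∈ LB C₀ Γ m) : m + 1 + Γ.v (C₀.jac C) ≤ Γ.v t := by
  have h1 := ((M3J.mem_LB hC).1 ht).resolve_left (mul_ne_zero h0 (M3J.br_ne C₀ C))
  have h2 := M3J.br_chain C₀ C (C₀.z 0) (C₀.z 1)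
  rw [M3J.br_self] at h2
  have h3 := Γ.mul _ _ (M3J.br_ne C₀ C) (M3J.br_ne C C₀)
  rw [← h2, Γ.one] at h3
  rw [Γ.mul _ _ h0 (M3J.br_ne C₀ C)] at h1
  rw [jac_br]
  omega

theorem rowICC (E : EOut) : ICC := by
  classical
  intro f la b β Q M C o X Y hS hX _ ht
  have hM := hS.ok
  have hW := C.ok
  have sa := M3K.rowKa E (M3K.rowNg0 E)
  have K := sa 3 f M C hM
  have K' := M3K.rowKb E sa 3 f M C hM
  have hB := (E.bas 3 f C.W hW).toBas1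
  have hP : (M.v o).pl.o = C.W.v (C.D.e o) := (C.D.v o).symm
  have hk := (E.jd 3 f C.W M C.D hW hM).2 o
  have ha : C.W.a (C.D.e o) = M.a o := by
    have := v_f hW (C.D.e o)
    rw [C.D.v o, v_f hM] at this
    exact_mod_cast this.symm
  obtain ⟨w, μ, hμ, ⟨κ, _, bb, t, ρ, hA⟩, hw⟩ := M3L.cw E hW
    (K.semi M.nu (by simpa [ht] using C.mem))
  obtain ⟨θ, hθ⟩ := ccm hW hB hS.hyp.bs (o := C.D.e o) (by rw [Mod.ex, hk, ha]; exact hS.zero) hP
    hX.rd hX.rv X.Co hA hμ (fun j => by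
      rw [hw]
      exact Int.ceil_le.2 (by simpa [M3K.dl, Mod.nu] using K'.dl0 j)) (by
      rw [hw, Mod.up, hS.alive, Mod.nu, hk]
      exact_mod_cast Int.ceil_natCast (R := ℚ) (M.k o + 1))
  obtain ⟨i0, hi0⟩ := hA.cov _ (hB.ov_v (C.D.e o))
  obtain ⟨a0, ha0⟩ := hW.cov _ (hB.ov_v (C.D.e o))
  have r0 : ∀ i, ρ i / ρ i0 ∈ (M.v o).pl.o.F 0 := fun i =>
    hP ▸ M3L.div_mem_of_gen ha0 (hA.sec i _ (hB.ov_v _)) hi0
  obtain ⟨r, hr⟩ : ∃ r : κ → (M.v o).kf, r = fun i => (M.v o).pl.π (ρ i / ρ i0) := ⟨_, rfl⟩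
  have ch : ∀ y ∈ univ.image r, ∃ i, r i = y := fun y hy => by simpa using hy
  have : Nonempty κ := ⟨i0⟩
  choose! s hs using ch
  refine ⟨univ.image r, fun y => θ (s y), ⟨r i0, mem_image_of_mem _ (mem_univ _), ?_⟩,
    fun Γ hΓ y hy => ?_⟩
  · rw [hr]
    dsimp only
    rw [div_self (M3L.rho_ne hA i0), Pl.π_one]
    exact one_ne_zero
  have hL : Lv C.W (C.D.e o) (M.v o).pl Γ := lv_of hW hB hP hΓ.bas
  have gen : ∀ y, GnS (univ.image r) Γ y → C.W.Gen (lift (M.v o).pl Γ) w (ρ (s y)) :=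
    fun y hy => by
      obtain ⟨i, hi⟩ := hA.cov _ hL.ov
      obtain ⟨a, ha⟩ := hL.cov
      have h1 := hs y hy.1
      have h2 : Un (M.v o).pl.o.O (ρ (s y) / ρ i0) :=
        (pi_ne_iff (r0 _)).1 fun e => hy.2.1 (by rw [← h1, hr]; exact e)
      have h3 : ρ i / ρ (s y) = ρ i / ρ i0 / (ρ (s y) / ρ i0) :=
        (div_div_div_cancel_right₀ (M3L.rho_ne hA i0) _ _).symm
      refine M3L.gen_of_un hi (M3L.rho_ne hA i) ⟨div_ne_zero (M3L.rho_ne hA _) (M3L.rho_ne hA _),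
        M3L.div_mem_of_gen ha (hA.sec _ _ hL.ov) hi, ?_⟩
      rw [inv_div, h3]
      refine ⟨mul_mem (s := (M.v o).pl.o.O) (r0 i) (by simpa using h2.2.2), ?_⟩
      have h4 := hy.2.2 _ (mem_image_of_mem r (mem_univ i))
      rw [Pl.π_div (r0 i) h2.1 ((M.v o).pl.o.un_O.1 h2).2]
      rw [← h1, hr] at h4
      exact h4
  obtain ⟨x, hx⟩ := hΓ.sur
  obtain ⟨u, hu⟩ := hΓ.nc
  obtain ⟨C', -, hC'⟩ := cv_at X.Co hX.fin hx hu.1 hu.2
  have e1 := exp_cv hC' hX.ψ0 hX.rat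
  have e2 : Exp X.d Γ ((C.sd la b o X Y).ex Γ) :=
    Classical.epsilon_spec (p := fun a : ℚ => Exp X.d Γ a) ⟨_, e1⟩
  have e3 : (C.sd la b o X Y).ex Γ = _ := Rat.cast_injective (α := ℂ) (e2.uniq e1 hx)
  obtain ⟨m, m1, m2, m3⟩ := hθ Γ C' _ hC' e2 hL _ (gen y hy)
  have hα : (C.sd la b o X Y).α Γ ≤ (C.sd la b o X Y).ex Γ + m := by
    have e4 : C.P (M.ex la) = C.P (∑ j : C.Nb o, M.ex la j.1 • M.q (M.e j.1)) :=
      K.congr _ _ fun j hj => by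
        simp only [Finset.sum_apply, Pi.smul_apply, Mod.q_apply, Mod.e_apply, smul_eq_mul]
        by_cases hjo : j = o
        · rw [hjo, hS.zero]
          exact (sum_eq_zero fun j' _ => by simp [j'.2.1.symm]).symm
        · refine ((Fintype.sum_eq_single (show C.Nb o from ⟨j, hjo, hj⟩) fun j' h' => ?_).trans
            (by simp)).symm
          rw [if_neg fun e => h' (Subtype.ext e.symm), Int.cast_zero, mul_zero]
    have e5 : M.ex la = M.nu - la • M.q M.aa := funext fun j => by simp [Mod.ex, Mod.nu, Mod.aa]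
    have e6 : (C.sd la b o X Y).α Γ = ∑ i, C.P (M.ex la) i * C.W.tr (M.v o).pl Γ i := by
      rw [e4]
      simp only [map_sum, map_smul, Finset.sum_apply, Pi.smul_apply, smul_eq_mul, sum_mul]
      rw [sum_comm]
      exact sum_congr rfl fun j _ => by simp only [Ch.sd, mul_sum, mul_assoc]
    rw [m1, e6, e5, map_sub, map_smul, K.aa]
    refine sum_le_sum fun i _ => mul_le_mul_of_nonneg_right ?_ (Int.cast_nonneg (hL.tr_nonneg i))
    rw [hw]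
    exact sub_le_sub (Int.le_ceil _) (by simp [Mod.aa])
  refine ⟨⟨m, by linarith, m2⟩, fun y' hy' => ?_⟩
  by_cases h0 : θ (s y) - θ (s y') = 0
  · exact Or.inl (sub_eq_zero.1 h0)
  have h1 : ((m + 1 + Γ.v (X.Co.jac C') : ℤ) : ℚ) ≤ _ :=
    Int.cast_le.2 (lb_ord hC' h0 (m3 _ (gen y' hy')))
  have hq : (0 : ℚ) < X.q := Nat.cast_pos.2 hX.q0
  rw [e3] at hα
  push_cast at h1
  have h2 := mul_le_mul_of_nonneg_left (hα.trans (show _ ≤ (Γ.v (θ (s y) - θ (s y')) : ℚ) +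
    Γ.v X.ψ / X.q by linarith)) hq.le
  rw [mul_add, mul_div_cancel₀ _ hq.ne'] at h2
  exact Or.inr h2

end

end Pool.Agent.MP_ee8c61_ag.M3RESID
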