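import Pool.Agent.MP_ee8c61_ag.M3RESID.CCx
import Pool.Agent.MP_ee8c61_ag.H59.Final

/-!
The primitive of the functional equation can be moved into the lattice of an ample divisor.
-/

namespace Pool.Agent.MP_ee8c61_ag.M3RESID

open H59 Finset H59.Sys

namespace CCX

theorem car : SCar := rows.Car
theorem fo : SFo := rows.Fo car
theorem fd : SFd := rows.Fd car fo
theorem la : SLa := rows.La car rows.Ap fo
theorem det : SDet := rows.Det car rows.Ap fo la
theorem fr : SFr := rows.Fr car fo fd la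
theorem lo : SLo := rows.Lo fr
theorem cone : SCone := rows.Cone car rows.Cx
theorem lm : SLm := rows.Lm car cone fo la fr lo
theorem pt : SPt := rows.Pt car rows.Cx fo la fr lo lm
theorem th : STh := rows.Th car fo fd fr lo lm (rows.Ho car fo fd la fr lo lm) pt
theorem gr : SGr := rows.Gr car fo lm pt th

theorem nv_vy : SNV ∧ SVY := by
  have r := rows
  have cx := r.Cx
  have filt := r.Filt car cx r.Fg cone
  have ri := r.Ri car
  have swap := r.Swap car cx cone filt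
  have kx := r.Kx car cx cone filt swap
  have left := r.Left car cone
  have req := r.Req car cone
  have v := r.V car cx cone filt swap (r.V1 car cx cone filt) (r.V2 car cone r.Am)
  have t1 := r.T1 car cone r.Fg (r.T1f car cx r.Fg) r.T1k
  have ho := r.Ho car fo fd la fr lo lm
  have t1s := r.T1s car r.Fg t1 fo lm (r.T1g fo la fr lo lm)
  have gk := r.Gk car r.Fgk cone filt fr lo lm t1s
  have eloc := r.ELoc car cx cone swap fo la fr lo lm (r.Depth kx req lo)
  have esz := r.Esz car cone ri r.Stab fo fr lo lm gk eloc (r.EFin r.Mp)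
  have cart := r.Cart fo la fr lo lm (r.Cart0 car fo)
  have mo := r.Mo car fo fd fr lo lm
  have ph1 := r.Ph1 car fo fd fr mo
  have ph2 := r.Ph2 car fo la fr lo lm mo ph1
  have hara := r.Hara car cx cone filt fd lm ho mo
  have di := r.Di car cone r.Trunc fo lm cart ph1 ph2 hara
    (r.Di1 car cx r.Wt cone kx fo lm hara)
  have hm := r.Hm fo la lo lm
  have supp := r.Supp r.Mp fr pt th (r.Supp1 r.Td r.Du fr pt th)
  exact ⟨r.NV rowSpread (r.NVl r.Reg r.Span esz di)
    (r.TrO car cone r.Nak lm gk hm (r.RedL fo fr lo lm hm))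
    (r.TrC car r.Ext lm hm (r.ExtL fo la fr lo lm hm)),
    r.VY car v fo lm th supp (r.Kill car cx cone filt fo fr lo lm)
    (r.Xi car r.Wt cone ri left r.Div fo lm pt th) r.Rank⟩

section Van

variable {Ω ι J : Type} {n m : ℕ} [CommRing Ω] [IsDomain Ω] [Algebra ℂ Ω] [Fintype ι]
  [LinearOrder ι] [Inhabited ι] [Fintype J]

theorem van (S : Sys ℂ Ω ι J n) (x : Fin m → Ω) (f : Ωˣ) (a : J → ℕ) (w : J → ℤ) (ρ : ι → Ωˣ)
    (μ : ℕ) (hg : S.Good) (hf : ∀ c, S.IsU c (f * S.mon c fun j => -(a j : ℤ)))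
    (hpol : S.Pol x w ρ) (hμ : 0 < μ) (u : ℕ) :
    Van (cech ((S.px m).dd + we (S.th x f))) ((S.px m).T {cl w μ - u • fun j => (a j : ℤ)})
      ((S.px m).T {cl w μ}) n := by
  obtain ⟨hA1, -⟩ := rows.Adm fr lo rows.Val Ω ι J n m S x w ρ μ f (fun j => (a j : ℤ)) hpol hμ hf
  have hnv : ∀ x0 c, S.Adm x c → S.NV x x0 c := fun x0 c => nv_vy.1 Ω ι J n m S x x0 c hg
  have ha0 : (0 : J → ℤ) ≤ fun j => (a j : ℤ) := fun j => Int.natCast_nonneg _
  have hle : cl w μ - u • (fun j => (a j : ℤ)) ≤ cl w μ := sub_le_self _ (nsmul_nonneg ha0 u)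
  have hL : Le {cl w μ} {cl w μ - u • fun j => (a j : ℤ)} :=
    fun d hd => ⟨_, mem_singleton_self _, by rwa [mem_singleton.1 hd]⟩
  have G := gr Ω ι J n m S x f a hpol.x_mem hf
  rw [← G.sum]
  refine (rows.Wt _).van _ _ _ _ _ n (1 - n) (G.wok _ _ hL) (fun y hy w hw => ?_) ?_
  · rw [G.low _ _ y hy w hw]
    exact zero_mem _
  refine nv_vy.2 Ω ι J n m S x f a hpol.x_mem hf hg _ _ (n - 1) u hL
    (fun d hd => ⟨_, mem_singleton_self _, by rw [mem_singleton.1 hd, sub_add_cancel]⟩)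
    (fun x0 => MainX.nvp rows.Cx cone lm S x x0 hpol.x_mem _ _ hle (hnv x0 _ ?_) (hnv x0 _ ?_)) n
    (by omega)
  · have := hA1 (-(u : ℤ))
    rwa [neg_smul, natCast_zsmul, ← sub_eq_add_neg] at this
  · have := hA1 0
    rwa [zero_smul, add_zero] at this

end Van

section Gen

variable {k Ω ι J : Type} {n : ℕ} [CommRing k] [CommRing Ω] [Algebra k Ω] [Fintype J]
  {S : Sys k Ω ι J n}

open EtaX in
theorem gen [Fintype ι] [LinearOrder ι] (θ β : Fin n → Ω) (F : Ωˣ)
    (av kk c0 : J → ℤ) (u u' : ℕ) (hr : ∀ c l, S.r l ∈ S.A c)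
    (hf : ∀ c, S.IsU c (F * S.mon c (-av)))
    (hdet : ∀ c, ∃ U : Ωˣ, S.IsU c U ∧
      (Matrix.of fun l i => S.D c i (S.r l)).det = U * S.mon c kk)
    (hβ : ∀ c l, (F : Ω) ^ u * β l ∈ S.A c) (hB : ∀ c, ∑ l, nab S.R θ l (β l) ∈ S.A c)
    (h1 : c0 ≤ kk + 1) (h2 : c0 - u' • av ≤ (u : ℤ) • -av) :
    sg ι (-co β (top n 1)) ∈ S.T {c0 - u' • av} n ∧
      cech (S.dd + we θ) (sg ι (-co β (top n 1))) ∈ S.T {c0} (n + 1) := by
  have hF := fo Ω n
  have hd := fd k Ω n S.R S.R_comm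
  have hA := la Ω n
  have hR := fr k Ω ι J n S
  have hL := lo k Ω ι J n S
  have hM := lm k Ω ι J n S
  have ms : ∀ c : ι, c ∈ ({c} : Finset ι) := mem_singleton_self
  refine ⟨sg_mem fun c => neg_mem ?_, ?_⟩
  · set N := (S.A c).toSubring.toAddSubgroup
    have e : β = (((F⁻¹ : Ωˣ) : Ω) ^ u) • fun l => (F : Ω) ^ u * β l := by
      funext l
      rw [Pi.smul_apply, smul_eq_mul, ← mul_assoc, ← mul_pow, Units.inv_mul, one_pow, one_mul]
    rw [hM.mem _ _ c (ms c), e, hF.co_smul, op_mul, mu_apply, crd, hA.lin]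
    have m1 := hF.fl_co N N _ (fun l h hh => (S.A c).mul_mem (hβ c l) hh) _ _
      (top_mem hF (one_mem (S.A c)))
    have m2 := hA.fl (fun l i => S.v c i l) N (fun l i h hh => (S.A c).mul_mem
      ((S.A c).mul_mem (hR.un_mem c i) (S.D_mem c i _ (hr c l))) hh) _ _ m1
    rw [← sub_eq_add_neg] at m2
    refine hF.fl_mu N _ _ (fun h hh => ?_) _ _ m2
    have := mem_NN hR hL h2 (mul_mem (pow_mem (hf c).2 u) hh)
    rwa [hR.mon_zsmul, zpow_natCast, mul_right_comm, Units.val_pow_eq_pow_val, ← mul_pow,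
      mul_inv, Units.val_mul, Units.inv_mul_cancel_right] at this
  · have e1 : we θ (co β (top n 1)) = top n (β ⬝ᵥ θ) := by
      have := DFunLike.congr_fun (hF.we_co θ β) (top n 1)
      rwa [op_add, op_mul, op_mul, hF.we_top, map_zero, add_zero, mu_apply, smul_top,
        mul_one] at this
    have e2 : (S.dd + we θ) (co β (top n 1)) = top n (∑ l, nab S.R θ l (β l)) := by
      rw [op_add, dd, hd.d_co_top, e1, top, top, top, ← Pi.single_add, dotProduct_comm]
      simp only [nab, sum_add_distrib, dotProduct]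
    rw [cech_sg (car _ _), map_neg, neg_neg, e2]
    refine sg_mem fun c => ?_
    obtain ⟨U, hU, e⟩ := hdet c
    rw [hM.mem _ _ c (ms c), crd_top det hR e, add_sub_cancel_right]
    exact top_mem hF (mem_NN hR hL h1 (mul_mem hU.1 (hB c)))

end Gen

end CCX

open CCX MvPolynomial in
/-- Local primitives in the lattice of an ample divisor, with all parameters kept. -/
theorem cc1 {Ω ι J : Type} {m : ℕ} [CommRing Ω] [IsDomain Ω] [Algebra ℂ Ω] [Fintype ι]
    [Nonempty ι] [Fintype J] (S : Sys ℂ Ω ι J 3) (x : Fin m → Ω) (f : Ωˣ) (a kk : J → ℕ)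
    (w : J → ℤ) (ρ : ι → Ωˣ) (μ u : ℕ) (β : Fin 3 → PX m Ω) (hg : S.Good)
    (hr : ∀ c l, S.r l ∈ S.A c) (hf : ∀ c, S.IsU c (f * S.mon c fun j => -(a j : ℤ)))
    (hdet : ∀ c, ∃ U : Ωˣ, S.IsU c U ∧ (Matrix.of fun l i => S.D c i (S.r l)).det =
      ((U * S.mon c fun j => (kk j : ℤ) : Ωˣ) : Ω))
    (hβ : ∀ c l e, (f : Ω) ^ u * coeff e (β l) ∈ S.A c)
    (hB : ∀ c e, coeff e (∑ l, nab (S.px m).R (S.th x f) l (β l)) ∈ S.A c)
    (hpol : S.Pol x w ρ) (hμ : 0 < μ) (h1 : ∀ j, cl w μ j ≤ kk j + 1) (h2 : ∀ j, 0 < a j) :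
    ∃ (g : ι → Fin 3 → PX m Ω) (τ : ι → ι → PX m Ω),
      (∀ c i e, (fun l => coeff e ((β - curl (nab (S.px m).R (S.th x f)) (g c)) l)) ⬝ᵥ S.e c i *
        S.mon c ((fun j => (kk j : ℤ)) + 1 - cl w μ) ∈ S.A c) ∧
      ∀ c d i e, (S.v c i ⬝ᵥ fun l =>
        coeff e (g c l - g d l - nab (S.px m).R (S.th x f) l (τ c d))) * S.mon c (-cl w μ) ∈
        S.A c ⊔ S.A d := by
  let _ : LinearOrder ι := IsWellOrder.linearOrder WellOrderingRel
  let _ : Inhabited ι := Classical.inhabited_of_nonempty inferInstance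
  have P := pt _ _ _ _ _ S (Option (Fin m))
  have hd : ∀ c, ∃ U : (PX m Ω)ˣ, (S.px m).IsU c U ∧ (Matrix.of fun l i => (S.px m).D c i
      ((S.px m).r l)).det = U * (S.px m).mon c fun j => (kk j : ℤ) := fun c => by
    obtain ⟨U, hU, e⟩ := hdet c
    refine ⟨Units.map (C : Ω →+* PX m Ω).toMonoidHom U, ⟨C_mem_spol hU.1, ?_⟩, ?_⟩
    · rw [← map_inv]
      exact C_mem_spol hU.2
    · change _ = C (U : Ω) * _
      rw [P.mon, ← map_mul, ← Units.val_mul, ← e, RingHom.map_det]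
      congr 1
      exact Matrix.ext fun l i => dpol_C _ _
  have G := gen (S := S.px m) (S.th x f) β (Units.map (C : Ω →+* PX m Ω).toMonoidHom f)
    (fun j => a j) (fun j => kk j) (cl w μ) u (u + ∑ j, (kk j + 1))
    (fun c l => C_mem_spol (hr c l))
  refine (G (fun c => ?_) hd (fun c l e => ?_) hB h1 fun j => ?_).elim fun g1 g2 => ?_
  · constructor
    · rw [Units.val_mul, P.mon]
      have := C_mem_spol (κ := Option (Fin m)) (hf c).1
      rwa [Units.val_mul, map_mul] at this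
    · rw [mul_inv, Units.val_mul, P.mon_inv, ← map_inv]
      have := C_mem_spol (κ := Option (Fin m)) (hf c).2
      rwa [mul_inv, Units.val_mul, map_mul] at this
  · change coeff e (C (f : Ω) ^ u * β l) ∈ _
    rw [← map_pow, coeff_C_mul]
    exact hβ c l e
  · have s : kk j + 1 ≤ ∑ j, (kk j + 1) :=
      single_le_sum (f := fun j => kk j + 1) (fun _ _ => Nat.zero_le _) (mem_univ j)
    generalize ∑ j, (kk j + 1) = t at s
    rw [Pi.sub_apply, Pi.smul_apply, Pi.smul_apply, Pi.neg_apply, smul_eq_mul, nsmul_eq_mul]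
    push_cast
    have := h1 j
    have : (t : ℤ) ≤ t * a j := le_mul_of_one_le_right (by positivity) (by exact_mod_cast h2 j)
    have : (kk j : ℤ) + 1 ≤ t := by exact_mod_cast s
    linarith
  · obtain ⟨γ, hγ, h⟩ := van S x f a w ρ μ hg hf hpol hμ _ _ g1 g2
    obtain ⟨g, τ, e1, e2⟩ := explicit (car _ _) (car _ _) (fo _ _) (la _ _) det (fr _ _ _ _ _ _)
      (lo _ _ _ _ _ _) (lm _ _ _ _ _ _) (S.th x f) β _ _ _ hd γ hγ h
    refine ⟨g, τ, fun c i e => ?_, fun c d i e => ?_⟩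
    · have := e1 c i e
      rw [P.mon, mul_comm, coeff_C_mul, mul_comm] at this
      simpa only [dotProduct, coeff_sum, P.e, mul_comm _ (C _), coeff_C_mul,
        mul_comm (S.e c i _)] using this
    · have h3 : (S.px m).A c ⊔ (S.px m).A d ≤ spol _ (S.A c ⊔ S.A d) :=
        sup_le (fun p hp e => (le_sup_left : S.A c ≤ _) (hp e))
          fun p hp e => (le_sup_right : S.A d ≤ _) (hp e)
      have := h3 (e2 c d i) e
      rw [P.mon, mul_comm, coeff_C_mul, mul_comm] at this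
      simpa only [dotProduct, coeff_sum, P.v, coeff_C_mul] using this

end Pool.Agent.MP_ee8c61_ag.M3RESID
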