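import Pool.Agent.MP_ee8c61_ag.M3RESID.F3
import Pool.Agent.MP_ee8c61_ag.M3RESID.Jac
import Pool.Agent.MP_ee8c61_ag.M3J.Core

/-!
Restriction of local primitives to a divisor of exponent zero: potentials.
-/

namespace Pool.Agent.MP_ee8c61_ag.M3RESID

open M3 Finset
open M3J (ex br LB)

noncomputable section

variable {L k : Type} [Field L] [Algebra ℂ L] [Field k] [Algebra ℂ k]

theorem J3_ne (R : Co L 3) {e : Fin 3 → VF L} (h : ∀ c : Fin 3 → L, ∑ a, c a • e a = 0 → c = 0) :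
    J3 R e ≠ 0 := fun h0 => by
  obtain ⟨c, hc, h1⟩ := Matrix.exists_vecMul_eq_zero_iff.2 h0
  refine hc (h c (R.span _ fun l => ?_))
  have := congrFun h1 l
  simpa [Matrix.vecMul, dotProduct, sum_ap] using this

theorem crl_add (d : Dv L) (e : Fin 3 → VF L) (g g' : Fin 3 → L) :
    crl d e (g + g') = crl d e g + crl d e g' := by
  rw [← sub_eq_iff_eq_add, ← crl_sub, add_sub_cancel_right]

/-- Every exact field is a curl. -/
theorem exists_crl (R : Co L 3) {d : Dv L} {u : VF L} (hu : u ∈ d.Ex) :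
    ∃ g, u = crl d R.D g := by
  refine d.Ex_ind (p := fun u => ∃ g, u = crl d R.D g) (fun X Y => ?_)
    ⟨0, by simpa using (crl_sub d R.D 0 0).symm⟩ ?_ hu
  · refine ⟨![wg X Y (R.z 2) (R.z 1), wg X Y (R.z 0) (R.z 2), wg X Y (R.z 1) (R.z 0)], ?_⟩
    rw [← one_smul L X, B_eq R, crl_dB R, one_smul]
    refine congrArg _ (funext fun a => funext fun b => ?_)
    fin_cases a <;> fin_cases b <;> simp [Lam, wg, R.dual]
  · rintro _ _ ⟨g, rfl⟩ ⟨g', rfl⟩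
    exact ⟨g + g', (crl_add d _ g g').symm⟩

/-- The logarithmic frame along the coordinate `i`. -/
def fr (C : Co L 3) (i : Fin 3) : Fin 3 → VF L :=
  ![C.th i, C.D (i.succAbove 1), C.D (i.succAbove 0)]

theorem fr_comm (C : Co L 3) (i a b : Fin 3) (g : L) :
    fr C i a (fr C i b g) = fr C i b (fr C i a g) := by
  have h := fun j => C.th_D_comm (i.succAbove_ne j).symm g
  fin_cases a <;> fin_cases b <;> simp [fr, h, C.comm (i.succAbove 0)]

theorem fr_J3 (R C : Co L 3) (i : Fin 3) : J3 R (fr C i) ≠ 0 := J3_ne R fun c h => by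
  have h1 := fun j => congrArg (fun v : VF L => v (C.z j)) h
  have h2 := h1 i
  have h3 := h1 (i.succAbove 0)
  have h4 := h1 (i.succAbove 1)
  simp [Fin.sum_univ_three, fr, C.th_z, C.dual, C.ne] at h2 h3 h4
  funext a
  fin_cases a <;> simp [h2, h3, h4]

/-- The bivector is logarithmic at `o`. -/
def LgB (R : Co L 3) (o : DV L) (g : Fin 3 → L) : Prop :=
  ∀ m m', ∀ u ∈ o.F m, ∀ u' ∈ o.F m', Lam R.D g u u' ∈ o.F (m + m')

theorem wg_F {o : DV L} {X Y : VF L} (hX : X ∈ LV o 0) (hY : Y ∈ LV o 0) {m m' : ℤ} {u u' : L}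
    (hu : u ∈ o.F m) (hu' : u' ∈ o.F m') : wg X Y u u' ∈ o.F (m + m') := by
  refine sub_mem ?_ ?_
  · simpa using o.F_mul (hX _ _ hu) (hY _ _ hu')
  · simpa [add_comm] using o.F_mul (hX _ _ hu') (hY _ _ hu)

theorem lgB_of (R : Co L 3) {o : DV L} {e : Fin 3 → VF L} (hJ : J3 R e ≠ 0)
    (he : ∀ a, e a ∈ LV o 0) {g : Fin 3 → L} (hg : ∀ a, pr R g (e a) / J3 R e ∈ o.F 0) :
    LgB R o g := fun m m' u hu u' hu' => by
  rw [← Lam_frame R e hJ]
  exact add_mem (add_mem (F_mul0 (hg _) (wg_F (he _) (he _) hu hu'))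
    (F_mul0 (hg _) (wg_F (he _) (he _) hu hu'))) (F_mul0 (hg _) (wg_F (he _) (he _) hu hu'))

namespace Pl

variable {P : Pl L k} {C : Co L 3} {i : Fin 3} {C' : Co k 2} {d : Dv L} {e : Dv k}

theorem Rs.wg {X Y : VF L} {X' Y' : VF k} (hX : P.Rs X X') (hY : P.Rs Y Y') {u u' : L}
    (hu : u ∈ P.o.F 0) (hu' : u' ∈ P.o.F 0) :
    P.π (wg X Y u u') = M3RESID.wg X' Y' (P.π u) (P.π u') := by
  rw [M3RESID.wg, π_sub (F_mul0 (hX.ap hu) (hY.ap hu')) (F_mul0 (hX.ap hu') (hY.ap hu)),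
    P.mul _ (hX.ap hu) _ (hY.ap hu'), P.mul _ (hX.ap hu') _ (hY.ap hu), hX.2 _ hu, hX.2 _ hu',
    hY.2 _ hu, hY.2 _ hu', M3RESID.wg]

theorem crl_rs0 (hC : P.RsC C i C') (h : C.At P.o i) (hd : Exp d P.o 0) (he : P.RsD d e)
    {G : Fin 3 → L} (hG : crl d (fr C i) G ∈ LV P.o 0) (h0 : G 0 ∈ P.o.F 0) :
    P.Rs (crl d (fr C i) G) (ex e C' (P.π (G 0))) := by
  have hθ := h.eul
  have ha := hd.of_eul h.vz hθ
  have hc : ∀ j : ℤ, j < 0 → (j : ℂ) + 0 ≠ 0 := fun j hj => Co.ne_of_lt (by simp) hj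
  have r := fun j => hd.reg _ ((hC.D h j).smul h0).1
  have m : ∀ j, crl d (fr C i) G (C.z j) ∈ P.o.F 0 := fun j => by
    simpa using hG 0 _ (h.z_F j)
  have m1 := m (i.succAbove 0)
  have m2 := m (i.succAbove 1)
  rw [crl_eq d (fr_comm C i)] at m1 m2
  simp [Fin.sum_univ_three, fr, C.th_z, C.dual, curl, Nb] at m1 m2
  have h1 : G 1 ∈ P.o.F 0 := nab_inj hθ ha hc (by simpa using add_mem m1 (r 1))
  have h2 : G 2 ∈ P.o.F 0 := nab_inj hθ ha hc (by simpa using sub_mem (r 0) m2)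
  have r0 : P.Rs (C.th i) 0 := Rs_eul hθ
  have := ((Rs.B he hd.reg ((hC.D h 0).smul h0) (hC.D h 1)).add
    (Rs.B he hd.reg (r0.smul h1) (hC.D h 0))).add (Rs.B he hd.reg ((hC.D h 1).smul h2) r0)
  rw [smul_zero, e.B_zero, e.B_zero', add_zero, add_zero] at this
  exact this

theorem lam_rs (hC : P.RsC C i C') (h : C.At P.o i) {G : Fin 3 → L} (hG : ∀ a, G a ∈ P.o.F 0)
    {u u' : L} (hu : u ∈ P.o.F 0) (hu' : u' ∈ P.o.F 0) :
    P.π (Lam (fr C i) G u u') = P.π (G 0) * br C' (P.π u) (P.π u') := by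
  have r0 : P.Rs (C.th i) 0 := Rs_eul h.eul
  have m : ∀ {X Y : VF L} {X' Y' : VF k}, P.Rs X X' → P.Rs Y Y' →
      M3RESID.wg X Y u u' ∈ P.o.F 0 := fun hX hY => by simpa using wg_F hX.1 hY.1 hu hu'
  have r1 := hC.D h 0
  have r2 := hC.D h 1
  change P.π (G 0 * M3RESID.wg (C.D (i.succAbove 0)) (C.D (i.succAbove 1)) u u' +
    G 1 * M3RESID.wg (C.th i) (C.D (i.succAbove 0)) u u' +
    G 2 * M3RESID.wg (C.D (i.succAbove 1)) (C.th i) u u') = _
  rw [P.add _ (add_mem (F_mul0 (hG 0) (m r1 r2)) (F_mul0 (hG 1) (m r0 r1))) _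
    (F_mul0 (hG 2) (m r2 r0)), P.add _ (F_mul0 (hG 0) (m r1 r2)) _ (F_mul0 (hG 1) (m r0 r1)),
    P.mul _ (hG 0) _ (m r1 r2), P.mul _ (hG 1) _ (m r0 r1), P.mul _ (hG 2) _ (m r2 r0),
    r1.wg r2 hu hu', r0.wg r1 hu hu', r2.wg r0 hu hu']
  simp only [M3RESID.wg, br, Derivation.zero_apply]
  ring

theorem fr_coef (h : C.At P.o i) {G : Fin 3 → L}
    (hG : ∀ m m', ∀ u ∈ P.o.F m, ∀ u' ∈ P.o.F m', Lam (fr C i) G u u' ∈ P.o.F (m + m'))
    (a : Fin 3) : G a ∈ P.o.F 0 := by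
  have z1 : C.z i ∈ P.o.F 1 := Or.inr h.vz.ge
  have h0 := hG 0 0 _ (h.z_F (i.succAbove 0)) _ (h.z_F (i.succAbove 1))
  have h1 := F_div (hG 1 0 _ z1 _ (h.z_F (i.succAbove 0))) (C.z i)
  have h2 := F_div (hG 0 1 _ (h.z_F (i.succAbove 1)) _ z1) (C.z i)
  simp [Lam, M3RESID.wg, fr, C.th_z, C.dual, h.vz, C.ne] at h0 h1 h2
  fin_cases a
  exacts [h0, h1, h2]

/-- The potentials of the restricted primitives. -/
theorem cce (hC : P.RsC C i C') (h : C.At P.o i) (hd : Exp d P.o 0) (he : P.RsD d e)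
    (R : Co L 3) (C₀ : Co k 2) {b : VF L} {v : VF k} (hv : P.Res d b v) :
    ∃ p : (Fin 3 → L) → k,
      (∀ g, b - crl d R.D g ∈ LV P.o 0 → P.Rs (b - crl d R.D g) (v - ex e C₀ (p g))) ∧
      ∀ g g' τ, LgB R P.o (g - g' - fun l => Nb d R.D l τ) → ∀ u ∈ P.o.F 0, ∀ u' ∈ P.o.F 0,
        (p g - p g') * br C₀ (P.π u) (P.π u') =
          P.π (Lam R.D (g - g' - fun l => Nb d R.D l τ) u u') := by
  have hθ := h.eul
  have ha := hd.of_eul h.vz hθ
  have hc : ∀ j : ℤ, j < 0 → (j : ℂ) + 0 ≠ 0 := fun j hj => Co.ne_of_lt (by simp) hj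
  have hJ := fr_J3 R C i
  obtain ⟨u₀, hu₀, hv⟩ := hv
  obtain ⟨g₀, rfl⟩ := exists_crl R hu₀
  choose s hs using nab_surj hθ ha hc
  obtain ⟨G, hG⟩ : ∃ G : (Fin 3 → L) → Fin 3 → L,
    G = fun g a => pr R g (fr C i a) / J3 R (fr C i) := ⟨_, rfl⟩
  have G1 : ∀ g g', G (g - g') = G g - G g' := fun g g' => by
    funext a
    simp only [hG, pr_sub, sub_div, Pi.sub_apply]
  refine ⟨fun g => P.π (G (g - g₀) 0 - d.δ (s (G (g - g₀) 0) • C.th i)) *
    br C' (C₀.z 0) (C₀.z 1), fun g hg => ?_, fun g g' τ hl u hu u' hu' => ?_⟩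
  · have e1 : crl d R.D g - crl d R.D g₀ = crl d (fr C i)
        (G (g - g₀) - fun a => Nb d (fr C i) a (s (G (g - g₀) 0))) := by
      rw [crl_sub, crl_grad d (fr_comm C i), sub_zero, hG, crl_frame R d _ hJ, crl_sub]
    have h0 : crl d R.D g - crl d R.D g₀ ∈ LV P.o 0 := by simpa using sub_mem hv.1 hg
    have h1 := crl_rs0 hC h hd he (e1 ▸ h0) (hs _)
    rw [← e1, M3J.ex_br e C' C₀] at h1
    have h2 := hv.sub h1
    rwa [sub_sub, add_sub_cancel] at h2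
  · rw [← Lam_frame R _ hJ]
    have h1 := fr_coef (G := G (g - g' - fun l => Nb d R.D l τ)) h (by
      simpa only [hG, Lam_frame R _ hJ, LgB] using hl)
    have h2 := lam_rs hC h h1 hu hu'
    rw [hG] at h2
    rw [h2, ← sub_mul, mul_assoc, ← M3J.br_chain, ← π_sub (hs _) (hs _)]
    congr 1
    have e1 : G (g - g' - fun l => Nb d R.D l τ) 0 =
        G (g - g₀) 0 - G (g' - g₀) 0 - d.δ ((τ / J3 R (fr C i)) • C.th i) := by
      rw [← Pi.sub_apply (G _), ← G1, sub_sub_sub_cancel_right, G1, Pi.sub_apply]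
      congr 1
      rw [hG]
      exact grad_frame R d (fr_comm C i) hJ τ 0
    have e2 : G (g - g₀) 0 - d.δ (s (G (g - g₀) 0) • C.th i) -
        (G (g' - g₀) 0 - d.δ (s (G (g' - g₀) 0) • C.th i)) -
        G (g - g' - fun l => Nb d R.D l τ) 0 =
        d.δ ((τ / J3 R (fr C i) - s (G (g - g₀) 0) + s (G (g' - g₀) 0)) • C.th i) := by
      rw [e1, add_smul, sub_smul, map_add, map_sub]
      ring
    have m1 := sub_mem (sub_mem (hs (G (g - g₀) 0)) (hs (G (g' - g₀) 0))) (h1 0)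
    rw [e2] at m1
    have m2 := nab_gr hθ ha (nab_inj hθ ha hc m1)
    rw [← e2] at m2
    have := π_congr (h1 0) (by simpa using m2)
    rw [this, hG]

end Pl

end

end Pool.Agent.MP_ee8c61_ag.M3RESID
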