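import Pool.Agent.MP_ee8c61_ag.M3RESID.Alg

/-!
Reduction of the pole order in a chart and the identity at a triple point.
-/

namespace Pool.Agent.MP_ee8c61_ag.M3RESID

open M3 Finset

variable {L : Type} [Field L] [Algebra ℂ L] {n : ℕ}

namespace Co

variable (C : Co L n) (O : Subalgebra ℂ L) (d : Dv L)

/-- The monomial `c` times fields that are logarithmic along the coordinates in `s` and regular
along the others. -/
def G (s : Finset (Fin n)) (c : Fin n → ℤ) : AddSubgroup (VF L) where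
  carrier := {v | ∀ i, v (C.z i) / ((if i ∈ s then C.z i else 1) * C.mon c) ∈ O}
  zero_mem' := fun i => by simp
  add_mem' := fun {v u} hv hu i => by
    rw [Derivation.add_apply, add_div]
    exact add_mem (hv i) (hu i)
  neg_mem' := fun {v} hv i => by
    rw [Derivation.neg_apply, neg_div]
    exact neg_mem (hv i)

theorem G_univ (c : Fin n → ℤ) : C.G O univ c = C.F O c := by
  ext v
  simp [G, F]

variable {C O d}

theorem mem_G {s : Finset (Fin n)} {c : Fin n → ℤ} {v : VF L} :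
    v ∈ C.G O s c ↔ ∀ i, v (C.z i) / ((if i ∈ s then C.z i else 1) * C.mon c) ∈ O := Iff.rfl

theorem mem_F {c : Fin n → ℤ} {v : VF L} :
    v ∈ C.F O c ↔ ∀ i, v (C.z i) / (C.z i * C.mon c) ∈ O := Iff.rfl

theorem div_mon_anti (hz : ∀ i, C.z i ∈ O) {c c' : Fin n → ℤ} (h : c ≤ c') {g : L}
    (hg : g / C.mon c' ∈ O) : g / C.mon c ∈ O := by
  have : g / C.mon c = g / C.mon c' * C.mon (c' - c) := by
    have h1 := C.mon_add c (c' - c)
    rw [add_sub_cancel] at h1
    have := C.mon_ne c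
    have := C.mon_ne (c' - c)
    rw [h1]
    field_simp
  rw [this]
  exact mul_mem hg (C.mon_mem hz (sub_nonneg.2 h))

theorem G_anti (hz : ∀ i, C.z i ∈ O) (s : Finset (Fin n)) {c c' : Fin n → ℤ} (h : c ≤ c') :
    C.G O s c' ≤ C.G O s c := fun v hv i => by
  have := div_mon_anti hz h (g := v (C.z i) / (if i ∈ s then C.z i else 1))
    (by rw [div_div]; exact hv i)
  rwa [div_div] at this

theorem G_le_F (hz : ∀ i, C.z i ∈ O) (s : Finset (Fin n)) (c : Fin n → ℤ) :
    C.F O c ≤ C.G O s c := fun v hv i => by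
  split_ifs with h
  · exact hv i
  · have : v (C.z i) / (1 * C.mon c) = v (C.z i) / (C.z i * C.mon c) * C.z i := by
      have := C.ne i
      have := C.mon_ne c
      field_simp
    rw [this]
    exact mul_mem (hv i) (hz i)

theorem smul_G {s : Finset (Fin n)} {c c' : Fin n → ℤ} {v : VF L} {g : L}
    (hg : g / C.mon c' ∈ O) (hv : v ∈ C.G O s c) : g • v ∈ C.G O s (c' + c) := fun i => by
  have : (g • v) (C.z i) / ((if i ∈ s then C.z i else 1) * C.mon (c' + c)) =
      g / C.mon c' * (v (C.z i) / ((if i ∈ s then C.z i else 1) * C.mon c)) := by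
    rw [C.mon_add, Derivation.smul_apply, smul_eq_mul, div_mul_div_comm]
    congr 1
    ring
  rw [this]
  exact mul_mem hg (hv i)

theorem smul_G0 {s : Finset (Fin n)} {c : Fin n → ℤ} {v : VF L} {g : L}
    (hg : g ∈ O) (hv : v ∈ C.G O s c) : g • v ∈ C.G O s c := by
  have := smul_G (c' := 0) (by rwa [C.mon_zero, div_one]) hv
  rwa [zero_add] at this

theorem th_G (s : Finset (Fin n)) (hz : ∀ i, C.z i ∈ O) (i : Fin n) : C.th i ∈ C.G O s 0 :=
  G_le_F hz s 0 fun j => by
    rw [C.th_z, C.mon_zero, mul_one]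
    split_ifs
    · rw [div_self (C.ne j)]
      exact one_mem _
    · simp

/-- A field of the lattice applied to a function with logarithmic derivative in `O`. -/
theorem G_dlog {s : Finset (Fin n)} {c : Fin n → ℤ} {v : VF L} {f : L}
    (hf : ∀ i, (if i ∈ s then C.z i else 1) * C.D i f / f ∈ O) (hv : v ∈ C.G O s c) :
    v f / f / C.mon c ∈ O := by
  rw [C.exp_apply v f, sum_div, sum_div]
  refine sum_mem fun i _ => ?_
  have h1 : (if i ∈ s then C.z i else 1) ≠ 0 := by
    split_ifs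
    · exact C.ne i
    · exact one_ne_zero
  have : v (C.z i) * C.D i f / f / C.mon c =
      v (C.z i) / ((if i ∈ s then C.z i else 1) * C.mon c) *
        ((if i ∈ s then C.z i else 1) * C.D i f / f) := by
    have := C.mon_ne c
    field_simp
  rw [this]
  exact mul_mem (hv i) (hf i)

/-- One step of the reduction. -/
theorem red_step (hS : C.St O) {s : Finset (Fin n)} {i : Fin n} (hi : i ∈ s) {a : ℂ}
    (ha : (d.δ (C.th i) - algebraMap ℂ L a) / C.z i ∈ O) {c : Fin n → ℤ} {v : VF L}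
    (hv : v ∈ C.G O s c) (hδ : d.δ v / C.mon (c + Pi.single i 1) ∈ O) :
    algebraMap ℂ L (c i + a) • v - d.B (C.th i) v ∈ C.G O s (c + Pi.single i 1) := fun j => by
  have hm := C.mon_ne c
  have hzi := C.ne i
  rw [C.mon_add, C.mon_single, zpow_one] at hδ ⊢
  obtain ⟨ε, hε⟩ : ∃ ε, ε = (if j ∈ s then C.z j else 1) := ⟨_, rfl⟩
  have hε0 : ε ≠ 0 := by
    rw [hε]
    split_ifs
    · exact C.ne j
    · exact one_ne_zero
  have hvj := hv j
  rw [← hε] at hvj ⊢
  obtain ⟨h, hh⟩ : ∃ h, h = v (C.z j) / (ε * C.mon c) := ⟨_, rfl⟩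
  rw [← hh] at hvj
  have e1 : v (C.z j) = ε * C.mon c * h := by
    rw [hh]
    field_simp
  obtain ⟨p, hp⟩ : ∃ p, p = (d.δ (C.th i) - algebraMap ℂ L a) / C.z i := ⟨_, rfl⟩
  rw [← hp] at ha
  have e2 : d.δ (C.th i) = algebraMap ℂ L a + C.z i * p := by
    rw [hp]
    field_simp
    ring
  obtain ⟨q, hq⟩ : ∃ q, q = d.δ v / (C.mon c * C.z i) := ⟨_, rfl⟩
  rw [← hq] at hδ
  have e3 : d.δ v = C.mon c * C.z i * q := by
    rw [hq]
    field_simp
  have key : (algebraMap ℂ L (c i + a) • v - d.B (C.th i) v) (C.z j) /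
      (ε * (C.mon c * C.z i)) = (if i = j then q else 0) - C.D i h - p * h := by
    rw [Derivation.sub_apply, Derivation.smul_apply, d.B_apply, e2, e3, C.th_z]
    by_cases hij : i = j
    · subst hij
      rw [if_pos hi] at hε
      subst hε
      simp only [if_true, e1, Derivation.leibniz, C.th_mon, C.th_z, C.th_apply i h, smul_eq_mul,
        map_add, map_intCast]
      field_simp
      ring
    · have : C.th i ε = 0 := by
        rw [hε]
        split_ifs
        · rw [C.th_z, if_neg hij]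
        · exact Derivation.map_one_eq_zero _
      simp only [hij, if_false, e1, Derivation.leibniz, C.th_mon, this, C.th_apply i h,
        smul_eq_mul, map_add, map_intCast, map_zero]
      field_simp
      ring
  rw [key]
  refine sub_mem (sub_mem ?_ (hS.D i h hvj)) (mul_mem ha hvj)
  split_ifs
  · exact hδ
  · exact zero_mem _

/-- Reduction of the pole order, with the companion field for the derivative in the exponent
of `f`. -/
theorem red (hS : C.St O) {s : Finset (Fin n)} {a : Fin n → ℂ}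
    (ha : ∀ i ∈ s, (d.δ (C.th i) - algebraMap ℂ L (a i)) / C.z i ∈ O) {f : L} (hf0 : f ≠ 0)
    (hf : ∀ i, (if i ∈ s then C.z i else 1) * C.D i f / f ∈ O) {c c' : Fin n → ℤ} {v : VF L}
    (hv : v ∈ C.G O s c) (hδ : d.δ v / C.mon c' ∈ O) (hs : ∀ i ∉ s, c' i ≤ c i)
    (hc : ∀ i ∈ s, ∀ j : ℤ, c i ≤ j → j < c' i → (j : ℂ) + a i ≠ 0) :
    ∃ u ∈ d.Ex, v - u ∈ C.G O s c' ∧ ∃ u' ∈ C.G O s (c ⊓ c'), d.δ u' + u f / f = 0 := by
  have key : ∀ (m : ℕ) (e : Fin n → ℤ), c ⊓ c' ≤ e → e ≤ c' → ∑ i, (c' i - e i) = m →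
      ∀ v ∈ C.G O s e, d.δ v / C.mon c' ∈ O →
      ∃ u ∈ d.Ex, v - u ∈ C.G O s c' ∧ ∃ u' ∈ C.G O s (c ⊓ c'), d.δ u' + u f / f = 0 := by
    intro m
    induction m with
    | zero =>
      intro e _ h2 h3 v hv _
      have : e = c' := funext fun i => by
        have := (sum_eq_zero_iff_of_nonneg fun i _ => sub_nonneg.2 (h2 i)).1 h3 i (mem_univ i)
        omega
      exact ⟨0, zero_mem _, by rwa [sub_zero, ← this], 0, zero_mem _, by simp⟩
    | succ m ih =>
      intro e h1 h2 h3 v hv hδ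
      obtain ⟨i, hi⟩ : ∃ i, e i < c' i := by
        by_contra! h
        have : ∑ i, (c' i - e i) ≤ 0 := sum_nonpos fun i _ => sub_nonpos.2 (h i)
        omega
      have hci : c i ≤ e i := by
        have := h1 i
        simp only [Pi.inf_apply, inf_le_iff] at this
        omega
      have his : i ∈ s := by
        by_contra h
        have := hs i h
        omega
      have hκ := hc i his (e i) hci hi
      have h2' : e + Pi.single i 1 ≤ c' := fun j => by
        by_cases hj : j = i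
        · subst hj
          simpa using hi
        · simpa [hj] using h2 j
      have h1' : e ≤ e + Pi.single i 1 := le_add_of_nonneg_right (Pi.single_nonneg.2 one_pos.le)
      have st := red_step hS his (ha i his) hv (div_mon_anti hS.z h2' hδ)
      obtain ⟨κ, hκe⟩ : ∃ κ, κ = algebraMap ℂ L ((e i : ℂ) + a i)⁻¹ := ⟨_, rfl⟩
      have hκO : κ ∈ O := hκe ▸ O.algebraMap_mem _
      have hκ1 : κ * algebraMap ℂ L ((e i : ℂ) + a i) = 1 := by
        rw [hκe, ← map_mul, inv_mul_cancel₀ hκ, map_one]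
      have st' : v - d.B (κ • C.th i) v ∈ C.G O s (e + Pi.single i 1) := by
        have := smul_G0 hκO st
        rwa [smul_sub, smul_smul, hκ1, one_smul, hκe, ← d.B_cst, ← hκe] at this
      obtain ⟨u, hu, h4, u', hu', h5⟩ := ih (e + Pi.single i 1) (h1.trans h1') h2' (by
          simp only [Pi.add_apply, ← sub_sub, sum_sub_distrib, sum_pi_single', mem_univ,
            if_true] at h3 ⊢
          push_cast at h3
          omega) _ st' (by rwa [map_sub, d.δ_B, sub_zero])
      have hX : κ • C.th i ∈ C.G O s 0 := smul_G0 hκO (th_G s hS.z i)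
      refine ⟨d.B (κ • C.th i) v + u, add_mem (d.B_mem _ _) hu, by rwa [← sub_sub],
        (((κ • C.th i) f / f) • v - (v f / f) • (κ • C.th i)) + u',
        add_mem (G_anti hS.z s h1 (sub_mem (smul_G0 ?_ hv) ?_)) hu', ?_⟩
      · have := G_dlog hf hX
        rwa [C.mon_zero, div_one] at this
      · have := smul_G (G_dlog hf hv) hX
        rwa [add_zero] at this
      · rw [map_add, Derivation.add_apply, add_div]
        linear_combination d.δ_sec f hf0 (κ • C.th i) v + h5
  exact key (∑ i, (c' i - (c ⊓ c') i)).toNat (c ⊓ c') le_rfl inf_le_right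
    (Int.toNat_of_nonneg (sum_nonneg fun i _ => sub_nonneg.2 (inf_le_right (a := c) i))).symm
    v (G_anti hS.z s inf_le_left hv) hδ

/-- Reduction of the pole order in a lattice of mixed type. -/
theorem redG (hS : C.St O) {s : Finset (Fin n)} {a : Fin n → ℂ}
    (ha : ∀ i ∈ s, (d.δ (C.th i) - algebraMap ℂ L (a i)) / C.z i ∈ O) {c c' : Fin n → ℤ}
    {v : VF L} (hv : v ∈ C.G O s c) (hδ : d.δ v / C.mon c' ∈ O) (hs : ∀ i ∉ s, c' i ≤ c i)
    (hc : ∀ i ∈ s, ∀ j : ℤ, c i ≤ j → j < c' i → (j : ℂ) + a i ≠ 0) :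
    ∃ u ∈ d.Ex, v - u ∈ C.G O s c' := by
  obtain ⟨u, hu, h, _⟩ := red hS ha one_ne_zero (fun i => by simp) hv hδ hs hc
  exact ⟨u, hu, h⟩

/-- Reduction of the pole order in the logarithmic lattice. -/
theorem redF (hS : C.St O) {a : Fin n → ℂ} (ha : C.Ad O d a) {c c' : Fin n → ℤ}
    {v : VF L} (hv : v ∈ C.F O c) (hδ : d.δ v / C.mon c' ∈ O)
    (hc : ∀ i, ∀ j : ℤ, c i ≤ j → j < c' i → (j : ℂ) + a i ≠ 0) :
    ∃ u ∈ d.Ex, v - u ∈ C.F O c' := by
  rw [← G_univ] at hv ⊢
  exact redG hS (fun i _ => ha i) hv hδ (fun i h => absurd (mem_univ i) h) fun i _ => hc i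

theorem Mx.add {g h : L} (hg : C.Mx O g) (hh : C.Mx O h) : C.Mx O (g + h) := by
  obtain ⟨p, hp, rfl⟩ := hg
  obtain ⟨q, hq, rfl⟩ := hh
  exact ⟨p + q, fun i => add_mem (hp i) (hq i), by simp [mul_add, sum_add_distrib]⟩

theorem Mx.mul {g h : L} (hg : g ∈ O) (hh : C.Mx O h) : C.Mx O (g * h) := by
  obtain ⟨q, hq, rfl⟩ := hh
  exact ⟨fun i => g * q i, fun i => mul_mem hg (hq i), by simp [mul_sum, mul_left_comm]⟩

theorem Mx.neg {g : L} (hg : C.Mx O g) : C.Mx O (-g) := by
  rw [← neg_one_mul]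
  exact Mx.mul (neg_mem (one_mem _)) hg

theorem Mx.sub {g h : L} (hg : C.Mx O g) (hh : C.Mx O h) : C.Mx O (g - h) := by
  rw [sub_eq_add_neg]
  exact hg.add hh.neg

theorem Mx.zero : C.Mx O 0 := ⟨0, fun _ => zero_mem _, by simp⟩

theorem Mx.sum {ι : Type} (s : Finset ι) {g : ι → L} (hg : ∀ i ∈ s, C.Mx O (g i)) :
    C.Mx O (∑ i ∈ s, g i) :=
  sum_induction g (C.Mx O) (fun _ _ => Mx.add) Mx.zero hg

theorem Mx.of_div {g : L} (i : Fin n) (hg : g / C.z i ∈ O) : C.Mx O g :=
  ⟨Pi.single i (g / C.z i), fun j => by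
    by_cases h : j = i
    · subst h
      simpa using hg
    · simp [h], by
    rw [sum_eq_single i (fun j _ h => by simp [h]) (by simp), Pi.single_eq_same,
      mul_div_cancel₀ _ (C.ne i)]⟩

theorem Mx.mem (hz : ∀ i, C.z i ∈ O) {g : L} (hg : C.Mx O g) : g ∈ O := by
  obtain ⟨p, hp, rfl⟩ := hg
  exact sum_mem fun i _ => mul_mem (hz i) (hp i)

theorem Mx.cst (h1 : ¬C.Mx O 1) {t : ℂ} (h : C.Mx O (algebraMap ℂ L t)) : t = 0 := by
  by_contra ht
  have := Mx.mul (O.algebraMap_mem t⁻¹) h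
  rw [← map_mul, inv_mul_cancel₀ ht, map_one] at this
  exact h1 this

theorem exp_th (v : VF L) (c : Fin n → ℤ) :
    v = C.mon c • ∑ i, (v (C.z i) / (C.z i * C.mon c)) • C.th i := by
  conv_lhs => rw [C.exp v]
  rw [smul_sum]
  refine sum_congr rfl fun i _ => ?_
  rw [th, smul_smul, smul_smul]
  congr 1
  have := C.ne i
  have := C.mon_ne c
  field_simp

/-- The divergence of a field of the lattice, modulo the ideal of the point. -/
theorem δ_F (hS : C.St O) {a : Fin n → ℂ} (ha : C.Ad O d a) {c : Fin n → ℤ} {v : VF L}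
    (hv : v ∈ C.F O c) : C.Mx O (d.δ v / C.mon c -
      ∑ i, algebraMap ℂ L (c i + a i) * (v (C.z i) / (C.z i * C.mon c))) := by
  have hm := C.mon_ne c
  have : d.δ v / C.mon c = ∑ i, (v (C.z i) / (C.z i * C.mon c) * (d.δ (C.th i) + c i) +
      C.th i (v (C.z i) / (C.z i * C.mon c))) := by
    conv_lhs => rw [exp_th (C := C) v c, d.smul, map_sum, sum_ap]
    simp only [d.smul, Derivation.smul_apply, C.th_mon, smul_eq_mul, mul_sum, ← sum_add_distrib,
      sum_div]
    refine sum_congr rfl fun i _ => ?_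
    field_simp
    ring
  rw [this, ← sum_sub_distrib]
  refine Mx.sum _ fun i _ => Mx.of_div i ?_
  have e : (v (C.z i) / (C.z i * C.mon c) * (d.δ (C.th i) + c i) +
      C.th i (v (C.z i) / (C.z i * C.mon c)) -
      algebraMap ℂ L (c i + a i) * (v (C.z i) / (C.z i * C.mon c))) / C.z i =
      v (C.z i) / (C.z i * C.mon c) * ((d.δ (C.th i) - algebraMap ℂ L (a i)) / C.z i) +
      C.D i (v (C.z i) / (C.z i * C.mon c)) := by
    have := C.ne i
    rw [C.th_apply i (_ / _), map_add, map_intCast]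
    generalize v (C.z i) / (C.z i * C.mon c) = h
    field_simp
    ring
  rw [e]
  exact add_mem (mul_mem (hv i) (ha i)) (hS.D i _ (hv i))

/-- If all exponents of the lattice vanish, the divergence vanishes at the point. -/
theorem δ_F0 (hS : C.St O) {a : Fin n → ℂ} (ha : C.Ad O d a) {c : Fin n → ℤ}
    (hc : ∀ i, (c i : ℂ) + a i = 0) {v : VF L} (hv : v ∈ C.F O c) : C.Mx O (d.δ v / C.mon c) := by
  simpa [hc] using δ_F hS ha hv

theorem ne_of_lt {a : ℂ} {c j : ℤ} (hc : (c : ℂ) + a = 0) (h : j < c) : (j : ℂ) + a ≠ 0 := by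
  intro h0
  have : (j : ℂ) = c := by linear_combination h0 - hc
  exact h.ne (by exact_mod_cast this)

/-- A field with poles on the coordinate hyperplanes whose divergence lies in the lattice of
exponent zero has a divergence that vanishes at the point. -/
theorem δ_Mx (hS : C.St O) {a : Fin n → ℂ} (ha : C.Ad O d a) {c c0 : Fin n → ℤ}
    (hc : ∀ i, (c i : ℂ) + a i = 0) {v : VF L} (hv : v ∈ C.F O c0) (hδ : d.δ v / C.mon c ∈ O) :
    C.Mx O (d.δ v / C.mon c) := by
  obtain ⟨u, hu, h⟩ := redF hS ha hv hδ fun i j _ h => ne_of_lt (hc i) h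
  have := δ_F0 hS ha hc h
  rwa [map_sub, d.δ_Ex hu, sub_zero] at this

/-- The identity at a point where all exponents are integers. -/
theorem triple (hS : C.St O) {a : Fin n → ℂ} (ha : C.Ad O d a) {c c0 c1 : Fin n → ℤ}
    (hc : ∀ i, (c i : ℂ) + a i = 0) (h1 : ¬C.Mx O 1)
    (hv : ∀ g ∈ O, ∃ t : ℂ, C.Mx O (g - algebraMap ℂ L t)) {f : L} (hf0 : f ≠ 0) {N : Fin n → ℂ}
    (hf : ∀ i, (C.th i f / f - algebraMap ℂ L (N i)) / C.z i ∈ O) {b0 b1 : VF L}
    (h0 : b0 ∈ C.F O c0) (hb1 : b1 ∈ C.F O c1) (hδ0 : d.δ b0 / C.mon c ∈ O)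
    (hδ1 : C.Mx O ((d.δ b1 + b0 f / f) / C.mon c)) :
    ∃ t, C.Lead O d c b0 t ∧ ∑ i, N i * t i = 0 := by
  have hf1 : ∀ i, C.Mx O (C.th i f / f - algebraMap ℂ L (N i)) := fun i => Mx.of_div i (hf i)
  have hf2 : ∀ i, (if i ∈ univ then C.z i else 1) * C.D i f / f ∈ O := fun i => by
    rw [if_pos (mem_univ i), ← th_apply, ← sub_add_cancel (C.th i f / f) (algebraMap ℂ L (N i))]
    exact add_mem ((hf1 i).mem hS.z) (O.algebraMap_mem _)
  rw [← G_univ] at h0 hb1
  obtain ⟨u, hu, h2, u', hu', h3⟩ := red hS (fun i _ => ha i) hf0 hf2 h0 hδ0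
    (fun i h => absurd (mem_univ i) h) fun i _ j _ h => ne_of_lt (hc i) h
  have h4 := G_dlog hf2 h2
  rw [G_univ] at h2
  choose t ht using fun i => hv _ (h2 i)
  refine ⟨t, ⟨u, hu, h2, ht⟩, Mx.cst h1 ?_⟩
  have e1 : d.δ (b1 - u') / C.mon c =
      (d.δ b1 + b0 f / f) / C.mon c - (b0 - u) f / f / C.mon c := by
    rw [map_sub, Derivation.sub_apply]
    linear_combination -h3 / C.mon c
  have h5 : b1 - u' ∈ C.F O (c1 ⊓ (c0 ⊓ c)) := by
    rw [← G_univ]
    exact sub_mem (G_anti hS.z _ inf_le_left hb1) (G_anti hS.z _ inf_le_right hu')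
  have h6 := δ_Mx hS ha hc h5 (by rw [e1]; exact sub_mem (hδ1.mem hS.z) h4)
  rw [e1] at h6
  have h7 := hδ1.sub h6
  rw [sub_sub_cancel] at h7
  have e2 : (b0 - u) f / f / C.mon c =
      ∑ i, (b0 - u) (C.z i) / (C.z i * C.mon c) * (C.th i f / f) := by
    rw [C.exp_apply (b0 - u) f, sum_div, sum_div]
    refine sum_congr rfl fun i _ => ?_
    have := C.ne i
    have := C.mon_ne c
    rw [th_apply]
    field_simp
  rw [e2] at h7
  have h8 := h7.sub (Mx.sum univ fun i _ => (Mx.mul (h2 i) (hf1 i)).add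
    (Mx.mul (O.algebraMap_mem (N i)) (ht i)))
  rw [← sum_sub_distrib] at h8
  have e3 : ∀ (p q r w : L), p * q - (p * (q - r) + r * (p - w)) = r * w := fun p q r w => by ring
  simpa only [e3, map_sum, map_mul] using h8

end Co

end Pool.Agent.MP_ee8c61_ag.M3RESID
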